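import Mathlib

/-!
# Infinite `p`-groups: elements with finite conjugacy class and generic conjugates
-/

set_option autoImplicit false

namespace Pool.Agent.Helper233.Cen

open Subgroup
open scoped Pointwise

variable {G : Type*} [Group G] {p : ℕ} [hp : Fact p.Prime]

/-- conjugation `x^g = g⁻¹ x g` -/
def cj (x g : G) : G := g⁻¹ * x * g

omit hp in
theorem cj_mul (x y g : G) : cj (x * y) g = cj x g * cj y g := by
  unfold cj; group

omit hp in
theorem cj_cj (x g h : G) : cj (cj x g) h = cj x (g * h) := by
  unfold cj; group

omit hp in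
theorem cj_one (g : G) : cj (1 : G) g = 1 := by
  unfold cj; group

omit hp in
theorem cj_inv (x g : G) : cj x⁻¹ g = (cj x g)⁻¹ := by
  unfold cj; group

omit hp in
theorem cj_pow (x g : G) (n : ℕ) : cj (x ^ n) g = (cj x g) ^ n := by
  induction n with
  | zero => simp [cj_one]
  | succ n ih => rw [pow_succ, pow_succ, cj_mul, ih]

/-- a finite normal subgroup generated by conjugates: if `x` has a centraliser of finite index in a
torsion group then the normal closure of `x` is finite -/
theorem finite_normalClosure (hG : IsPGroup p G) (x : G)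
    (hx : (centralizer ({x} : Set G)).FiniteIndex) :
    Finite (normalClosure ({x} : Set G)) := by
  set C := centralizer ({x} : Set G) with hC
  set N := C.normalCore with hN
  have : N.FiniteIndex := inferInstance
  set V := normalClosure ({x} : Set G) with hV
  -- conjugates of x form a finite set
  have hfin : (Group.conjugatesOfSet ({x} : Set G)).Finite := by
    have : Group.conjugatesOfSet ({x} : Set G) ⊆ Set.range (fun q : G ⧸ C =>
        Quotient.out q * x * (Quotient.out q)⁻¹) := by
      intro y hy
      rw [Group.mem_conjugatesOfSet_iff] at hy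
      obtain ⟨z, hz, hzy⟩ := hy
      rw [Set.mem_singleton_iff] at hz
      subst hz
      rw [isConj_iff] at hzy
      obtain ⟨g, hg⟩ := hzy
      refine ⟨(g : G ⧸ C), ?_⟩
      obtain ⟨c, hc⟩ := QuotientGroup.mk_out_eq_mul C g
      show Quotient.out (g : G ⧸ C) * z * (Quotient.out (g : G ⧸ C))⁻¹ = y
      rw [hc, ← hg]
      have hcz : (c : G) * z = z * c := by
        have := c.2
        rw [mem_centralizer_singleton_iff] at this
        exact this
      rw [mul_assoc g, hcz]
      group
    exact (Set.finite_range _).subset this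
  have hfg : Group.FG V := by
    rw [Group.fg_iff_subgroup_fg]
    refine ⟨hfin.toFinset, ?_⟩
    rw [Set.Finite.coe_toFinset]
    rfl
  -- N centralises V
  have hNV : ∀ n ∈ N, ∀ v ∈ V, n * v = v * n := by
    intro n hn
    have : V ≤ centralizer ({n} : Set G) := by
      have h1 : (centralizer (N : Set G)).Normal := by
        infer_instance
      have h2 : V ≤ centralizer (N : Set G) := by
        apply normalClosure_le_normal
        rw [Set.singleton_subset_iff]
        show x ∈ centralizer (N : Set G)
        rw [mem_centralizer_iff]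
        intro m hm
        have : m ∈ C := normalCore_le C hm
        rw [hC, mem_centralizer_singleton_iff] at this
        exact this
      exact h2.trans (centralizer_le (Set.singleton_subset_iff.2 hn))
    intro v hv
    have := this hv
    rw [mem_centralizer_singleton_iff] at this
    exact this.symm
  set H := N.subgroupOf V with hH
  have : H.FiniteIndex := inferInstance
  have : Group.FG H := inferInstance
  let : CommGroup H := { (inferInstance : Group H) with
    mul_comm := by
      rintro ⟨⟨a, ha⟩, ha'⟩ ⟨⟨b, hb⟩, hb'⟩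
      apply Subtype.ext
      apply Subtype.ext
      exact hNV a ha' b hb }
  have tors : IsMulTorsion G := by
    intro g
    obtain ⟨k, hk⟩ := hG g
    exact isOfFinOrder_iff_pow_eq_one.2 ⟨p ^ k, pow_pos hp.out.pos k, hk⟩
  have : Finite H := by
    apply CommGroup.finite_of_fg_isMulTorsion
    exact (tors.subgroup V).subgroup H
  apply Nat.finite_of_card_ne_zero
  rw [← H.card_mul_index]
  exact mul_ne_zero (Nat.card_pos (α := H)).ne' FiniteIndex.index_ne_zero

/-- in a `p`-group a nontrivial element with centraliser of finite index gives a nontrivial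
centre -/
theorem center_ne_bot (hG : IsPGroup p G) (x : G) (hx1 : x ≠ 1)
    (hx : (centralizer ({x} : Set G)).FiniteIndex) : center G ≠ ⊥ := by
  have := finite_normalClosure hG x hx
  set V := normalClosure ({x} : Set G) with hV
  have : V.Normal := inferInstance
  have hxV : x ∈ V := subset_normalClosure (Set.mem_singleton x)
  have hG' : IsPGroup p (ConjAct G) := hG.of_equiv ConjAct.toConjAct
  have : Nontrivial V := ⟨⟨⟨x, hxV⟩, 1, fun h => hx1 (congrArg Subtype.val h)⟩⟩
  have hVp : IsPGroup p V := hG.to_subgroup V
  have dvd : p ∣ Nat.card V := by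
    obtain ⟨n, hn0, hn⟩ := hVp.nontrivial_iff_card.mp inferInstance
    exact hn.symm ▸ dvd_pow_self _ (ne_of_gt hn0)
  have h1 : (1 : V) ∈ MulAction.fixedPoints (ConjAct G) V := by
    intro g
    apply Subtype.ext
    simp
  obtain ⟨b, hb, hb1⟩ := hG'.exists_fixed_point_of_prime_dvd_card_of_fixed_point V dvd h1
  intro hZ
  have hbZ : (b : G) ∈ center G := by
    rw [mem_center_iff]
    intro g
    have := congrArg Subtype.val (hb (ConjAct.toConjAct g))
    rw [ConjAct.Subgroup.val_conj_smul, ConjAct.toConjAct_smul] at this
    calc g * b = (g * b * g⁻¹) * g := by group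
      _ = b * g := by rw [this]
  rw [hZ, mem_bot] at hbZ
  exact hb1 (Subtype.ext hbZ.symm)

/-- **generic elements**: if the centre of the `p`-group `G` is trivial, then for finitely many pairs
`(x, y)` with `x ≠ 1` there is `g` with `x^g ≠ y` for all the pairs -/
theorem exists_generic (hG : IsPGroup p G) (hZ : center G = ⊥) (S : Set (G × G)) (hS : S.Finite)
    (h1 : ∀ s ∈ S, s.1 ≠ 1) : ∃ g : G, ∀ s ∈ S, cj s.1 g ≠ s.2 := by
  classical
  by_contra hcon
  push Not at hcon
  -- choose a conjugator for each pair, if there is one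
  have hch : ∀ s : G × G, ∃ h : G, (∃ g, cj s.1 g = s.2) → cj s.1 h = s.2 := by
    intro s
    by_cases h : ∃ g, cj s.1 g = s.2
    · obtain ⟨g, hg⟩ := h
      exact ⟨g, fun _ => hg⟩
    · exact ⟨1, fun h' => absurd h' h⟩
  choose c hc using hch
  have hcov : ⋃ s ∈ hS.toFinset, ((c s)⁻¹ : G) • ((centralizer ({s.1} : Set G) : Subgroup G) : Set G)
      = Set.univ := by
    rw [Set.eq_univ_iff_forall]
    intro g
    obtain ⟨s, hs, hsg⟩ := hcon g⁻¹
    rw [Set.mem_iUnion₂]
    refine ⟨s, hS.mem_toFinset.2 hs, ?_⟩
    rw [Set.mem_smul_set_iff_inv_smul_mem, inv_inv, SetLike.mem_coe, mem_centralizer_singleton_iff]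
    have h2 := hc s ⟨_, hsg⟩
    rw [← hsg] at h2
    unfold cj at h2
    rw [inv_inv] at h2
    rw [smul_eq_mul]
    symm
    calc s.1 * (c s * g) = c s * ((c s)⁻¹ * s.1 * c s) * g := by group
      _ = c s * (g * s.1 * g⁻¹) * g := by rw [h2]
      _ = c s * g * s.1 := by group
  obtain ⟨s, hs, hfi⟩ := exists_finiteIndex_of_leftCoset_cover hcov
  exact center_ne_bot hG s.1 (h1 s (hS.mem_toFinset.1 hs)) hfi hZ

end Pool.Agent.Helper233.Cen
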