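import Pool.Agent.Helper233.Cen.A

/-!
# Two cases: `a` has finitely many conjugates in its normal closure; metabelian normal closure
-/

set_option autoImplicit false

namespace Pool.Agent.Helper233.Cen

open Subgroup
open scoped Pointwise

variable {G : Type*} [Group G] {p : ℕ}

theorem isConj_cj (a g : G) : IsConj a (cj a g) := by
  rw [isConj_iff]
  exact ⟨g⁻¹, by unfold cj; group⟩

theorem exists_cj_of_isConj {a b : G} (h : IsConj a b) : ∃ g, b = cj a g := by
  rw [isConj_iff] at h
  obtain ⟨c, hc⟩ := h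
  exact ⟨c⁻¹, by rw [← hc]; unfold cj; group⟩

/-- if `a` has only finitely many conjugates under `K = ⟨a^G⟩`, the centre is nontrivial -/
theorem case_orbit [hp : Fact p.Prime] (hG : IsPGroup p G) (a : G) (ha : a ≠ 1)
    (h2 : ({x : G | Commute x a} ∩ {x : G | IsConj a x}).Finite)
    (hD : {x : G | ∃ k ∈ normalClosure ({a} : Set G), x = cj a k}.Finite) :
    center G ≠ ⊥ := by
  intro hZ
  set K := normalClosure ({a} : Set G) with hK
  set C := {x : G | Commute x a} ∩ {x : G | IsConj a x} with hC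
  set D : Set G := (fun x => a⁻¹ * x) '' {x : G | ∃ k ∈ K, x = cj a k} with hDd
  have hDf : D.Finite := hD.image _
  have haK : a ∈ K := subset_normalClosure (Set.mem_singleton a)
  have hKn : K.Normal := inferInstance
  have hmem : ∀ k ∈ K, a⁻¹ * cj a k ∈ D := fun k hk => ⟨_, ⟨k, hk, rfl⟩, rfl⟩
  set S1 : Set (G × G) := (fun c => (a, c)) '' C with hS1
  set S2 : Set (G × G) := {s | s ∈ ((fun x : G => x⁻¹) '' D) ×ˢ D ∧ s.1 ≠ 1} with hS2
  have hS2f : S2.Finite := (((hDf.image _).prod hDf)).subset (fun s hs => hs.1)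
  obtain ⟨g, hg⟩ := exists_generic hG hZ (S1 ∪ S2) ((h2.image _).union hS2f) (by
    rintro s (⟨c, _, rfl⟩ | hs)
    · exact ha
    · exact hs.2)
  have hbK : cj a g ∈ K := by
    have := hKn.conj_mem a haK g⁻¹
    rw [inv_inv] at this
    exact this
  have hbK' : g * a * g⁻¹ ∈ K := hKn.conj_mem a haK g
  by_cases hu : a⁻¹ * cj a (cj a g) = 1
  · have hcomm : Commute (cj a g) a := by
      have h3 : cj a (cj a g) = a := by
        calc cj a (cj a g) = a * (a⁻¹ * cj a (cj a g)) := by group
          _ = a := by rw [hu, mul_one]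
      have h4 : (cj a g)⁻¹ * a * cj a g = a := h3
      show cj a g * a = a * cj a g
      calc cj a g * a = cj a g * ((cj a g)⁻¹ * a * cj a g) := by rw [h4]
        _ = a * cj a g := by group
    exact hg (a, cj a g) (Or.inl ⟨_, ⟨hcomm, isConj_cj a g⟩, rfl⟩) rfl
  · set t := a⁻¹ * cj a (g * a * g⁻¹) with ht
    have htD : t ∈ D := hmem _ hbK'
    have h5 : cj t⁻¹ g = a⁻¹ * cj a (cj a g) := by
      rw [ht]; unfold cj; group
    have ht1 : t⁻¹ ≠ 1 := by
      intro h
      rw [h, cj_one] at h5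
      exact hu h5.symm
    exact hg (t⁻¹, a⁻¹ * cj a (cj a g)) (Or.inr ⟨⟨⟨t, htD, rfl⟩, hmem _ hbK⟩, ht1⟩) h5

/-- the displacement `x ↦ x⁻¹ x^a` -/
def dl (a x : G) : G := x⁻¹ * cj x a

theorem dl_mem (A : Subgroup G) [A.Normal] (a : G) {x : G} (hx : x ∈ A) : dl a x ∈ A := by
  have : cj x a ∈ A := by
    have := (inferInstance : A.Normal).conj_mem x hx a⁻¹
    rw [inv_inv] at this
    exact this
  exact A.mul_mem (A.inv_mem hx) this

theorem cj_mem (A : Subgroup G) [A.Normal] (a : G) {x : G} (hx : x ∈ A) : cj x a ∈ A := by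
  have := (inferInstance : A.Normal).conj_mem x hx a⁻¹
  rw [inv_inv] at this
  exact this

theorem ring_aux {R : Type*} [Ring R] {p : ℕ} (hp : p.Prime) (α : R) (hα : α ^ p = 1) :
    ∃ r : R, (α + -1) ^ p = (p : R) * r := by
  have hcomm : Commute α (-1 : R) := (Commute.one_right α).neg_right
  obtain ⟨r, hr⟩ := hcomm.exists_add_pow_prime_eq hp
  rcases hp.eq_two_or_odd' with h2 | hodd
  · refine ⟨1 + α * -1 * r, ?_⟩
    rw [hr, hα, mul_add]
    have e1 : (-1 : R) ^ p = 1 := by
      rw [h2]; simp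
    rw [e1]
    have e2 : (p : R) * 1 = 1 + 1 := by
      rw [h2, mul_one]; norm_num
    rw [e2]
    simp only [mul_assoc]
  · refine ⟨α * -1 * r, ?_⟩
    rw [hr, hα, hodd.neg_one_pow]
    simp only [mul_assoc]
    rw [add_neg_cancel, zero_add]

section abelian

variable (A : Subgroup G) [A.Normal] (hA : ∀ x ∈ A, ∀ y ∈ A, x * y = y * x) (a : G)
include hA

theorem dl_mul {x y : G} (hx : x ∈ A) (hy : y ∈ A) : dl a (x * y) = dl a x * dl a y := by
  unfold dl
  rw [cj_mul]
  have h1 : cj x a ∈ A := cj_mem A a hx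
  calc (x * y)⁻¹ * (cj x a * cj y a) = y⁻¹ * (x⁻¹ * cj x a) * cj y a := by group
    _ = (x⁻¹ * cj x a) * y⁻¹ * cj y a := by
        rw [hA y⁻¹ (A.inv_mem hy) _ (A.mul_mem (A.inv_mem hx) h1)]
    _ = x⁻¹ * cj x a * (y⁻¹ * cj y a) := by group

omit [A.Normal] hA in
theorem dl_one : dl a 1 = 1 := by
  unfold dl cj; group

theorem dl_pow {x : G} (hx : x ∈ A) (n : ℕ) : dl a (x ^ n) = dl a x ^ n := by
  induction n with
  | zero => simp [dl_one]
  | succ n ih => rw [pow_succ, pow_succ, dl_mul A hA a (A.pow_mem hx n) hx, ih]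

/-- `(α - 1)^p = 0` on elements of order `p` -/
theorem dl_iter (hp : p.Prime) (hap : a ^ p = 1) {y : G} (hy : y ∈ A) (hyp : y ^ p = 1) :
    (dl a)^[p] y = 1 := by
  let _ : CommGroup A := { (inferInstance : Group A) with
    mul_comm := fun x y => Subtype.ext (hA x x.2 y y.2) }
  let f : A →* A :=
    { toFun := fun x => ⟨cj x a, cj_mem A a x.2⟩
      map_one' := Subtype.ext (cj_one a)
      map_mul' := fun x y => Subtype.ext (cj_mul _ _ a) }
  let α : AddMonoid.End (Additive A) := MonoidHom.toAdditive f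
  have hα : ∀ x : A, α (Additive.ofMul x) = Additive.ofMul (f x) := fun x => rfl
  have hpow : ∀ (n : ℕ) (x : A), (((α ^ n) (Additive.ofMul x)).toMul : G) = cj (x : G) (a ^ n) := by
    intro n
    induction n with
    | zero => intro x; simp [cj]
    | succ n ih =>
      intro x
      rw [pow_succ]
      have : (α ^ n * α) (Additive.ofMul x) = (α ^ n) (Additive.ofMul (f x)) := rfl
      rw [this, ih]
      show cj (cj (x : G) a) (a ^ n) = _
      rw [cj_cj, ← pow_succ']
  have hα1 : α ^ p = 1 := by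
    refine AddMonoidHom.ext fun x => ?_
    obtain ⟨x, rfl⟩ := Additive.ofMul.surjective x
    have := hpow p x
    rw [hap] at this
    apply Additive.toMul.injective
    apply Subtype.ext
    refine this.trans ?_
    show cj (x : G) 1 = (x : G)
    simp [cj]
  obtain ⟨r', hr'⟩ := ring_aux hp α hα1
  have hiter : ∀ (n : ℕ) (x : A), (((α + -1) ^ n) (Additive.ofMul x)).toMul.1 = (dl a)^[n] (x : G) := by
    intro n
    induction n with
    | zero => intro x; rfl
    | succ n ih =>
      intro x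
      rw [pow_succ, Function.iterate_succ_apply]
      have : ((α + -1) ^ n * (α + -1)) (Additive.ofMul x) =
          ((α + -1) ^ n) ((α + -1) (Additive.ofMul x)) := rfl
      rw [this]
      have h3 : (α + -1) (Additive.ofMul x) = Additive.ofMul (⟨dl a x, dl_mem A a x.2⟩ : A) := by
        show Additive.ofMul (f x) + - Additive.ofMul x = _
        apply Additive.toMul.injective
        apply Subtype.ext
        show cj (x : G) a * (x : G)⁻¹ = dl a x
        exact hA _ (cj_mem A a x.2) _ (A.inv_mem x.2)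
      rw [h3, ih]
  have h4 := hiter p ⟨y, hy⟩
  rw [← h4, hr']
  have h5 : ((p : AddMonoid.End (Additive A)) * r') (Additive.ofMul ⟨y, hy⟩) =
      p • r' (Additive.ofMul ⟨y, hy⟩) := by
    show (p : AddMonoid.End (Additive A)) (r' (Additive.ofMul ⟨y, hy⟩)) = _
    rw [AddMonoid.End.natCast_apply]
  rw [h5, ← map_nsmul]
  have h6 : p • Additive.ofMul (⟨y, hy⟩ : A) = 0 := by
    rw [← ofMul_pow]
    have : (⟨y, hy⟩ : A) ^ p = 1 := Subtype.ext hyp
    rw [this]; rfl
  rw [h6, map_zero]
  rfl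

end abelian

end Pool.Agent.Helper233.Cen
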