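import Pool.Agent.Helper233.Cen.B

/-!
# The metabelian case
-/

set_option autoImplicit false

namespace Pool.Agent.Helper233.Cen

open Subgroup
open scoped Pointwise

variable {G : Type*} [Group G] {p : ℕ}

/-- commuting conjugates of `a` -/
def CC (a : G) : Set G := {x : G | Commute x a} ∩ {x : G | IsConj a x}

section abelian

variable (A : Subgroup G) [A.Normal] (hA : ∀ x ∈ A, ∀ y ∈ A, x * y = y * x) (a : G)

/-- the elements of order dividing `p` of `[A, a]` killed by `j` displacements -/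
def EE (p : ℕ) (j : ℕ) : Set G := {y | y ^ p = 1 ∧ (∃ x ∈ A, y = dl a x) ∧ (dl a)^[j] y = 1}

omit [A.Normal] in
theorem finite_fix (h2 : (CC a).Finite) :
    {y : G | (∃ x ∈ A, y = dl a x) ∧ dl a y = 1}.Finite := by
  refine (h2.image (fun c => (a⁻¹ * c)⁻¹)).subset ?_
  rintro y ⟨⟨x, hx, rfl⟩, hy⟩
  refine ⟨cj a x, ⟨?_, isConj_cj a x⟩, ?_⟩
  · -- cj a x commutes with a
    have h1 : a * (dl a x)⁻¹ = cj a x := by unfold dl cj; group
    have h3 : dl a x * a = a * dl a x := by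
      have : dl a (dl a x) = (dl a x)⁻¹ * (a⁻¹ * dl a x * a) := rfl
      rw [this] at hy
      have h4 : a⁻¹ * dl a x * a = dl a x := by
        calc a⁻¹ * dl a x * a = dl a x * ((dl a x)⁻¹ * (a⁻¹ * dl a x * a)) := by group
          _ = dl a x := by rw [hy, mul_one]
      calc dl a x * a = a * (a⁻¹ * dl a x * a) := by group
        _ = a * dl a x := by rw [h4]
    have h5 : Commute (dl a x) a := h3
    rw [← h1]
    exact (Commute.refl a).mul_left h5.inv_left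
  · show (a⁻¹ * cj a x)⁻¹ = dl a x
    unfold dl cj; group

include hA

theorem finite_EE (h2 : (CC a).Finite) (j : ℕ) : (EE A a p j).Finite := by
  induction j with
  | zero =>
    refine (Set.finite_singleton (1 : G)).subset ?_
    rintro y ⟨_, _, h⟩
    exact h
  | succ j ih =>
    have hsub : EE A a p (j + 1) ⊆ ⋃ z ∈ EE A a p j, {y | y ∈ EE A a p (j + 1) ∧ dl a y = z} := by
      intro y hy
      rw [Set.mem_iUnion₂]
      obtain ⟨h1, ⟨x, hx, hxy⟩, h3⟩ := hy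
      have hyA : y ∈ A := by rw [hxy]; exact dl_mem A a hx
      refine ⟨dl a y, ⟨?_, ⟨y, hyA, rfl⟩, ?_⟩, ⟨h1, ⟨x, hx, hxy⟩, h3⟩, rfl⟩
      · rw [← dl_pow A hA a hyA, h1, dl_one]
      · rw [← Function.iterate_succ_apply]; exact h3
    refine (ih.biUnion fun z _ => ?_).subset hsub
    rcases Set.eq_empty_or_nonempty {y | y ∈ EE A a p (j + 1) ∧ dl a y = z} with he | ⟨y0, hy0, hy0z⟩
    · rw [he]; exact Set.finite_empty
    · refine ((finite_fix A a h2).image (fun y => y0 * y)).subset ?_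
      rintro y ⟨hy, hyz⟩
      obtain ⟨h1, ⟨x, hx, hxy⟩, h3⟩ := hy
      obtain ⟨k1, ⟨x0, hx0, hxy0⟩, k3⟩ := hy0
      have hyA : y ∈ A := by rw [hxy]; exact dl_mem A a hx
      have hyA0 : y0 ∈ A := by rw [hxy0]; exact dl_mem A a hx0
      refine ⟨y0⁻¹ * y, ⟨⟨x0⁻¹ * x, A.mul_mem (A.inv_mem hx0) hx, ?_⟩, ?_⟩, by group⟩
      · rw [dl_mul A hA a (A.inv_mem hx0) hx]
        have := dl_pow A hA a hx0 1
        have h7 : dl a x0⁻¹ * dl a x0 = 1 := by
          rw [← dl_mul A hA a (A.inv_mem hx0) hx0, inv_mul_cancel, dl_one]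
        have h8 : dl a x0⁻¹ = (dl a x0)⁻¹ := eq_inv_of_mul_eq_one_left h7
        rw [h8, ← hxy0, ← hxy]
      · rw [dl_mul A hA a (A.inv_mem hyA0) hyA]
        have h7 : dl a y0⁻¹ * dl a y0 = 1 := by
          rw [← dl_mul A hA a (A.inv_mem hyA0) hyA0, inv_mul_cancel, dl_one]
        have h8 : dl a y0⁻¹ = (dl a y0)⁻¹ := eq_inv_of_mul_eq_one_left h7
        rw [h8, hyz, hy0z, inv_mul_cancel]

theorem finite_S1 (hp : p.Prime) (hap : a ^ p = 1) (h2 : (CC a).Finite) :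
    {y : G | y ^ p = 1 ∧ ∃ x ∈ A, y = dl a x}.Finite := by
  refine (finite_EE A hA a h2 p (p := p)).subset ?_
  rintro y ⟨h1, x, hx, hxy⟩
  refine ⟨h1, ⟨x, hx, hxy⟩, ?_⟩
  exact dl_iter A hA a hp hap (by rw [hxy]; exact dl_mem A a hx) h1

theorem finite_T1 (hp : p.Prime) (hap : a ^ p = 1) (h2 : (CC a).Finite) :
    {u : G | u ∈ A ∧ u ^ p = 1 ∧ IsConj a (a * u)}.Finite := by
  have hsub : {u : G | u ∈ A ∧ u ^ p = 1 ∧ IsConj a (a * u)} ⊆
      ⋃ z ∈ {y : G | y ^ p = 1 ∧ ∃ x ∈ A, y = dl a x},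
        {u | (u ∈ A ∧ u ^ p = 1 ∧ IsConj a (a * u)) ∧ dl a u = z} := by
    intro u hu
    rw [Set.mem_iUnion₂]
    refine ⟨dl a u, ⟨?_, u, hu.1, rfl⟩, hu, rfl⟩
    rw [← dl_pow A hA a hu.1, hu.2.1, dl_one]
  refine ((finite_S1 A hA a hp hap h2).biUnion fun z _ => ?_).subset hsub
  rcases Set.eq_empty_or_nonempty {u | (u ∈ A ∧ u ^ p = 1 ∧ IsConj a (a * u)) ∧ dl a u = z}
    with he | ⟨v, ⟨hv1, hv2, hv3⟩, hvz⟩
  · rw [he]; exact Set.finite_empty
  · obtain ⟨g, hg⟩ := exists_cj_of_isConj hv3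
    refine (h2.image (fun c => a⁻¹ * cj c g)).subset ?_
    rintro u ⟨⟨hu1, hu2, hu3⟩, huz⟩
    refine ⟨cj (a * u) g⁻¹, ⟨?_, ?_⟩, ?_⟩
    · -- commutes with a
      have h3 : a * u * (a * v) = a * v * (a * u) := by
        have e1 : a * u * (a * v) = a * a * cj u a * v := by unfold cj; group
        have e2 : a * v * (a * u) = a * a * cj v a * u := by unfold cj; group
        rw [e1, e2]
        have e3 : cj u a = u * z := by rw [← huz]; unfold dl; group
        have e4 : cj v a = v * z := by rw [← hvz]; unfold dl; group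
        have hz : z ∈ A := by rw [← huz]; exact dl_mem A a hu1
        rw [e3, e4]
        have : u * z * v = v * z * u := by
          rw [hA _ (A.mul_mem hu1 hz) _ hv1, hA u hu1 z hz, mul_assoc]
        rw [mul_assoc (a * a), this]
        group
      show cj (a * u) g⁻¹ * a = a * cj (a * u) g⁻¹
      have h4 : a = cj (a * v) g⁻¹ := by rw [hg]; unfold cj; group
      calc cj (a * u) g⁻¹ * a = cj (a * u) g⁻¹ * cj (a * v) g⁻¹ := by rw [← h4]
        _ = cj (a * u * (a * v)) g⁻¹ := (cj_mul _ _ _).symm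
        _ = cj (a * v * (a * u)) g⁻¹ := by rw [h3]
        _ = cj (a * v) g⁻¹ * cj (a * u) g⁻¹ := cj_mul _ _ _
        _ = a * cj (a * u) g⁻¹ := by rw [← h4]
    · exact hu3.trans (isConj_cj _ _)
    · show a⁻¹ * cj (cj (a * u) g⁻¹) g = u
      unfold cj; group

/-- `(a u)^n = a^n u^n z` with `z` in `[A, a]` -/
theorem mul_pow_dl {u : G} (hu : u ∈ A) (n : ℕ) :
    ∃ x ∈ A, (a * u) ^ n = a ^ n * u ^ n * dl a x := by
  induction n with
  | zero => exact ⟨1, A.one_mem, by simp [dl_one]⟩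
  | succ n ih =>
    obtain ⟨x, hx, hxe⟩ := ih
    have hun : u ^ n ∈ A := A.pow_mem hu n
    have hd : dl a x ∈ A := dl_mem A a hx
    refine ⟨u ^ n * x * dl a x, A.mul_mem (A.mul_mem hun hx) hd, ?_⟩
    rw [pow_succ, hxe, dl_mul A hA a (A.mul_mem hun hx) hd, dl_mul A hA a hun hx]
    have e1 : a ^ n * u ^ n * dl a x * (a * u) = a ^ n * a * (cj (u ^ n) a * cj (dl a x) a * u) := by
      unfold cj; group
    have e2 : cj (u ^ n) a = u ^ n * dl a (u ^ n) := by unfold dl; group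
    have e3 : cj (dl a x) a = dl a x * dl a (dl a x) := by
      show _ = dl a x * ((dl a x)⁻¹ * cj (dl a x) a)
      group
    rw [e1, e2, e3]
    have m1 := dl_mem A a hun
    have m2 := dl_mem A a hd
    have hall : dl a (u ^ n) * (dl a x * dl a (dl a x)) ∈ A :=
      A.mul_mem m1 (A.mul_mem hd m2)
    calc a ^ n * a * (u ^ n * dl a (u ^ n) * (dl a x * dl a (dl a x)) * u)
        = a ^ n * a * u ^ n * ((dl a (u ^ n) * (dl a x * dl a (dl a x))) * u) := by group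
      _ = a ^ n * a * u ^ n * (u * (dl a (u ^ n) * (dl a x * dl a (dl a x)))) := by
          rw [hA _ hall u hu]
      _ = a ^ (n + 1) * u ^ (n + 1) * (dl a (u ^ n) * dl a x * dl a (dl a x)) := by group

theorem dl_inv {x : G} (hx : x ∈ A) : dl a x⁻¹ = (dl a x)⁻¹ := by
  have h7 : dl a x⁻¹ * dl a x = 1 := by
    rw [← dl_mul A hA a (A.inv_mem hx) hx, inv_mul_cancel, dl_one]
  exact eq_inv_of_mul_eq_one_left h7

/-- the case of an abelian normal subgroup `A` modulo which `a` commutes with its conjugates -/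
theorem case_meta [hp : Fact p.Prime] (hG : IsPGroup p G) (ha : orderOf a = p)
    (h2 : (CC a).Finite) (hcom : ∀ g, a⁻¹ * cj a (cj a g) ∈ A) : center G ≠ ⊥ := by
  intro hZ
  have hap : a ^ p = 1 := by rw [← ha]; exact pow_orderOf_eq_one a
  have ha1 : a ≠ 1 := by
    intro h
    rw [h, orderOf_one] at ha
    exact hp.out.one_lt.ne ha
  set S := {y : G | y ^ p = 1 ∧ ∃ x ∈ A, y = dl a x} with hS
  set T := {u : G | u ∈ A ∧ u ^ p = 1 ∧ IsConj a (a * u)} with hT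
  have hSf : S.Finite := finite_S1 A hA a hp.out hap h2
  have hTf : T.Finite := finite_T1 A hA a hp.out hap h2
  set P1 : Set (G × G) := (fun c => (a, c)) '' (CC a) with hP1
  set P2 : Set (G × G) := {s | s ∈ S ×ˢ S ∧ s.1 ≠ 1} with hP2
  set P3 : Set (G × G) := {s | s ∈ ((fun x : G => x⁻¹) '' T) ×ˢ T ∧ s.1 ≠ 1} with hP3
  obtain ⟨g, hg⟩ := exists_generic hG hZ (P1 ∪ P2 ∪ P3)
    (((h2.image _).union ((hSf.prod hSf).subset fun s hs => hs.1)).union
      (((hTf.image _).prod hTf).subset fun s hs => hs.1)) (by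
    rintro s ((⟨c, _, rfl⟩ | hs) | hs)
    · exact ha1
    · exact hs.2
    · exact hs.2)
  set b := cj a g with hb
  set u := a⁻¹ * cj a b with hu
  have huA : u ∈ A := hcom g
  have hbp : b ^ p = 1 := by rw [hb, ← cj_pow, hap, cj_one]
  have hau : a * u = cj a b := by rw [hu]; group
  have hbu : b * u⁻¹ = cj b a := by rw [hu]; unfold cj; group
  -- `u^p ∈ [A, a]`
  obtain ⟨x, hx, hxe⟩ := mul_pow_dl A hA a huA p
  rw [hau, ← cj_pow, hap, cj_one, one_mul] at hxe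
  have hup1 : u ^ p = dl a x⁻¹ := by
    rw [dl_inv A hA a hx]
    exact eq_inv_of_mul_eq_one_left hxe.symm
  obtain ⟨x', hx', hxe'⟩ := mul_pow_dl A hA b (A.inv_mem huA) p
  rw [hbu, ← cj_pow, hbp, cj_one, one_mul] at hxe'
  have hup2 : u ^ p = dl b x' := by
    rw [inv_pow] at hxe'
    exact (inv_mul_eq_one.1 hxe'.symm)
  -- intersection
  have hint : ∀ w : G, (∃ x ∈ A, w = dl a x) → (∃ x ∈ A, w = dl b x) → w = 1 := by
    rintro w ⟨y, hy, hyw⟩ ⟨z, hz, hzw⟩
    by_contra hw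
    obtain ⟨k, hk⟩ := hG w
    have hex : ∃ k, w ^ p ^ k = 1 := ⟨k, hk⟩
    classical
    have hk0 := Nat.find_spec hex
    have hkpos : Nat.find hex ≠ 0 := by
      intro h
      rw [h, pow_zero, pow_one] at hk0
      exact hw hk0
    obtain ⟨m, hm⟩ := Nat.exists_eq_succ_of_ne_zero hkpos
    have hm1 : w ^ p ^ m ≠ 1 := Nat.find_min hex (by omega)
    have hm2 : (w ^ p ^ m) ^ p = 1 := by
      rw [← pow_mul, ← pow_succ, ← Nat.succ_eq_add_one, ← hm]; exact hk0
    set w' := w ^ p ^ m with hw'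
    have hw'S : w' ∈ S := ⟨hm2, y ^ p ^ m, A.pow_mem hy _, by
      rw [dl_pow A hA a hy, ← hyw]⟩
    have hzA : cj z g⁻¹ ∈ A := cj_mem A g⁻¹ hz
    have hw'' : cj w' g⁻¹ ∈ S := by
      refine ⟨by rw [← cj_pow, hm2, cj_one], (cj z g⁻¹) ^ p ^ m, A.pow_mem hzA _, ?_⟩
      rw [dl_pow A hA a hzA, hw', cj_pow]
      congr 1
      rw [hzw, hb]
      unfold dl cj; group
    have hne : cj w' g⁻¹ ≠ 1 := by
      intro h
      apply hm1
      calc w' = cj (cj w' g⁻¹) g := by unfold cj; group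
        _ = 1 := by rw [h, cj_one]
    exact hg (cj w' g⁻¹, w') (Or.inl (Or.inr ⟨⟨hw'', hw'S⟩, hne⟩)) (by
      show cj (cj w' g⁻¹) g = w'
      unfold cj; group)
  have hup : u ^ p = 1 := hint _ ⟨_, A.inv_mem hx, hup1⟩ ⟨_, hx', hup2⟩
  have huT : u ∈ T := ⟨huA, hup, by rw [hau]; exact isConj_cj a b⟩
  have huT' : cj u⁻¹ g⁻¹ ∈ T := by
    refine ⟨cj_mem A g⁻¹ (A.inv_mem huA), ?_, ?_⟩
    · rw [← cj_pow, inv_pow, hup, inv_one, cj_one]
    · have e : a * cj u⁻¹ g⁻¹ = cj (b * u⁻¹) g⁻¹ := by rw [hb]; unfold cj; group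
      rw [e, hbu]
      exact ((isConj_cj a g).trans (isConj_cj b a)).trans (isConj_cj _ _)
  have hu1 : u = 1 := by
    by_contra hu1
    refine hg ((cj u⁻¹ g⁻¹)⁻¹, u) (Or.inr ⟨⟨⟨_, huT', rfl⟩, huT⟩, ?_⟩) ?_
    · intro h
      apply hu1
      have h' : (cj u⁻¹ g⁻¹)⁻¹ = 1 := h
      calc u = cj ((cj u⁻¹ g⁻¹)⁻¹) g := by unfold cj; group
        _ = 1 := by rw [h', cj_one]
    · show cj ((cj u⁻¹ g⁻¹)⁻¹) g = u
      unfold cj; group
  have hcomm : Commute b a := by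
    have h3 : cj a b = a := by rw [← hau, hu1, mul_one]
    have h4 : b⁻¹ * a * b = a := h3
    show b * a = a * b
    calc b * a = b * (b⁻¹ * a * b) := by rw [h4]
      _ = a * b := by group
  exact hg (a, b) (Or.inl (Or.inl ⟨_, ⟨hcomm, isConj_cj a g⟩, rfl⟩)) rfl

end abelian

end Pool.Agent.Helper233.Cen
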