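import Pool.Agent.Helper233.Cen.C

/-!
# Residually finite groups
-/

set_option autoImplicit false

namespace Pool.Agent.Helper233.Cen

open Subgroup
open scoped Pointwise

variable {G : Type*} [Group G] {p : ℕ}

/-- a normal subgroup which contains no `a⁻¹ c ≠ 1` with `c` a conjugate of `a` commuting with `a`
is centralised by `a` -/
theorem key_lemma [hp : Fact p.Prime] (hG : IsPGroup p G) (a : G)
    (h1 : ∀ g : G, Finite (closure ({a, cj a g} : Set G)))
    (N : Subgroup G) [hN : N.Normal] (hNa : ∀ x ∈ CC a, a⁻¹ * x ∈ N → x = a) :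
    ∀ u ∈ N, Commute u a := by
  intro u hu
  set P := closure ({a, cj a u} : Set G) with hP
  have hPf : Finite P := h1 u
  have haP : a ∈ P := subset_closure (by simp)
  have hcP : cj a u ∈ P := subset_closure (by simp)
  have hPN : ∀ n ∈ P, a⁻¹ * cj a n ∈ N := by
    have hle : P ≤ (centralizer ({(QuotientGroup.mk' N) a} : Set (G ⧸ N))).comap
        (QuotientGroup.mk' N) := by
      rw [hP, closure_le]
      intro x hx
      rcases hx with rfl | rfl
      · show (QuotientGroup.mk' N) x ∈ centralizer _
        rw [mem_centralizer_singleton_iff]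
      · show (QuotientGroup.mk' N) (cj a u) ∈ centralizer _
        have : (QuotientGroup.mk' N) (cj a u) = (QuotientGroup.mk' N) a := by
          have hu1 : (QuotientGroup.mk' N) u = 1 := by
            rw [QuotientGroup.mk'_apply, QuotientGroup.eq_one_iff]; exact hu
          unfold cj
          rw [map_mul, map_mul, map_inv, hu1]
          group
        rw [this, mem_centralizer_singleton_iff]
    intro n hn
    have := hle hn
    rw [mem_comap, mem_centralizer_singleton_iff] at this
    rw [← QuotientGroup.eq_one_iff]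
    have e : ((a⁻¹ * cj a n : G) : G ⧸ N) =
        ((QuotientGroup.mk' N) a)⁻¹ * (((QuotientGroup.mk' N) n)⁻¹ *
          ((QuotientGroup.mk' N) a * (QuotientGroup.mk' N) n)) := by
      rw [← mul_assoc ((QuotientGroup.mk' N) n)⁻¹]
      rfl
    rw [e, ← this]
    group
  have hnil : Group.IsNilpotent P := (hG.to_subgroup P).isNilpotent
  set aP : P := ⟨a, haP⟩ with haPd
  set H := centralizer ({aP} : Set P) with hH
  by_cases hHt : H = ⊤
  · have : (⟨cj a u, hcP⟩ : P) ∈ H := by rw [hHt]; exact mem_top _
    rw [hH, mem_centralizer_singleton_iff] at this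
    have hc : Commute (cj a u) a := congrArg Subtype.val this
    have huN : a⁻¹ * cj a u ∈ N := by
      have e : a⁻¹ * cj a u = (a⁻¹ * u⁻¹ * a⁻¹⁻¹) * u := by unfold cj; group
      rw [e]
      exact N.mul_mem (hN.conj_mem _ (N.inv_mem hu) _) hu
    have h3 : cj a u = a := hNa _ ⟨hc, isConj_cj a u⟩ huN
    have h4 : u⁻¹ * a * u = a := h3
    show u * a = a * u
    calc u * a = u * (u⁻¹ * a * u) := by rw [h4]
      _ = a * u := by group
  · exfalso
    have hnc : NormalizerCondition P := Group.normalizerCondition_of_isNilpotent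
    have hlt := hnc H (lt_top_iff_ne_top.2 hHt)
    obtain ⟨n, hn, hnH⟩ := SetLike.exists_of_lt hlt
    have haH : aP ∈ H := by rw [hH, mem_centralizer_singleton_iff]
    rw [mem_normalizer_iff] at hn
    have h5 : n * aP * n⁻¹ ∈ H := (hn aP).1 haH
    have h6 : Commute (n * aP * n⁻¹) aP := by
      rw [hH, mem_centralizer_singleton_iff] at h5
      exact h5
    have h7 : Commute (cj a (n : G)⁻¹) a := by
      have := congrArg Subtype.val h6.eq
      have e : cj a (n : G)⁻¹ = ((n * aP * n⁻¹ : P) : G) := by
        unfold cj; rw [inv_inv]; rfl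
      rw [e]
      exact this
    have h8 : cj a (n : G)⁻¹ = a :=
      hNa _ ⟨h7, isConj_cj a _⟩ (hPN _ (P.inv_mem n.2))
    apply hnH
    rw [hH, mem_centralizer_singleton_iff]
    apply Subtype.ext
    have h9 : (n : G) * a * (n : G)⁻¹ = a := by
      unfold cj at h8; rw [inv_inv] at h8; exact h8
    show (n : G) * a = a * n
    calc (n : G) * a = (n : G) * a * (n : G)⁻¹ * n := by group
      _ = a * n := by rw [h9]

/-- the residually finite case -/
theorem case_rf [hp : Fact p.Prime] (hG : IsPGroup p G) (a : G) (ha : a ≠ 1)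
    (h1 : ∀ g : G, Finite (closure ({a, cj a g} : Set G)))
    (h2 : (CC a).Finite)
    (hrf : ∀ x : G, x ≠ 1 → ∃ N : Subgroup G, N.Normal ∧ N.FiniteIndex ∧ x ∉ N) :
    center G ≠ ⊥ := by
  have hX : ∀ X : Set G, X.Finite → (∀ x ∈ X, x ≠ 1) →
      ∃ N : Subgroup G, N.Normal ∧ N.FiniteIndex ∧ ∀ x ∈ X, x ∉ N := by
    intro X hX
    induction X, hX using Set.Finite.induction_on with
    | empty =>
      intro _
      exact ⟨⊤, inferInstance, inferInstance, fun x hx => absurd hx (Set.notMem_empty x)⟩
    | @insert x X _ _ ih =>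
      intro h
      obtain ⟨N, hN1, hN2, hN3⟩ := ih (fun y hy => h y (Set.mem_insert_of_mem _ hy))
      obtain ⟨M, hM1, hM2, hM3⟩ := hrf x (h x (Set.mem_insert _ _))
      refine ⟨N ⊓ M, inferInstance, inferInstance, ?_⟩
      intro y hy hyN
      rcases hy with rfl | hy
      · exact hM3 hyN.2
      · exact hN3 y hy hyN.1
  obtain ⟨N, hN1, hN2, hN3⟩ := hX ((fun x => a⁻¹ * x) '' (CC a \ {a})) ((h2.subset Set.sdiff_subset).image _) (by
    rintro _ ⟨x, ⟨_, hx⟩, rfl⟩ h
    apply hx
    have : a⁻¹ * x = 1 := h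
    rw [inv_mul_eq_one] at this
    exact this.symm)
  have hkey := key_lemma hG a h1 N (by
    intro x hx hxN
    by_contra hne
    exact hN3 _ ⟨x, ⟨hx, hne⟩, rfl⟩ hxN)
  apply center_ne_bot hG a ha
  refine finiteIndex_of_le (H := N) ?_
  intro n hn
  rw [mem_centralizer_singleton_iff]
  exact hkey n hn

end Pool.Agent.Helper233.Cen
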