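import Pool.Agent.Helper233.Cen.D

/-!
# Locally finite groups
-/

set_option autoImplicit false

namespace Pool.Agent.Helper233.Cen

open Subgroup
open scoped Pointwise commutatorElement

variable {G : Type*} [Group G] {p : ℕ}

/-- `u` acts on `⟨a^F⟩` as an `F`-equivariant central automorphism with `[a, u] = c` -/
structure Good (a : G) (F : Subgroup G) (c u : G) : Prop where
  mem : u ∈ F
  com : a⁻¹ * cj a u = c
  eqv : ∀ f ∈ F, ∀ f' ∈ F, Commute (u⁻¹ * cj u f) (cj a f')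
  cen : ∀ f ∈ F, ∀ f' ∈ F, Commute ((cj a f)⁻¹ * cj (cj a f) u) (cj a f')

theorem exists_good [hp : Fact p.Prime] (hG : IsPGroup p G) (a : G) (F : Subgroup G) (hF : Finite F)
    (haF : a ∈ F) (hnc : ∃ f ∈ F, ¬ Commute f a) :
    ∃ c u : G, c ≠ 1 ∧ a * c ∈ CC a ∧ Good a F c u := by
  have hnil : Group.IsNilpotent F := (hG.to_subgroup F).isNilpotent
  set aF : F := ⟨a, haF⟩ with haFd
  obtain ⟨n, hn⟩ := hnil.nilpotent'
  have hex : ∃ n, ¬ Subgroup.upperCentralSeries F n ≤ centralizer ({aF} : Set F) := by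
    refine ⟨n, ?_⟩
    rw [hn]
    intro h
    obtain ⟨f, hf, hfc⟩ := hnc
    apply hfc
    have := h (mem_top (⟨f, hf⟩ : F))
    rw [mem_centralizer_singleton_iff] at this
    exact congrArg Subtype.val this
  classical
  have hspec := Nat.find_spec hex
  have hne : Nat.find hex ≠ 0 := by
    intro h
    rw [h, Subgroup.upperCentralSeries_zero] at hspec
    exact hspec bot_le
  obtain ⟨m, hm⟩ := Nat.exists_eq_succ_of_ne_zero hne
  have hmle : Subgroup.upperCentralSeries F m ≤ centralizer ({aF} : Set F) := by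
    have := Nat.find_min hex (m := m) (by omega)
    push Not at this
    exact this
  rw [hm] at hspec
  obtain ⟨u, hu, huc⟩ := SetLike.not_le_iff_exists.1 hspec
  rw [Nat.succ_eq_add_one, Subgroup.mem_upperCentralSeries_succ_iff] at hu
  -- elements of the m-th term commute with all conjugates of a
  have hZ : ∀ z ∈ Subgroup.upperCentralSeries F m, ∀ f' ∈ F, Commute (z : G) (cj a f') := by
    intro z hz f' hf'
    have h1 : (⟨f', hf'⟩ : F) * z * (⟨f', hf'⟩ : F)⁻¹ ∈ Subgroup.upperCentralSeries F m :=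
      (inferInstance : (Subgroup.upperCentralSeries F m).Normal).conj_mem z hz _
    have h2 := hmle h1
    rw [mem_centralizer_singleton_iff] at h2
    have h3 : f' * z * f'⁻¹ * a = a * (f' * z * f'⁻¹) := congrArg Subtype.val h2
    show (z : G) * cj a f' = cj a f' * z
    unfold cj
    calc (z : G) * (f'⁻¹ * a * f') = f'⁻¹ * (f' * z * f'⁻¹ * a) * f' := by group
      _ = f'⁻¹ * (a * (f' * z * f'⁻¹)) * f' := by rw [h3]
      _ = f'⁻¹ * a * f' * z := by group
  have hcomm : ∀ f ∈ F, ∃ z ∈ Subgroup.upperCentralSeries F m, (z : G) = (u : G)⁻¹ * cj (u : G) f := by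
    intro f hf
    have h1 := hu (⟨f, hf⟩ : F)⁻¹
    -- ⁅u, f⁻¹⁆ = u f⁻¹ u⁻¹ f
    have h2 : (u : F)⁻¹ * ⁅u, (⟨f, hf⟩ : F)⁻¹⁆ * u⁻¹⁻¹ ∈ Subgroup.upperCentralSeries F m :=
      (inferInstance : (Subgroup.upperCentralSeries F m).Normal).conj_mem _ h1 _
    refine ⟨_, inv_mem h2, ?_⟩
    have e : ((u : F)⁻¹ * ⁅u, (⟨f, hf⟩ : F)⁻¹⁆ * u⁻¹⁻¹)⁻¹ = u⁻¹ * ((⟨f, hf⟩ : F)⁻¹ * u * ⟨f, hf⟩) := by
      rw [commutatorElement_def]; group
    rw [e]
    rfl
  have hcomm2 : ∀ b ∈ F, ∃ z ∈ Subgroup.upperCentralSeries F m, (z : G) = b⁻¹ * cj b (u : G) := by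
    intro b hb
    obtain ⟨z, hz, hz'⟩ := hcomm b hb
    refine ⟨z⁻¹, inv_mem hz, ?_⟩
    show (z : G)⁻¹ = _
    rw [hz']; unfold cj; group
  refine ⟨a⁻¹ * cj a (u : G), u, ?_, ?_, ⟨u.2, rfl, ?_, ?_⟩⟩
  · intro h
    apply huc
    rw [mem_centralizer_singleton_iff]
    apply Subtype.ext
    have h3 : cj a (u : G) = a := by
      rw [inv_mul_eq_one] at h; exact h.symm
    have h4 : (u : G)⁻¹ * a * u = a := h3
    show (u : G) * a = a * u
    calc (u : G) * a = u * ((u : G)⁻¹ * a * u) := by rw [h4]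
      _ = a * u := by group
  · rw [mul_inv_cancel_left]
    refine ⟨?_, isConj_cj a _⟩
    obtain ⟨z, hz, hz'⟩ := hcomm2 a haF
    have h5 := hZ z hz 1 F.one_mem
    have h6 : cj a (1 : G) = a := by unfold cj; group
    rw [h6] at h5
    have h7 : cj a (u : G) = a * z := by rw [hz']; group
    rw [h7]
    exact (Commute.refl a).mul_left h5
  · intro f hf f' hf'
    obtain ⟨z, hz, hz'⟩ := hcomm f hf
    rw [← hz']
    exact hZ z hz f' hf'
  · intro f hf f' hf'
    obtain ⟨z, hz, hz'⟩ := hcomm2 (cj a f) (F.mul_mem (F.mul_mem (F.inv_mem hf) haF) hf)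
    rw [← hz']
    exact hZ z hz f' hf'

/-- the subgroup generated by the conjugates of `a` under `F` -/
def KF (a : G) (F : Subgroup G) : Subgroup G := closure {x | ∃ f ∈ F, x = cj a f}

theorem KF_cj (a : G) (F : Subgroup G) (u : G) (hu : u ∈ F) {x : G} (hx : x ∈ KF a F) :
    cj x u ∈ KF a F := by
  unfold KF at hx
  induction hx using closure_induction with
  | mem x h =>
    obtain ⟨f, hf, rfl⟩ := h
    rw [cj_cj]
    exact subset_closure ⟨f * u, F.mul_mem hf hu, rfl⟩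
  | one => rw [cj_one]; exact one_mem _
  | mul x y _ _ hx hy => rw [cj_mul]; exact mul_mem hx hy
  | inv x _ hx => rw [cj_inv]; exact inv_mem hx

theorem commute_KF {a : G} {F : Subgroup G} {z : G} (h : ∀ f ∈ F, Commute z (cj a f)) :
    ∀ x ∈ KF a F, Commute z x := by
  intro x hx
  unfold KF at hx
  induction hx using closure_induction with
  | mem x h' =>
    obtain ⟨f, hf, rfl⟩ := h'
    exact h f hf
  | one => exact Commute.one_right z
  | mul x y _ _ hx hy => exact hx.mul_right hy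
  | inv x _ hx => exact hx.inv_right

/-- for all sufficiently large finite `F`, `x ∈ ⟨a^F⟩` and `[x, u]` centralises `⟨a^F⟩` -/
def RR (a c x : G) : Prop := ∃ S : Set G, S.Finite ∧ ∀ F : Subgroup G, S ⊆ F → ∀ u, Good a F c u →
  x ∈ KF a F ∧ ∀ y ∈ KF a F, Commute (x⁻¹ * cj x u) y

theorem RR_of_mem (a c : G) (x : G) (hx : x ∈ normalClosure ({a} : Set G)) : RR a c x := by
  unfold normalClosure at hx
  induction hx using closure_induction with
  | mem x h =>
    rw [Group.mem_conjugatesOfSet_iff] at h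
    obtain ⟨z, hz, hzx⟩ := h
    rw [Set.mem_singleton_iff] at hz
    subst hz
    obtain ⟨g, rfl⟩ := exists_cj_of_isConj hzx
    refine ⟨{g}, Set.finite_singleton g, ?_⟩
    intro F hF u hu
    have hg : g ∈ F := hF (Set.mem_singleton g)
    exact ⟨subset_closure ⟨g, hg, rfl⟩, commute_KF fun f hf => hu.cen g hg f hf⟩
  | one =>
    refine ⟨∅, Set.finite_empty, ?_⟩
    intro F _ u _
    refine ⟨one_mem _, fun y _ => ?_⟩
    rw [cj_one, inv_one, one_mul]
    exact Commute.one_left y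
  | mul x y _ _ hx hy =>
    obtain ⟨S, hS, hS'⟩ := hx
    obtain ⟨T, hT, hT'⟩ := hy
    refine ⟨S ∪ T, hS.union hT, ?_⟩
    intro F hF u hu
    obtain ⟨x1, x2⟩ := hS' F (Set.subset_union_left.trans hF) u hu
    obtain ⟨y1, y2⟩ := hT' F (Set.subset_union_right.trans hF) u hu
    refine ⟨mul_mem x1 y1, fun k hk => ?_⟩
    have h1 : Commute (x⁻¹ * cj x u) y⁻¹ := x2 _ (inv_mem y1)
    have e : (x * y)⁻¹ * cj (x * y) u = (x⁻¹ * cj x u) * (y⁻¹ * cj y u) := by
      rw [cj_mul]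
      calc (x * y)⁻¹ * (cj x u * cj y u) = (y⁻¹ * (x⁻¹ * cj x u)) * cj y u := by group
        _ = ((x⁻¹ * cj x u) * y⁻¹) * cj y u := by rw [h1.eq]
        _ = _ := by group
    rw [e]
    exact (x2 k hk).mul_left (y2 k hk)
  | inv x _ hx =>
    obtain ⟨S, hS, hS'⟩ := hx
    refine ⟨S, hS, ?_⟩
    intro F hF u hu
    obtain ⟨x1, x2⟩ := hS' F hF u hu
    refine ⟨inv_mem x1, fun k hk => ?_⟩
    have h1 : Commute (x⁻¹ * cj x u) x := x2 _ x1
    have e : x⁻¹⁻¹ * cj x⁻¹ u = (x⁻¹ * cj x u)⁻¹ := by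
      rw [cj_inv]
      calc x⁻¹⁻¹ * (cj x u)⁻¹ = x * (x⁻¹ * cj x u)⁻¹ * x⁻¹ := by group
        _ = (x⁻¹ * cj x u)⁻¹ * x * x⁻¹ := by rw [h1.inv_left.eq]
        _ = _ := by group
    rw [e]
    exact (x2 k hk).inv_left

end Pool.Agent.Helper233.Cen
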