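import Pool.Agent.Helper233.Cen.E

/-!
# Locally finite groups, conclusion
-/

set_option autoImplicit false

namespace Pool.Agent.Helper233.Cen

open Subgroup
open scoped Pointwise commutatorElement

variable {G : Type*} [Group G] {p : ℕ}

theorem exists_c [hp : Fact p.Prime] (hG : IsPGroup p G) (a : G)
    (hlf : ∀ S : Set G, S.Finite → Finite (closure S)) (h2 : (CC a).Finite)
    (hnc : ∃ f, ¬ Commute f a) :
    ∃ c : G, c ≠ 1 ∧ ∀ S : Set G, S.Finite → ∃ F : Subgroup G, S ⊆ F ∧ ∃ u, Good a F c u := by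
  by_contra hcon
  push Not at hcon
  have hX : {c : G | c ≠ 1 ∧ a * c ∈ CC a}.Finite := by
    refine (h2.image (fun x => a⁻¹ * x)).subset ?_
    rintro c ⟨_, hc⟩
    exact ⟨a * c, hc, by group⟩
  have hch : ∀ c : G, ∃ S : Set G, c ≠ 1 → (S.Finite ∧ ∀ F : Subgroup G, S ⊆ F → ∀ u, ¬ Good a F c u) := by
    intro c
    by_cases hc : c = 1
    · exact ⟨∅, fun h => absurd hc h⟩
    · obtain ⟨S, hS, hS'⟩ := hcon c hc
      exact ⟨S, fun _ => ⟨hS, hS'⟩⟩
  choose S hS using hch
  obtain ⟨f, hf⟩ := hnc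
  set T : Set G := (⋃ c ∈ {c : G | c ≠ 1 ∧ a * c ∈ CC a}, S c) ∪ {a, f} with hT
  have hTf : T.Finite := (hX.biUnion fun c hc => (hS c hc.1).1).union (Set.toFinite _)
  obtain ⟨c, u, hc, hcC, hgood⟩ := exists_good hG a (closure T) (hlf T hTf)
    (subset_closure (Or.inr (by simp))) ⟨f, subset_closure (Or.inr (by simp)), hf⟩
  refine (hS c hc).2 (closure T) ?_ u hgood
  refine Set.Subset.trans ?_ subset_closure
  refine Set.Subset.trans ?_ Set.subset_union_left
  exact Set.subset_biUnion_of_mem (u := S) (show c ∈ {c : G | c ≠ 1 ∧ a * c ∈ CC a} from ⟨hc, hcC⟩)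

section

variable (a c : G) (hc : ∀ S : Set G, S.Finite → ∃ F : Subgroup G, S ⊆ F ∧ ∃ u, Good a F c u)
include hc

theorem c_central (g : G) : Commute c (cj a g) := by
  obtain ⟨F, hF, u, hu⟩ := hc {a, g} (Set.toFinite _)
  have hg : g ∈ F := hF (by simp)
  have h := hu.cen 1 F.one_mem g hg
  have e : cj a 1 = a := by unfold cj; group
  rw [e, hu.com] at h
  exact h

omit hc in
theorem QQ_of_mem (k : G) (hk : k ∈ ⁅normalClosure ({a} : Set G), normalClosure ({a} : Set G)⁆) :
    ∃ S : Set G, S.Finite ∧ ∀ F : Subgroup G, S ⊆ F → ∀ u, Good a F c u → cj k u = k := by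
  rw [Subgroup.commutator_def] at hk
  induction hk using closure_induction with
  | mem k h =>
    obtain ⟨x, hx, y, hy, rfl⟩ := h
    obtain ⟨S, hS, hS'⟩ := RR_of_mem a c x hx
    obtain ⟨T, hT, hT'⟩ := RR_of_mem a c y hy
    refine ⟨S ∪ T, hS.union hT, ?_⟩
    intro F hF u hu
    obtain ⟨x1, x2⟩ := hS' F (Set.subset_union_left.trans hF) u hu
    obtain ⟨y1, y2⟩ := hT' F (Set.subset_union_right.trans hF) u hu
    obtain ⟨z, hz⟩ : ∃ z, z = x⁻¹ * cj x u := ⟨_, rfl⟩
    obtain ⟨w, hw⟩ : ∃ w, w = y⁻¹ * cj y u := ⟨_, rfl⟩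
    rw [← hz] at x2
    rw [← hw] at y2
    have hzK : z ∈ KF a F := by
      rw [hz]; exact mul_mem (inv_mem x1) (KF_cj a F u hu.mem x1)
    have ex : cj x u = x * z := by rw [hz]; group
    have ey : cj y u = y * w := by rw [hw]; group
    have c1 : Commute z y := x2 y y1
    have c2 : Commute z x := x2 x x1
    have c3 : Commute w x := y2 x x1
    have c4 : Commute w y := y2 y y1
    have c5 : Commute w z := y2 z hzK
    have e1 : cj ⁅x, y⁆ u = (x * z) * (y * w) * (x * z)⁻¹ * (y * w)⁻¹ := by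
      rw [← ex, ← ey, commutatorElement_def]; unfold cj; group
    rw [e1, commutatorElement_def]
    calc (x * z) * (y * w) * (x * z)⁻¹ * (y * w)⁻¹
        = x * (z * y) * w * z⁻¹ * x⁻¹ * w⁻¹ * y⁻¹ := by group
      _ = x * (y * z) * w * z⁻¹ * x⁻¹ * w⁻¹ * y⁻¹ := by rw [c1.eq]
      _ = x * y * z * (w * z⁻¹) * x⁻¹ * w⁻¹ * y⁻¹ := by group
      _ = x * y * z * (z⁻¹ * w) * x⁻¹ * w⁻¹ * y⁻¹ := by rw [c5.inv_right.eq]
      _ = x * y * (w * x⁻¹) * w⁻¹ * y⁻¹ := by group
      _ = x * y * (x⁻¹ * w) * w⁻¹ * y⁻¹ := by rw [c3.inv_right.eq]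
      _ = x * y * x⁻¹ * y⁻¹ := by group
  | one => exact ⟨∅, Set.finite_empty, fun F _ u _ => cj_one u⟩
  | mul x y _ _ hx hy =>
    obtain ⟨S, hS, hS'⟩ := hx
    obtain ⟨T, hT, hT'⟩ := hy
    refine ⟨S ∪ T, hS.union hT, ?_⟩
    intro F hF u hu
    rw [cj_mul, hS' F (Set.subset_union_left.trans hF) u hu,
      hT' F (Set.subset_union_right.trans hF) u hu]
  | inv x _ hx =>
    obtain ⟨S, hS, hS'⟩ := hx
    refine ⟨S, hS, ?_⟩
    intro F hF u hu
    rw [cj_inv, hS' F hF u hu]

theorem c_fixed (g : G)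
    (hg : a⁻¹ * cj a g ∈ ⁅normalClosure ({a} : Set G), normalClosure ({a} : Set G)⁆) :
    cj c g = c := by
  obtain ⟨S, hS, hS'⟩ := QQ_of_mem a c _ hg
  obtain ⟨F, hF, u, hu⟩ := hc (S ∪ {a, g}) (hS.union (Set.toFinite _))
  have hgF : g ∈ F := hF (Or.inr (by simp))
  have hk := hS' F (Set.subset_union_left.trans hF) u hu
  obtain ⟨k, hkd⟩ : ∃ k, k = a⁻¹ * cj a g := ⟨_, rfl⟩
  rw [← hkd] at hk hg
  have hag : cj a g = a * k := by rw [hkd]; group
  obtain ⟨w, hw⟩ : ∃ w, w = u⁻¹ * cj u g := ⟨_, rfl⟩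
  have hw1 : Commute w (cj a g) := by rw [hw]; exact hu.eqv g hgF g hgF
  have hw2 : Commute w (cj a u) := by rw [hw]; exact hu.eqv g hgF u hu.mem
  have hw3 : Commute w a := by
    have := hu.eqv g hgF 1 F.one_mem
    have e : cj a 1 = a := by unfold cj; group
    rw [e, ← hw] at this
    exact this
  have hwc : Commute w c := by
    rw [← hu.com]
    exact hw3.inv_right.mul_right hw2
  have hcK : ∀ y ∈ KF a F, Commute c y := commute_KF fun f _ => c_central a c hc f
  have hck : Commute c k := by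
    rw [hkd]
    have e : cj a 1 = a := by unfold cj; group
    have h1 : Commute c a := by
      have := c_central a c hc 1
      rwa [e] at this
    exact h1.inv_right.mul_right (c_central a c hc g)
  have e1 : cj c g = (cj a g)⁻¹ * cj (cj (cj a g) u) w := by
    rw [← hu.com, hw]; unfold cj; group
  have e2 : cj (cj a g) u = a * k * c := by
    rw [hag, cj_mul, hk]
    have : cj a u = a * c := by rw [← hu.com]; group
    rw [this, mul_assoc, hck.eq, ← mul_assoc]
  have e3 : cj (a * k * c) w = a * k * c := by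
    have h1 : Commute w (a * k * c) := (hag ▸ hw1).mul_right hwc
    unfold cj
    rw [mul_assoc, ← h1.eq]
    group
  rw [e1, e2, e3, hag]
  group

end

/-- the locally finite case: `K/K'` finite -/
theorem case_lf [hp : Fact p.Prime] (hG : IsPGroup p G) (a : G) (ha : a ≠ 1)
    (hlf : ∀ S : Set G, S.Finite → Finite (closure S)) (h2 : (CC a).Finite)
    (hK : (⁅normalClosure ({a} : Set G), normalClosure ({a} : Set G)⁆.subgroupOf
      (normalClosure ({a} : Set G))).FiniteIndex) :
    center G ≠ ⊥ := by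
  by_cases hnc : ∃ f, ¬ Commute f a
  · obtain ⟨c, hc1, hc⟩ := exists_c hG a hlf h2 hnc
    apply center_ne_bot hG c hc1
    set K := normalClosure ({a} : Set G) with hKd
    set K' := ⁅K, K⁆ with hK'
    have hK'n : K'.Normal := inferInstance
    have haK : a ∈ K := subset_normalClosure (Set.mem_singleton a)
    have hmem : ∀ g : G, cj a g⁻¹ ∈ K := fun g => cj_mem K g⁻¹ haK
    let C := centralizer ({c} : Set G)
    let f : G ⧸ C → K ⧸ (K'.subgroupOf K) := fun q =>
      ((⟨cj a (Quotient.out q)⁻¹, hmem _⟩ : K) : K ⧸ (K'.subgroupOf K))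
    have hf : Function.Injective f := by
      intro q r hqr
      have h3 := QuotientGroup.eq.1 hqr
      rw [mem_subgroupOf] at h3
      have h4 : (cj a (Quotient.out q)⁻¹)⁻¹ * cj a (Quotient.out r)⁻¹ ∈ K' := h3
      have h5 := cj_mem K' (Quotient.out q) h4
      have e : cj ((cj a (Quotient.out q)⁻¹)⁻¹ * cj a (Quotient.out r)⁻¹) (Quotient.out q) =
          a⁻¹ * cj a ((Quotient.out r)⁻¹ * Quotient.out q) := by
        unfold cj; group
      rw [e] at h5
      have h6 := c_fixed a c hc _ h5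
      have h7 : (Quotient.out r)⁻¹ * Quotient.out q ∈ C := by
        rw [mem_centralizer_singleton_iff]
        unfold cj at h6
        set w := (Quotient.out r)⁻¹ * Quotient.out q with hw
        calc w * c = w * (w⁻¹ * c * w) := by rw [h6]
          _ = c * w := by group
      have h8 : ((Quotient.out r : G) : G ⧸ C) = ((Quotient.out q : G) : G ⧸ C) :=
        QuotientGroup.eq.2 h7
      rw [QuotientGroup.out_eq', QuotientGroup.out_eq'] at h8
      exact h8.symm
    have : Finite (K ⧸ (K'.subgroupOf K)) := inferInstance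
    have hfin : Finite (G ⧸ C) := Finite.of_injective f hf
    exact finiteIndex_of_finite_quotient
  · push Not at hnc
    intro hZ
    have : a ∈ center G := by
      rw [mem_center_iff]
      intro g
      exact hnc g
    rw [hZ, mem_bot] at this
    exact ha this

end Pool.Agent.Helper233.Cen
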