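import Pool.Agent.Helper233.Cen.N

/-!
# Relative upper central series
-/

set_option autoImplicit false

namespace Pool.Agent.Helper233.Cen

open Subgroup
open scoped Pointwise commutatorElement

variable {G : Type*} [Group G]

/-- `[w, H, …, H] = 1` (`i` times) -/
def CsP (H : Subgroup G) : ℕ → G → Prop
  | 0, w => w = 1
  | i + 1, w => ∀ k ∈ H, CsP H i ⁅w, k⁆

theorem CsP_anti {H K : Subgroup G} (h : H ≤ K) (i : ℕ) : ∀ w : G, CsP K i w → CsP H i w := by
  induction i with
  | zero => intro w hw; exact hw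
  | succ i ih => intro w hw k hk; exact ih _ (hw k (h hk))

theorem CsP_conj {H : Subgroup G} {g : G} (hg : ∀ k ∈ H, g * k * g⁻¹ ∈ H) (i : ℕ) :
    ∀ w : G, CsP H i w → CsP H i (g⁻¹ * w * g) := by
  induction i with
  | zero => intro w hw; rw [CsP] at hw; rw [hw]; show g⁻¹ * 1 * g = 1; group
  | succ i ih =>
    intro w hw k hk
    have h1 := ih _ (hw _ (hg k hk))
    have e : ⁅g⁻¹ * w * g, k⁆ = g⁻¹ * ⁅w, g * k * g⁻¹⁆ * g := by
      rw [commutatorElement_def, commutatorElement_def]; group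
    rw [e]; exact h1

theorem CsP_one (H : Subgroup G) (i : ℕ) : CsP H i 1 := by
  induction i with
  | zero => rfl
  | succ i ih => intro k _; rw [commutatorElement_one_left]; exact ih

section normal

variable (H : Subgroup G) [hH : H.Normal]

theorem CsP_conj' (i : ℕ) (w g : G) (hw : CsP H i w) : CsP H i (g⁻¹ * w * g) :=
  CsP_conj (fun k hk => hH.conj_mem k hk g) i w hw

theorem CsP_mul (i : ℕ) : ∀ w w' : G, CsP H i w → CsP H i w' → CsP H i (w * w') := by
  induction i with
  | zero => intro w w' h h'; rw [CsP] at h h'; rw [h, h']; show (1 : G) * 1 = 1; group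
  | succ i ih =>
    intro w w' h h' k hk
    have e : ⁅w * w', k⁆ = (w⁻¹⁻¹ * ⁅w', k⁆ * w⁻¹) * ⁅w, k⁆ := by
      simp only [commutatorElement_def]; group
    rw [e]
    exact ih _ _ (CsP_conj' H i _ w⁻¹ (h' k hk)) (h k hk)

theorem CsP_inv (i : ℕ) : ∀ w : G, CsP H i w → CsP H i w⁻¹ := by
  induction i with
  | zero => intro w h; rw [CsP] at h; rw [h]; show (1 : G)⁻¹ = 1; group
  | succ i ih =>
    intro w h k hk
    have e : ⁅w⁻¹, k⁆ = w⁻¹ * ⁅w, k⁆⁻¹ * w := by
      simp only [commutatorElement_def]; group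
    rw [e]
    exact CsP_conj' H i _ w (ih _ (h k hk))

/-- as a subgroup -/
def Cs (i : ℕ) : Subgroup G where
  carrier := {w | CsP H i w}
  mul_mem' := fun {a b} ha hb => CsP_mul H i a b ha hb
  one_mem' := CsP_one H i
  inv_mem' := fun {a} ha => CsP_inv H i a ha

theorem mem_Cs (i : ℕ) (w : G) : w ∈ Cs H i ↔ CsP H i w := Iff.rfl

instance Cs_normal (i : ℕ) : (Cs H i).Normal := by
  refine ⟨fun w hw g => ?_⟩
  have := CsP_conj' H i w g⁻¹ hw
  rw [inv_inv] at this
  exact this

theorem Cs_mono_succ (i : ℕ) : Cs H i ≤ Cs H (i + 1) := by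
  intro w hw k _
  have e : ⁅w, k⁆ = w * (k * w⁻¹ * k⁻¹) := by
    simp only [commutatorElement_def]; group
  rw [e]
  exact mul_mem hw ((Cs_normal H i).conj_mem _ (inv_mem hw) k)

theorem Cs_mono {i j : ℕ} (h : i ≤ j) : Cs H i ≤ Cs H j := by
  induction j, h using Nat.le_induction with
  | base => exact le_rfl
  | succ j _ ih => exact ih.trans (Cs_mono_succ H j)

theorem comm_Cs_H (i : ℕ) : ⁅Cs H (i + 1), H⁆ ≤ Cs H i := by
  rw [commutator_le]
  intro w hw k hk
  exact hw k hk

/-- `[C_{i+j+1}(H), γ_{j+1}(H)] ≤ C_i(H)` -/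
theorem alpha (j : ℕ) : ∀ i, ⁅Cs H (i + j + 1), H.lowerCentralSeries j⁆ ≤ Cs H i := by
  induction j with
  | zero => intro i; exact comm_Cs_H H i
  | succ j ih =>
    intro i
    rw [commutator_comm, Subgroup.lowerCentralSeries_succ]
    apply three_sub
    · -- ⁅⁅H, C⁆, L_j⁆
      have h1 : ⁅H, Cs H (i + (j + 1) + 1)⁆ ≤ Cs H (i + j + 1) := by
        rw [commutator_comm]
        exact comm_Cs_H H _
      exact (commutator_mono h1 le_rfl).trans (ih i)
    · have h2 : ⁅Cs H (i + (j + 1) + 1), H.lowerCentralSeries j⁆ ≤ Cs H (i + 1) := by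
        have := ih (i + 1)
        have e : i + 1 + j + 1 = i + (j + 1) + 1 := by ring
        rwa [e] at this
      exact (commutator_mono h2 le_rfl).trans (comm_Cs_H H i)

theorem alpha_comm (j : ℕ) {w v : G} (hw : CsP H (j + 1) w) (hv : v ∈ H.lowerCentralSeries j) :
    Commute w v := by
  have h := alpha H j 0 (commutator_mem_commutator (g₁ := w) (g₂ := v)
    (by rw [zero_add]; exact hw) hv)
  have h' : ⁅w, v⁆ = 1 := h
  exact commutatorElement_eq_one_iff_commute.1 h'

end normal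

end Pool.Agent.Helper233.Cen
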