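import Pool.Agent.Helper233.Cen.L1

/-!
# New elements of the relative upper central series, finite level
-/

set_option autoImplicit false

namespace Pool.Agent.Helper233.Cen

open Subgroup
open scoped Pointwise commutatorElement

section Gamma

variable {Γ : Type*} [Group Γ]

theorem comm_normalClosure (N : Subgroup Γ) [hN : N.Normal] (a x : Γ)
    (h : ∀ g : Γ, a⁻¹ * cj a (g * x * g⁻¹) ∈ N) :
    ∀ k ∈ normalClosure ({a} : Set Γ), ⁅x, k⁆ ∈ N := by
  have hle : normalClosure ({a} : Set Γ) ≤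
      (centralizer ({(QuotientGroup.mk' N) x} : Set (Γ ⧸ N))).comap (QuotientGroup.mk' N) := by
    unfold normalClosure
    rw [closure_le]
    intro y hy
    rw [Group.mem_conjugatesOfSet_iff] at hy
    obtain ⟨z, hz, hzy⟩ := hy
    rw [Set.mem_singleton_iff] at hz
    subst hz
    obtain ⟨g, rfl⟩ := exists_cj_of_isConj hzy
    show (QuotientGroup.mk' N) (cj z g) ∈ centralizer _
    rw [mem_centralizer_singleton_iff, ← map_mul, ← map_mul, QuotientGroup.mk'_apply,
      QuotientGroup.mk'_apply, QuotientGroup.eq]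
    have h1 := cj_mem N g (h g)
    have e : (cj z g * x)⁻¹ * (x * cj z g) = (cj (z⁻¹ * cj z (g * x * g⁻¹)) g)⁻¹ := by
      unfold cj; group
    rw [e]
    exact N.inv_mem h1
  intro k hk
  have := hle hk
  rw [mem_comap, mem_centralizer_singleton_iff, ← map_mul, ← map_mul, QuotientGroup.mk'_apply,
      QuotientGroup.mk'_apply, QuotientGroup.eq] at this
  have e : ⁅x, k⁆ = k * x * ((k * x)⁻¹ * (x * k))  * (k * x)⁻¹ := by
    rw [commutatorElement_def]; group
  rw [e]
  exact hN.conj_mem _ this (k * x)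

instance lcs_normal (H : Subgroup Γ) [H.Normal] (n : ℕ) : (H.lowerCentralSeries n).Normal := by
  induction n with
  | zero => exact (inferInstance : H.Normal)
  | succ n ih => exact (inferInstance : (⁅H.lowerCentralSeries n, H⁆).Normal)

theorem exists_V [hΓ : Group.IsNilpotent Γ] (a : Γ) (r : ℕ)
    (hr : ¬ ∀ k ∈ normalClosure ({a} : Set Γ), CsP (normalClosure ({a} : Set Γ)) (2 * r + 2) k) :
    ∃ w u : Γ, w = a⁻¹ * cj a u ∧ w ∈ (normalClosure ({a} : Set Γ)).lowerCentralSeries (r + 1) ∧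
      CsP (normalClosure ({a} : Set Γ)) (r + 2) w ∧
      ¬ CsP (normalClosure ({a} : Set Γ)) (r + 1) w := by
  set H := normalClosure ({a} : Set Γ) with hH
  have haH : a ∈ H := subset_normalClosure (Set.mem_singleton a)
  have hnorm : ∀ n, (H.lowerCentralSeries n).Normal := fun n => lcs_normal H n
  have hu : ∃ u ∈ H.lowerCentralSeries r, ¬ CsP H (r + 1) (a⁻¹ * cj a u) := by
    by_contra hcon
    push Not at hcon
    apply hr
    have hle : H.lowerCentralSeries (r + 1) ≤ Cs H (r + 1) := by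
      rw [Subgroup.lowerCentralSeries_succ, commutator_le]
      intro u hu k hk
      exact comm_normalClosure (Cs H (r + 1)) a u (fun g => hcon _ ((hnorm r).conj_mem u hu g)) k hk
    have hall : ∀ j, j ≤ r + 1 → ∀ x ∈ H.lowerCentralSeries (r + 1 - j), CsP H (j + (r + 1)) x := by
      intro j
      induction j with
      | zero => intro _ x hx; rw [zero_add]; exact hle hx
      | succ j ih =>
        intro hj x hx
        have e : j + 1 + (r + 1) = (j + (r + 1)) + 1 := by ring
        rw [e]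
        intro k hk
        apply ih (by omega)
        have e2 : r + 1 - j = (r + 1 - (j + 1)) + 1 := by omega
        rw [e2, Subgroup.lowerCentralSeries_succ]
        exact commutator_mem_commutator hx hk
    intro k hk
    have := hall (r + 1) le_rfl k (by rw [Nat.sub_self]; exact hk)
    have e : r + 1 + (r + 1) = 2 * r + 2 := by ring
    rwa [e] at this
  obtain ⟨u0, hu0, hu0'⟩ := hu
  obtain ⟨n, hn⟩ := hΓ.nilpotent'
  have hex : ∃ n, ∃ u ∈ H.lowerCentralSeries r, u ∈ Subgroup.upperCentralSeries Γ n ∧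
      ¬ CsP H (r + 1) (a⁻¹ * cj a u) := ⟨n, u0, hu0, by rw [hn]; exact mem_top _, hu0'⟩
  classical
  obtain ⟨u, hur, huZ, huC⟩ := Nat.find_spec hex
  have hne : Nat.find hex ≠ 0 := by
    intro h
    rw [h, Subgroup.upperCentralSeries_zero, mem_bot] at huZ
    apply huC
    rw [huZ]
    have : a⁻¹ * cj a 1 = 1 := by unfold cj; group
    rw [this]
    exact CsP_one H _
  obtain ⟨m, hm⟩ := Nat.exists_eq_succ_of_ne_zero hne
  have hmin : ∀ u' ∈ H.lowerCentralSeries r, u' ∈ Subgroup.upperCentralSeries Γ m →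
      CsP H (r + 1) (a⁻¹ * cj a u') := by
    intro u' h1 h2
    have := Nat.find_min hex (m := m) (by omega)
    push Not at this
    exact this u' h1 h2
  rw [hm, Nat.succ_eq_add_one] at huZ
  have e1 : a⁻¹ * cj a u = ⁅u⁻¹, a⁻¹⁆⁻¹ := by
    rw [commutatorElement_def]; unfold cj; group
  have hwZ : a⁻¹ * cj a u ∈ Subgroup.upperCentralSeries Γ m := by
    rw [e1]
    exact inv_mem (Subgroup.mem_upperCentralSeries_succ_iff.1 (inv_mem huZ) a⁻¹)
  have hwL : a⁻¹ * cj a u ∈ H.lowerCentralSeries (r + 1) := by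
    rw [e1, Subgroup.lowerCentralSeries_succ]
    exact inv_mem (commutator_mem_commutator (inv_mem hur) (inv_mem haH))
  refine ⟨a⁻¹ * cj a u, u, rfl, hwL, ?_, huC⟩
  intro k hk
  refine comm_normalClosure (Cs H (r + 1)) a _ (fun g => ?_) k hk
  apply hmin
  · exact (hnorm r).conj_mem _ (Subgroup.lowerCentralSeries_antitone H (Nat.le_succ r) hwL) g
  · exact (inferInstance : (Subgroup.upperCentralSeries Γ m).Normal).conj_mem _ hwZ g

end Gamma

variable {G : Type*} [Group G]

theorem KF_eq (a : G) (F : Subgroup G) (haF : a ∈ F) :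
    (normalClosure ({(⟨a, haF⟩ : F)} : Set F)).map F.subtype = KF a F := by
  unfold normalClosure KF
  rw [MonoidHom.map_closure]
  congr 1
  ext x
  constructor
  · rintro ⟨y, hy, rfl⟩
    rw [Group.mem_conjugatesOfSet_iff] at hy
    obtain ⟨z, hz, hzy⟩ := hy
    rw [Set.mem_singleton_iff] at hz
    subst hz
    obtain ⟨g, rfl⟩ := exists_cj_of_isConj hzy
    exact ⟨g, g.2, rfl⟩
  · rintro ⟨f, hf, rfl⟩
    refine ⟨cj (⟨a, haF⟩ : F) ⟨f, hf⟩, ?_, rfl⟩
    rw [Group.mem_conjugatesOfSet_iff]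
    exact ⟨_, rfl, isConj_cj _ _⟩

theorem CsP_map (F : Subgroup G) (H : Subgroup F) (i : ℕ) :
    ∀ w : F, CsP H i w ↔ CsP (H.map F.subtype) i (w : G) := by
  induction i with
  | zero =>
    intro w
    show w = 1 ↔ (w : G) = 1
    rw [OneMemClass.coe_eq_one]
  | succ i ih =>
    intro w
    constructor
    · rintro h _ ⟨k, hk, rfl⟩
      exact (ih _).1 (h k hk)
    · intro h k hk
      exact (ih _).2 (h _ ⟨k, hk, rfl⟩)

/-- the property of the element `w` relative to the finite subgroup `F` -/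
structure Vp (a : G) (r : ℕ) (F : Subgroup G) (w : G) : Prop where
  low : w ∈ (KF a F).lowerCentralSeries (r + 1)
  up : CsP (KF a F) (r + 2) w
  new : ¬ CsP (KF a F) (r + 1) w
  conj : IsConj a (a * w)

theorem exists_Vp {p : ℕ} [hp : Fact p.Prime] (hG : IsPGroup p G) (a : G) (F : Subgroup G)
    (hF : Finite F) (haF : a ∈ F) (r : ℕ) (hr : ¬ ∀ k ∈ KF a F, CsP (KF a F) (2 * r + 2) k) :
    ∃ w, Vp a r F w := by
  have hnil : Group.IsNilpotent F := (hG.to_subgroup F).isNilpotent
  have hK := KF_eq a F haF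
  obtain ⟨w, u, hw, hw1, hw2, hw3⟩ := exists_V (⟨a, haF⟩ : F) r (by
    intro h
    apply hr
    intro k hk
    rw [← hK] at hk ⊢
    obtain ⟨k', hk', rfl⟩ := hk
    exact (CsP_map F _ _ k').1 (h k' hk'))
  refine ⟨w, ?_, ?_, ?_, ?_⟩
  · rw [← hK, ← Subgroup.map_lowerCentralSeries]
    exact ⟨w, hw1, rfl⟩
  · rw [← hK]; exact (CsP_map F _ _ w).1 hw2
  · rw [← hK]; intro h; exact hw3 ((CsP_map F _ _ w).2 h)
  · have : a * (w : G) = cj a (u : G) := by
      rw [hw]
      show a * (a⁻¹ * cj a (u : G)) = _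
      group
    rw [this]
    exact isConj_cj a _

theorem alpha_F (a : G) (F : Subgroup G) (haF : a ∈ F) (m : ℕ) {w v : G} (hwF : w ∈ F)
    (hw : CsP (KF a F) (m + 1) w) (hv : v ∈ (KF a F).lowerCentralSeries m) : Commute w v := by
  have hK := KF_eq a F haF
  rw [← hK] at hw hv
  rw [← Subgroup.map_lowerCentralSeries] at hv
  obtain ⟨v', hv', rfl⟩ := hv
  have h1 := alpha_comm _ m ((CsP_map F _ _ (⟨w, hwF⟩ : F)).2 hw) hv'
  exact congrArg Subtype.val h1.eq

end Pool.Agent.Helper233.Cen
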