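import Pool.Agent.Helper233.Cen.L2

/-!
# From finite subgroups to the whole group
-/

set_option autoImplicit false

namespace Pool.Agent.Helper233.Cen

open Subgroup
open scoped Pointwise commutatorElement

variable {G : Type*} [Group G]

theorem KF_mono (a : G) {F F' : Subgroup G} (h : F ≤ F') : KF a F ≤ KF a F' := by
  unfold KF
  apply Subgroup.closure_mono
  rintro x ⟨f, hf, rfl⟩
  exact ⟨f, h hf, rfl⟩

theorem lcs_mono {H K : Subgroup G} (h : H ≤ K) (n : ℕ) :
    H.lowerCentralSeries n ≤ K.lowerCentralSeries n := by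
  induction n with
  | zero => exact h
  | succ n ih => exact commutator_mono ih h

theorem KF_le (a : G) (F : Subgroup G) : KF a F ≤ normalClosure ({a} : Set G) := by
  unfold KF
  rw [closure_le]
  rintro x ⟨f, _, rfl⟩
  exact cj_mem _ f (subset_normalClosure (Set.mem_singleton a))

theorem KF_le_F (a : G) (F : Subgroup G) (haF : a ∈ F) : KF a F ≤ F := by
  unfold KF
  rw [closure_le]
  rintro x ⟨f, hf, rfl⟩
  exact F.mul_mem (F.mul_mem (F.inv_mem hf) haF) hf

theorem mem_KF_of_mem (a x : G) (hx : x ∈ normalClosure ({a} : Set G)) :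
    ∃ S : Set G, S.Finite ∧ ∀ F : Subgroup G, S ⊆ F → x ∈ KF a F := by
  unfold normalClosure at hx
  induction hx using closure_induction with
  | mem x h =>
    rw [Group.mem_conjugatesOfSet_iff] at h
    obtain ⟨z, hz, hzx⟩ := h
    rw [Set.mem_singleton_iff] at hz
    subst hz
    obtain ⟨g, rfl⟩ := exists_cj_of_isConj hzx
    exact ⟨{g}, Set.finite_singleton g, fun F hF =>
      subset_closure ⟨g, hF (Set.mem_singleton g), rfl⟩⟩
  | one => exact ⟨∅, Set.finite_empty, fun F _ => one_mem _⟩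
  | mul x y _ _ hx hy =>
    obtain ⟨S, hS, hS'⟩ := hx
    obtain ⟨T, hT, hT'⟩ := hy
    exact ⟨S ∪ T, hS.union hT, fun F hF => mul_mem (hS' F (Set.subset_union_left.trans hF))
      (hT' F (Set.subset_union_right.trans hF))⟩
  | inv x _ hx =>
    obtain ⟨S, hS, hS'⟩ := hx
    exact ⟨S, hS, fun F hF => inv_mem (hS' F hF)⟩

/-- local to global for `CsP` -/
theorem CsP_local (a : G) (i : ℕ) : ∀ w : G,
    (∀ S : Set G, S.Finite → ∃ F : Subgroup G, S ⊆ F ∧ CsP (KF a F) i w) →
    CsP (normalClosure ({a} : Set G)) i w := by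
  induction i with
  | zero =>
    intro w h
    obtain ⟨F, _, hF⟩ := h ∅ Set.finite_empty
    exact hF
  | succ i ih =>
    intro w h k hk
    apply ih
    intro S hS
    obtain ⟨T, hT, hT'⟩ := mem_KF_of_mem a k hk
    obtain ⟨F, hF, hw⟩ := h (S ∪ T) (hS.union hT)
    exact ⟨F, Set.subset_union_left.trans hF, hw k (hT' F (Set.subset_union_right.trans hF))⟩

theorem nilpotent_of_CsP (K : Subgroup G) (n : ℕ) (h : ∀ k ∈ K, CsP K n k) :
    Group.IsNilpotent K := by
  have key : ∀ i, ∀ k : K, CsP K i (k : G) → k ∈ Subgroup.upperCentralSeries K i := by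
    intro i
    induction i with
    | zero =>
      intro k hk
      rw [Subgroup.upperCentralSeries_zero, mem_bot]
      exact Subtype.ext hk
    | succ i ih =>
      intro k hk
      rw [Subgroup.mem_upperCentralSeries_succ_iff]
      intro y
      exact ih _ (hk y y.2)
  refine ⟨n, ?_⟩
  rw [eq_top_iff]
  intro k _
  exact key n k (h k k.2)

/-- if `K` is not nilpotent then `Vp` elements exist for all large finite subgroups -/
theorem exists_Vp' {p : ℕ} [hp : Fact p.Prime] (hG : IsPGroup p G) (a : G)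
    (hlf : ∀ S : Set G, S.Finite → Finite (closure S))
    (hK : ¬ Group.IsNilpotent (normalClosure ({a} : Set G))) (r : ℕ) :
    ∀ S : Set G, S.Finite → ∃ F : Subgroup G, Finite F ∧ S ⊆ F ∧ a ∈ F ∧ ∃ w, Vp a r F w := by
  by_contra hcon
  push Not at hcon
  obtain ⟨S, hS, hS'⟩ := hcon
  apply hK
  apply nilpotent_of_CsP _ (2 * r + 2)
  intro k hk
  apply CsP_local
  intro T hT
  obtain ⟨W, hW, hW'⟩ := mem_KF_of_mem a k hk
  have hfin : (S ∪ T ∪ W ∪ {a}).Finite := ((hS.union hT).union hW).union (Set.finite_singleton a)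
  set F := closure (S ∪ T ∪ W ∪ {a}) with hF
  have hsub : S ∪ T ∪ W ∪ {a} ⊆ (F : Set G) := subset_closure
  have haF : a ∈ F := hsub (Or.inr rfl)
  have hFf : Finite F := hlf _ hfin
  refine ⟨F, fun x hx => hsub (Or.inl (Or.inl (Or.inr hx))), ?_⟩
  by_contra hnot
  have hkF : k ∈ KF a F := hW' F fun x hx => hsub (Or.inl (Or.inr hx))
  obtain ⟨w, hw⟩ := exists_Vp hG a F hFf haF r (fun h => hnot (h k hkF))
  exact hS' F hFf (fun x hx => hsub (Or.inl (Or.inl (Or.inl hx)))) haF w hw

/-- the property used in the finiteness argument -/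
def Tp (a : G) (F : Subgroup G) : ℕ → G → Prop
  | 0, w => w = 1
  | m + 1, w => w ∈ (KF a F).lowerCentralSeries m ∧ CsP (KF a F) (m + 1) w ∧ IsConj a (a * w)

theorem lcs_le (H : Subgroup G) (n : ℕ) : H.lowerCentralSeries n ≤ H := by
  have := Subgroup.lowerCentralSeries_antitone H (Nat.zero_le n)
  exact this

theorem Tp_step (a : G) (F : Subgroup G) (haF : a ∈ F) (m : ℕ) (w : G) (h : Tp a F (m + 1) w) :
    Tp a F m (a⁻¹ * cj a w) := by
  obtain ⟨h1, h2, _⟩ := h
  have haK : a ∈ KF a F := subset_closure ⟨1, F.one_mem, by unfold cj; group⟩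
  have hwK : w ∈ KF a F := lcs_le _ m h1
  have e1 : a⁻¹ * cj a w = ⁅w⁻¹, a⁻¹⁆⁻¹ := by
    rw [commutatorElement_def]; unfold cj; group
  have e2 : a⁻¹ * cj a w = w⁻¹ * ⁅w, a⁻¹⁆ * w := by
    rw [commutatorElement_def]; unfold cj; group
  have h3 : CsP (KF a F) m (a⁻¹ * cj a w) := by
    rw [e2]
    exact CsP_conj (fun k hk => mul_mem (mul_mem hwK hk) (inv_mem hwK)) m _ (h2 _ (inv_mem haK))
  cases m with
  | zero => exact h3
  | succ m =>
    refine ⟨?_, h3, ?_⟩
    · rw [e1]
      apply inv_mem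
      apply Subgroup.lowerCentralSeries_antitone (KF a F) (show m ≤ m + 1 + 1 by omega)
      rw [Subgroup.lowerCentralSeries_succ]
      exact commutator_mem_commutator (inv_mem h1) (inv_mem haK)
    · have : a * (a⁻¹ * cj a w) = cj a w := by group
      rw [this]
      exact isConj_cj a w

theorem range_finite (a : G) (h2 : (CC a).Finite) (F : ℕ → Subgroup G) (hF : Monotone F)
    (haF : ∀ n, a ∈ F n) (i : ℕ) : ∀ w : ℕ → G, (∀ n, Tp a (F n) i (w n)) →
      (Set.range w).Finite := by
  induction i with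
  | zero =>
    intro w hw
    refine (Set.finite_singleton (1 : G)).subset ?_
    rintro _ ⟨n, rfl⟩
    exact hw n
  | succ m ih =>
    intro w hw
    have hv := ih (fun n => a⁻¹ * cj a (w n)) (fun n => Tp_step a (F n) (haF n) m _ (hw n))
    have hcomm : ∀ n k, Commute (w n) (w k) := by
      have hlt : ∀ n k, n < k → Commute (w k) (w n) := by
        intro n k hnk
        have h1 : w n ∈ (KF a (F k)).lowerCentralSeries m :=
          lcs_mono (KF_mono a (hF hnk.le)) m (hw n).1
        have hwF : w k ∈ F k := KF_le_F a _ (haF k) (lcs_le _ m (hw k).1)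
        exact alpha_F a (F k) (haF k) m hwF (hw k).2.1 h1
      intro n k
      rcases lt_trichotomy n k with h | h | h
      · exact (hlt n k h).symm
      · rw [h]
      · exact hlt k n h
    have hsub : Set.range w ⊆ ⋃ v ∈ Set.range (fun n => a⁻¹ * cj a (w n)),
        {x | ∃ n, x = w n ∧ a⁻¹ * cj a (w n) = v} := by
      rintro _ ⟨n, rfl⟩
      rw [Set.mem_iUnion₂]
      exact ⟨_, ⟨n, rfl⟩, n, rfl, rfl⟩
    refine (hv.biUnion ?_).subset hsub
    rintro _ ⟨n0, rfl⟩
    obtain ⟨g0, hg0⟩ := exists_cj_of_isConj (hw n0).2.2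
    refine (h2.image (fun c => a⁻¹ * cj c g0)).subset ?_
    rintro _ ⟨n, rfl, hn⟩
    have hn' : cj a (w n) = cj a (w n0) := mul_left_cancel hn
    refine ⟨cj (a * w n) g0⁻¹, ⟨?_, ?_⟩, ?_⟩
    · have h3 : a * w n * (a * w n0) = a * w n0 * (a * w n) := by
        obtain ⟨x, hx⟩ : ∃ x, x = w n := ⟨_, rfl⟩
        obtain ⟨y, hy⟩ : ∃ y, y = w n0 := ⟨_, rfl⟩
        have hxy : x * y = y * x := by rw [hx, hy]; exact (hcomm n n0).eq
        rw [← hx, ← hy] at hn' ⊢
        -- cj a x = cj a y
        obtain ⟨v, hv⟩ : ∃ v, v = a⁻¹ * cj a x := ⟨_, rfl⟩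
        have e1 : x = cj x a * v := by rw [hv]; unfold cj; group
        have e2 : y = cj y a * v := by rw [hv, hn']; unfold cj; group
        have e3 : cj x a * cj y a = cj y a * cj x a := by
          rw [← cj_mul, ← cj_mul, hxy]
        have e4 : a * x * (a * y) = a * a * (cj x a * y) := by unfold cj; group
        have e5 : a * y * (a * x) = a * a * (cj y a * x) := by unfold cj; group
        rw [e4, e5]
        congr 1
        calc cj x a * y = cj x a * (cj y a * v) := by rw [← e2]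
          _ = cj y a * (cj x a * v) := by rw [← mul_assoc, e3, mul_assoc]
          _ = cj y a * x := by rw [← e1]
      show cj (a * w n) g0⁻¹ * a = a * cj (a * w n) g0⁻¹
      have h4 : a = cj (a * w n0) g0⁻¹ := by rw [hg0]; unfold cj; group
      calc cj (a * w n) g0⁻¹ * a = cj (a * w n) g0⁻¹ * cj (a * w n0) g0⁻¹ := by rw [← h4]
        _ = cj (a * w n * (a * w n0)) g0⁻¹ := (cj_mul _ _ _).symm
        _ = cj (a * w n0 * (a * w n)) g0⁻¹ := by rw [h3]
        _ = cj (a * w n0) g0⁻¹ * cj (a * w n) g0⁻¹ := cj_mul _ _ _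
        _ = a * cj (a * w n) g0⁻¹ := by rw [← h4]
    · exact (hw n).2.2.trans (isConj_cj _ _)
    · show a⁻¹ * cj (cj (a * w n) g0⁻¹) g0 = w n
      unfold cj; group

theorem Vp.tp {a : G} {r : ℕ} {F : Subgroup G} {w : G} (h : Vp a r F w) : Tp a F (r + 2) w :=
  ⟨h.low, h.up, h.conj⟩

/-- there is one element `w` which works for a cofinal family of finite subgroups -/
theorem exists_w {p : ℕ} [hp : Fact p.Prime] (hG : IsPGroup p G) (a : G)
    (hlf : ∀ S : Set G, S.Finite → Finite (closure S)) (h2 : (CC a).Finite)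
    (hK : ¬ Group.IsNilpotent (normalClosure ({a} : Set G))) (r : ℕ) :
    ∃ w, ∀ S : Set G, S.Finite → ∃ F : Subgroup G, Finite F ∧ S ⊆ F ∧ a ∈ F ∧ Vp a r F w := by
  by_contra hcon
  push Not at hcon
  choose S hS hS' using hcon
  have hex := exists_Vp' hG a hlf hK r
  let St := {q : Subgroup G × G // Finite q.1 ∧ a ∈ q.1 ∧ Vp a r q.1 q.2}
  have hnext : ∀ q : St, ∃ q' : St, q.1.1 ≤ q'.1.1 ∧ S q.1.2 ⊆ q'.1.1 := by
    rintro ⟨⟨F, w⟩, hF, haF, hV⟩
    have hFf : (F : Set G).Finite := Set.toFinite _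
    obtain ⟨F', hF', hsub, haF', w', hw'⟩ := hex ((F : Set G) ∪ S w) (hFf.union (hS w))
    exact ⟨⟨(F', w'), hF', haF', hw'⟩, fun x hx => hsub (Or.inl hx), fun x hx => hsub (Or.inr hx)⟩
  choose next hn1 hn2 using hnext
  obtain ⟨F0, hF0, _, haF0, w0, hw0⟩ := hex ∅ Set.finite_empty
  let q : ℕ → St := fun n => next^[n] ⟨(F0, w0), hF0, haF0, hw0⟩
  have hq : ∀ n, q (n + 1) = next (q n) := fun n => Function.iterate_succ_apply' next n _
  have hmono : Monotone (fun n => (q n).1.1) := by
    apply monotone_nat_of_le_succ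
    intro n
    show (q n).1.1 ≤ (q (n + 1)).1.1
    rw [hq]
    exact hn1 (q n)
  have hinj : Function.Injective (fun n => (q n).1.2) := by
    have hlt : ∀ n k, n < k → (q n).1.2 ≠ (q k).1.2 := by
      intro n k hnk h
      have h1 : S (q n).1.2 ⊆ ((q k).1.1 : Set G) := by
        refine Set.Subset.trans (hn2 (q n)) ?_
        rw [← hq]
        exact hmono hnk
      rw [h] at h1
      exact hS' _ _ (q k).2.1 h1 (q k).2.2.1 (q k).2.2.2
    intro n k h
    rcases lt_trichotomy n k with h' | h' | h'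
    · exact absurd h (hlt n k h')
    · exact h'
    · exact absurd h.symm (hlt k n h')
  have hfin := range_finite a h2 (fun n => (q n).1.1) hmono (fun n => (q n).2.2.1) (r + 2)
    (fun n => (q n).1.2) (fun n => (q n).2.2.2.tp)
  exact Set.infinite_range_of_injective hinj hfin

end Pool.Agent.Helper233.Cen
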