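import Pool.Agent.Helper233.Cen.L3

/-!
# Locally finite groups: `K` nilpotent or with a quasicyclic subgroup
-/

set_option autoImplicit false

namespace Pool.Agent.Helper233.Cen

open Subgroup
open scoped Pointwise commutatorElement

variable {G : Type*} [Group G]

theorem pigeon {α : Type*} (X : Set α) (hX : X.Finite) (Q : ℕ → α → Prop)
    (hQ : ∀ n x, Q (n + 1) x → Q n x) (h : ∀ n, ∃ x ∈ X, Q n x) : ∃ x ∈ X, ∀ n, Q n x := by
  by_contra hcon
  push Not at hcon
  have hch : ∀ x : α, ∃ n, x ∈ X → ¬ Q n x := by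
    intro x
    by_cases hx : x ∈ X
    · obtain ⟨n, hn⟩ := hcon x hx
      exact ⟨n, fun _ => hn⟩
    · exact ⟨0, fun h => absurd h hx⟩
  choose N hN using hch
  have hmono : ∀ x n m, n ≤ m → Q m x → Q n x := by
    intro x n m hnm
    induction m, hnm using Nat.le_induction with
    | base => exact id
    | succ m _ ih => exact fun h => ih (hQ m x h)
  obtain ⟨M, hM⟩ := (hX.image N).bddAbove
  obtain ⟨x, hx, hQx⟩ := h M
  exact hN x hx (hmono x (N x) M (hM ⟨x, hx, rfl⟩) hQx)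

/-- in an infinite abelian `p`-group with finitely many elements of order `p` there is an infinite
chain of `p`-th roots -/
theorem exists_chain {p : ℕ} [hp : Fact p.Prime] (hG : IsPGroup p G) (R : Subgroup G)
    (hR : ∀ x ∈ R, ∀ y ∈ R, x * y = y * x) (hinf : (R : Set G).Infinite)
    (hS : {y : G | y ∈ R ∧ y ^ p = 1}.Finite) :
    ∃ x : ℕ → G, (∀ n, x n ∈ R) ∧ x 0 ≠ 1 ∧ ∀ n, x (n + 1) ^ p = x n := by
  have hpow : ∀ x ∈ R, ∀ y ∈ R, ∀ n : ℕ, (x * y) ^ n = x ^ n * y ^ n := by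
    intro x hx y hy n
    exact (show Commute x y from hR x hx y hy).mul_pow n
  -- finitely many `p`-th roots
  have hroot : ∀ y, {z : G | z ∈ R ∧ z ^ p = y}.Finite := by
    intro y
    rcases Set.eq_empty_or_nonempty {z : G | z ∈ R ∧ z ^ p = y} with he | ⟨z0, hz0, hz0y⟩
    · rw [he]; exact Set.finite_empty
    · refine (hS.image (fun s => z0 * s)).subset ?_
      rintro z ⟨hz, hzy⟩
      refine ⟨z0⁻¹ * z, ⟨mul_mem (inv_mem hz0) hz, ?_⟩, by group⟩
      rw [hpow _ (inv_mem hz0) _ hz, inv_pow, hz0y, hzy, inv_mul_cancel]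
  have hSn : ∀ n : ℕ, {y : G | y ∈ R ∧ y ^ p ^ n = 1}.Finite := by
    intro n
    induction n with
    | zero =>
      refine (Set.finite_singleton (1 : G)).subset ?_
      rintro y ⟨_, hy⟩
      rw [pow_zero, pow_one] at hy
      exact hy
    | succ n ih =>
      have hsub : {y : G | y ∈ R ∧ y ^ p ^ (n + 1) = 1} ⊆
          ⋃ w ∈ {y : G | y ∈ R ∧ y ^ p ^ n = 1}, {z : G | z ∈ R ∧ z ^ p = w} := by
        rintro y ⟨hy, hy1⟩
        rw [Set.mem_iUnion₂]
        refine ⟨y ^ p, ⟨pow_mem hy p, ?_⟩, hy, rfl⟩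
        rw [← pow_mul, ← pow_succ']
        exact hy1
      exact (ih.biUnion fun w _ => hroot w).subset hsub
  -- unbounded orders
  have hunb : ∀ n : ℕ, ∃ y ∈ {y : G | y ∈ R ∧ y ^ p = 1}, y ≠ 1 ∧ ∃ z ∈ R, z ^ p ^ n = y := by
    intro n
    have : ∃ z ∈ R, z ^ p ^ n ≠ 1 := by
      by_contra hcon
      push Not at hcon
      exact hinf ((hSn n).subset fun z hz => ⟨hz, hcon z hz⟩)
    obtain ⟨z, hz, hz1⟩ := this
    obtain ⟨k, hk⟩ := hG z
    have hex : ∃ k, z ^ p ^ k = 1 := ⟨k, hk⟩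
    classical
    have hk0 := Nat.find_spec hex
    have hkn : n < Nat.find hex := by
      by_contra hle
      push Not at hle
      apply hz1
      obtain ⟨d, hd⟩ := Nat.exists_eq_add_of_le hle
      rw [hd, pow_add, pow_mul, hk0, one_pow]
    obtain ⟨m, hm⟩ := Nat.exists_eq_succ_of_ne_zero (Nat.ne_of_gt (Nat.lt_of_le_of_lt (Nat.zero_le n) hkn))
    have hm1 : z ^ p ^ m ≠ 1 := Nat.find_min hex (by omega)
    refine ⟨z ^ p ^ m, ⟨pow_mem hz _, ?_⟩, hm1, z ^ p ^ (m - n), pow_mem hz _, ?_⟩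
    · rw [← pow_mul, ← pow_succ, ← Nat.succ_eq_add_one, ← hm]; exact hk0
    · rw [← pow_mul, ← pow_add]
      congr 2
      omega
  obtain ⟨y0, hy0, hy0'⟩ := pigeon _ hS (fun n y => y ≠ 1 ∧ ∃ z ∈ R, z ^ p ^ n = y)
    (fun n y h => ⟨h.1, by
      obtain ⟨z, hz, hzy⟩ := h.2
      refine ⟨z ^ p, pow_mem hz p, ?_⟩
      rw [← pow_mul, ← pow_succ']; exact hzy⟩) hunb
  let D := {y : G // y ∈ R ∧ ∀ n : ℕ, ∃ z ∈ R, z ^ p ^ n = y}
  have hnext : ∀ y : D, ∃ z : D, (z : G) ^ p = y := by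
    rintro ⟨y, hy, hdiv⟩
    obtain ⟨z, ⟨hzR, hzy⟩, hz⟩ := pigeon _ (hroot y) (fun n z => ∃ x ∈ R, x ^ p ^ n = z)
      (fun n z h => by
        obtain ⟨x, hx, hxz⟩ := h
        refine ⟨x ^ p, pow_mem hx p, ?_⟩
        rw [← pow_mul, ← pow_succ']; exact hxz) (fun n => by
        obtain ⟨x, hx, hxy⟩ := hdiv (n + 1)
        refine ⟨x ^ p ^ n, ⟨pow_mem hx _, ?_⟩, x, hx, rfl⟩
        rw [← pow_mul, ← pow_succ]; exact hxy)
    exact ⟨⟨z, hzR, hz⟩, hzy⟩
  choose next hn using hnext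
  let q : ℕ → D := fun n => next^[n] ⟨y0, hy0.1, fun n => (hy0' n).2⟩
  refine ⟨fun n => (q n : G), fun n => (q n).2.1, (hy0' 0).1, fun n => ?_⟩
  have hq : q (n + 1) = next (q n) := Function.iterate_succ_apply' next n _
  show (q (n + 1) : G) ^ p = q n
  rw [hq]
  exact hn (q n)

/-- in a locally finite `p`-group, `K = ⟨a^G⟩` is nilpotent or contains a quasicyclic subgroup -/
theorem nilp_or_chain {p : ℕ} [hp : Fact p.Prime] (hG : IsPGroup p G) (a : G)
    (ha : orderOf a = p)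
    (hlf : ∀ S : Set G, S.Finite → Finite (closure S)) (h2 : (CC a).Finite)
    (hK : ¬ Group.IsNilpotent (normalClosure ({a} : Set G))) :
    ∃ x : ℕ → G, (∀ n, x n ∈ normalClosure ({a} : Set G)) ∧ x 0 ≠ 1 ∧
      ∀ n, x (n + 1) ^ p = x n := by
  have hap : a ^ p = 1 := by rw [← ha]; exact pow_orderOf_eq_one a
  have hw := exists_w hG a hlf h2 hK
  set K := normalClosure ({a} : Set G) with hKd
  have hKn : K.Normal := inferInstance
  have haK : a ∈ K := subset_normalClosure (Set.mem_singleton a)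
  -- global elements
  have hglob : ∀ r, ∃ w, w ∈ K.lowerCentralSeries (r + 1) ∧ CsP K (r + 2) w ∧
      ¬ CsP K (r + 1) w := by
    intro r
    obtain ⟨w, hw⟩ := hw r
    obtain ⟨F, _, _, _, hV⟩ := hw ∅ Set.finite_empty
    refine ⟨w, lcs_mono (KF_le a F) _ hV.low, ?_, fun h => hV.new (CsP_anti (KF_le a F) _ w h)⟩
    apply CsP_local
    intro S hS
    obtain ⟨F', _, hF', _, hV'⟩ := hw S hS
    exact ⟨F', hF', hV'.up⟩
  -- the abelian normal subgroup
  set U : Set G := {w | ∃ m, w ∈ K.lowerCentralSeries m ∧ CsP K (m + 1) w} with hU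
  have hUconj : ∀ w ∈ U, ∀ g : G, g * w * g⁻¹ ∈ U := by
    rintro w ⟨m, h1, h3⟩ g
    exact ⟨m, (lcs_normal K m).conj_mem w h1 g, (Cs_normal K (m + 1)).conj_mem w h3 g⟩
  have hUcomm : ∀ w ∈ U, ∀ v ∈ U, Commute w v := by
    have hle : ∀ m n, m ≤ n → ∀ w v, CsP K (m + 1) w → v ∈ K.lowerCentralSeries n →
        Commute w v := by
      intro m n hmn w v h1 h3
      exact alpha_comm K m h1 (Subgroup.lowerCentralSeries_antitone K hmn h3)
    rintro w ⟨m, h1, h3⟩ v ⟨n, h4, h5⟩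
    rcases le_total m n with h | h
    · exact hle m n h w v h3 h4
    · exact (hle n m h v w h5 h1).symm
  set B := normalClosure U with hB
  have hBn : B.Normal := inferInstance
  have hBcl : B = closure U := by
    apply le_antisymm
    · rw [hB]
      unfold normalClosure
      rw [closure_le]
      intro x hx
      rw [Group.mem_conjugatesOfSet_iff] at hx
      obtain ⟨z, hz, hzx⟩ := hx
      rw [isConj_iff] at hzx
      obtain ⟨g, rfl⟩ := hzx
      exact subset_closure (hUconj z hz g)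
    · rw [closure_le]; exact subset_normalClosure
  have hUB : U ⊆ B := subset_normalClosure
  have hBab : ∀ x ∈ B, ∀ y ∈ B, x * y = y * x := by
    have h1 : B ≤ centralizer U := by
      rw [hBcl, closure_le]
      intro w hw
      rw [SetLike.mem_coe, mem_centralizer_iff]
      intro v hv
      exact (hUcomm v hv w hw).eq
    have h3 : B ≤ centralizer (B : Set G) := by
      conv_lhs => rw [hBcl]
      rw [closure_le]
      intro w hw
      rw [SetLike.mem_coe, mem_centralizer_iff]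
      intro v hv
      have := h1 hv
      rw [mem_centralizer_iff] at this
      exact (this w hw).symm
    intro x hx y hy
    have := h3 hx
    rw [mem_centralizer_iff] at this
    exact (this y hy).symm
  -- `R = [B, a]`
  let R : Subgroup G :=
    { carrier := {y | ∃ x ∈ B, y = dl a x}
      mul_mem' := by
        rintro _ _ ⟨x, hx, rfl⟩ ⟨y, hy, rfl⟩
        exact ⟨x * y, mul_mem hx hy, (dl_mul B hBab a hx hy).symm⟩
      one_mem' := ⟨1, one_mem _, (dl_one a).symm⟩
      inv_mem' := by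
        rintro _ ⟨x, hx, rfl⟩
        exact ⟨x⁻¹, inv_mem hx, (dl_inv B hBab a hx).symm⟩ }
  have hRB : ∀ y ∈ R, y ∈ B := by
    rintro _ ⟨x, hx, rfl⟩
    exact dl_mem B a hx
  have hBK : B ≤ K := by
    rw [hBcl, closure_le]
    rintro w ⟨m, h1, _⟩
    exact lcs_le K m h1
  have hRinf : (R : Set G).Infinite := by
    have hy : ∀ r, ∃ y ∈ R, CsP K (r + 1) y ∧ ¬ CsP K r y := by
      intro r
      obtain ⟨w, h1, h3, h4⟩ := hglob r
      have hg : ∃ g : G, ¬ CsP K r (a⁻¹ * cj a (g * w * g⁻¹)) := by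
        by_contra hcon
        push Not at hcon
        exact h4 fun k hk => comm_normalClosure (Cs K r) a w hcon k hk
      obtain ⟨g, hg⟩ := hg
      have hxU : g * w * g⁻¹ ∈ U :=
        hUconj w ⟨r + 1, h1, h3⟩ g
      have hx3 : CsP K (r + 2) (g * w * g⁻¹) := (Cs_normal K (r + 2)).conj_mem w h3 g
      obtain ⟨x, hx⟩ : ∃ x, x = g * w * g⁻¹ := ⟨_, rfl⟩
      rw [← hx] at hg hxU hx3
      have e1 : dl a x = ⁅x⁻¹, a⁻¹⁆ := by
        rw [commutatorElement_def]; unfold dl cj; group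
      have e2 : a⁻¹ * cj a x = (dl a x)⁻¹⁻¹⁻¹ := by
        unfold dl cj; group
      refine ⟨dl a x, ⟨x, hUB hxU, rfl⟩, ?_, ?_⟩
      · rw [e1]
        exact CsP_inv K _ _ hx3 _ (inv_mem haK)
      · intro h
        apply hg
        rw [e2, inv_inv]
        exact CsP_inv K _ _ h
    choose y hyR hy1 hy2 using hy
    refine Set.infinite_of_injective_forall_mem (f := y) ?_ hyR
    have hlt : ∀ n k, n < k → y n ≠ y k := by
      intro n k hnk h
      apply hy2 k
      rw [← h]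
      exact Cs_mono K (show n + 1 ≤ k from hnk) (hy1 n)
    intro n k h
    rcases lt_trichotomy n k with h' | h' | h'
    · exact absurd h (hlt n k h')
    · exact h'
    · exact absurd h.symm (hlt k n h')
  have hS : {y : G | y ∈ R ∧ y ^ p = 1}.Finite := by
    refine (finite_S1 B hBab a hp.out hap h2).subset ?_
    rintro y ⟨h1, h3⟩
    exact ⟨h3, h1⟩
  obtain ⟨x, hx1, hx2, hx3⟩ := exists_chain hG R
    (fun x hx y hy => hBab x (hRB x hx) y (hRB y hy)) hRinf hS
  exact ⟨x, fun n => hBK (hRB _ (hx1 n)), hx2, hx3⟩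

/-- the locally finite case without quasicyclic subgroups -/
theorem case_red {p : ℕ} [hp : Fact p.Prime] (hG : IsPGroup p G) (a : G)
    (ha : orderOf a = p)
    (hlf : ∀ S : Set G, S.Finite → Finite (closure S)) (h2 : (CC a).Finite)
    (hK : ¬ ∃ x : ℕ → G, (∀ n, x n ∈ normalClosure ({a} : Set G)) ∧ x 0 ≠ 1 ∧
      ∀ n, x (n + 1) ^ p = x n) : center G ≠ ⊥ := by
  have ha1 : a ≠ 1 := by
    intro h
    rw [h, orderOf_one] at ha
    exact hp.out.one_lt.ne ha
  by_cases hn : Group.IsNilpotent (normalClosure ({a} : Set G))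
  · exact case_nilp hG a ha1 h2 hn
  · exact absurd (nilp_or_chain hG a ha hlf h2 hn) hK

end Pool.Agent.Helper233.Cen
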