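import Pool.Agent.Helper233.Cen.L4

/-!
# Locally finite groups: divisible abelian normal subgroups inside the nilpotent residual
-/

set_option autoImplicit false

namespace Pool.Agent.Helper233.Cen

open Subgroup
open scoped Pointwise commutatorElement

variable {G : Type*} [Group G]

/-- in a locally finite `p`-group, `K = ⟨a^G⟩` is nilpotent or contains a quasicyclic subgroup -/
theorem nilp_or_chain2 {p : ℕ} [hp : Fact p.Prime] (hG : IsPGroup p G) (a : G)
    (ha : orderOf a = p)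
    (hlf : ∀ S : Set G, S.Finite → Finite (closure S)) (h2 : (CC a).Finite)
    (hK : ¬ Group.IsNilpotent (normalClosure ({a} : Set G))) :
    ∃ (B : Subgroup G) (x : ℕ → G), B.Normal ∧ (∀ x ∈ B, ∀ y ∈ B, x * y = y * x) ∧
      B ≤ normalClosure ({a} : Set G) ∧ (∀ n, ∃ z ∈ B, x n = dl a z) ∧ x 0 ≠ 1 ∧
      ∀ n, x (n + 1) ^ p = x n := by
  have hap : a ^ p = 1 := by rw [← ha]; exact pow_orderOf_eq_one a
  have hw := exists_w hG a hlf h2 hK
  set K := normalClosure ({a} : Set G) with hKd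
  have hKn : K.Normal := inferInstance
  have haK : a ∈ K := subset_normalClosure (Set.mem_singleton a)
  -- global elements
  have hglob : ∀ r, ∃ w, w ∈ K.lowerCentralSeries (r + 1) ∧ CsP K (r + 2) w ∧
      ¬ CsP K (r + 1) w := by
    intro r
    obtain ⟨w, hw⟩ := hw r
    obtain ⟨F, _, _, _, hV⟩ := hw ∅ Set.finite_empty
    refine ⟨w, lcs_mono (KF_le a F) _ hV.low, ?_, fun h => hV.new (CsP_anti (KF_le a F) _ w h)⟩
    apply CsP_local
    intro S hS
    obtain ⟨F', _, hF', _, hV'⟩ := hw S hS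
    exact ⟨F', hF', hV'.up⟩
  -- the abelian normal subgroup
  set U : Set G := {w | ∃ m, w ∈ K.lowerCentralSeries m ∧ CsP K (m + 1) w} with hU
  have hUconj : ∀ w ∈ U, ∀ g : G, g * w * g⁻¹ ∈ U := by
    rintro w ⟨m, h1, h3⟩ g
    exact ⟨m, (lcs_normal K m).conj_mem w h1 g, (Cs_normal K (m + 1)).conj_mem w h3 g⟩
  have hUcomm : ∀ w ∈ U, ∀ v ∈ U, Commute w v := by
    have hle : ∀ m n, m ≤ n → ∀ w v, CsP K (m + 1) w → v ∈ K.lowerCentralSeries n →
        Commute w v := by
      intro m n hmn w v h1 h3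
      exact alpha_comm K m h1 (Subgroup.lowerCentralSeries_antitone K hmn h3)
    rintro w ⟨m, h1, h3⟩ v ⟨n, h4, h5⟩
    rcases le_total m n with h | h
    · exact hle m n h w v h3 h4
    · exact (hle n m h v w h5 h1).symm
  set B := normalClosure U with hB
  have hBn : B.Normal := inferInstance
  have hBcl : B = closure U := by
    apply le_antisymm
    · rw [hB]
      unfold normalClosure
      rw [closure_le]
      intro x hx
      rw [Group.mem_conjugatesOfSet_iff] at hx
      obtain ⟨z, hz, hzx⟩ := hx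
      rw [isConj_iff] at hzx
      obtain ⟨g, rfl⟩ := hzx
      exact subset_closure (hUconj z hz g)
    · rw [closure_le]; exact subset_normalClosure
  have hUB : U ⊆ B := subset_normalClosure
  have hBab : ∀ x ∈ B, ∀ y ∈ B, x * y = y * x := by
    have h1 : B ≤ centralizer U := by
      rw [hBcl, closure_le]
      intro w hw
      rw [SetLike.mem_coe, mem_centralizer_iff]
      intro v hv
      exact (hUcomm v hv w hw).eq
    have h3 : B ≤ centralizer (B : Set G) := by
      conv_lhs => rw [hBcl]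
      rw [closure_le]
      intro w hw
      rw [SetLike.mem_coe, mem_centralizer_iff]
      intro v hv
      have := h1 hv
      rw [mem_centralizer_iff] at this
      exact (this w hw).symm
    intro x hx y hy
    have := h3 hx
    rw [mem_centralizer_iff] at this
    exact (this y hy).symm
  -- `R = [B, a]`
  let R : Subgroup G :=
    { carrier := {y | ∃ x ∈ B, y = dl a x}
      mul_mem' := by
        rintro _ _ ⟨x, hx, rfl⟩ ⟨y, hy, rfl⟩
        exact ⟨x * y, mul_mem hx hy, (dl_mul B hBab a hx hy).symm⟩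
      one_mem' := ⟨1, one_mem _, (dl_one a).symm⟩
      inv_mem' := by
        rintro _ ⟨x, hx, rfl⟩
        exact ⟨x⁻¹, inv_mem hx, (dl_inv B hBab a hx).symm⟩ }
  have hRB : ∀ y ∈ R, y ∈ B := by
    rintro _ ⟨x, hx, rfl⟩
    exact dl_mem B a hx
  have hBK : B ≤ K := by
    rw [hBcl, closure_le]
    rintro w ⟨m, h1, _⟩
    exact lcs_le K m h1
  have hRinf : (R : Set G).Infinite := by
    have hy : ∀ r, ∃ y ∈ R, CsP K (r + 1) y ∧ ¬ CsP K r y := by
      intro r
      obtain ⟨w, h1, h3, h4⟩ := hglob r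
      have hg : ∃ g : G, ¬ CsP K r (a⁻¹ * cj a (g * w * g⁻¹)) := by
        by_contra hcon
        push Not at hcon
        exact h4 fun k hk => comm_normalClosure (Cs K r) a w hcon k hk
      obtain ⟨g, hg⟩ := hg
      have hxU : g * w * g⁻¹ ∈ U :=
        hUconj w ⟨r + 1, h1, h3⟩ g
      have hx3 : CsP K (r + 2) (g * w * g⁻¹) := (Cs_normal K (r + 2)).conj_mem w h3 g
      obtain ⟨x, hx⟩ : ∃ x, x = g * w * g⁻¹ := ⟨_, rfl⟩
      rw [← hx] at hg hxU hx3
      have e1 : dl a x = ⁅x⁻¹, a⁻¹⁆ := by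
        rw [commutatorElement_def]; unfold dl cj; group
      have e2 : a⁻¹ * cj a x = (dl a x)⁻¹⁻¹⁻¹ := by
        unfold dl cj; group
      refine ⟨dl a x, ⟨x, hUB hxU, rfl⟩, ?_, ?_⟩
      · rw [e1]
        exact CsP_inv K _ _ hx3 _ (inv_mem haK)
      · intro h
        apply hg
        rw [e2, inv_inv]
        exact CsP_inv K _ _ h
    choose y hyR hy1 hy2 using hy
    refine Set.infinite_of_injective_forall_mem (f := y) ?_ hyR
    have hlt : ∀ n k, n < k → y n ≠ y k := by
      intro n k hnk h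
      apply hy2 k
      rw [← h]
      exact Cs_mono K (show n + 1 ≤ k from hnk) (hy1 n)
    intro n k h
    rcases lt_trichotomy n k with h' | h' | h'
    · exact absurd h (hlt n k h')
    · exact h'
    · exact absurd h.symm (hlt k n h')
  have hS : {y : G | y ∈ R ∧ y ^ p = 1}.Finite := by
    refine (finite_S1 B hBab a hp.out hap h2).subset ?_
    rintro y ⟨h1, h3⟩
    exact ⟨h3, h1⟩
  obtain ⟨x, hx1, hx2, hx3⟩ := exists_chain hG R
    (fun x hx y hy => hBab x (hRB x hx) y (hRB y hy)) hRinf hS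
  exact ⟨B, x, hBn, hBab, hBK, hx1, hx2, hx3⟩


/-- the norm of `a` kills `[B, a]`: partial products -/
theorem norm_dl (a z : G) (n : ℕ) :
    ((List.range n).map (fun j => cj (dl a z) (a ^ j))).prod = z⁻¹ * cj z (a ^ n) := by
  induction n with
  | zero => simp [cj]
  | succ n ih =>
    rw [List.range_succ, List.map_append, List.prod_append, ih, List.map_singleton,
      List.prod_singleton]
    unfold dl cj
    rw [pow_succ']
    group

/-- `x^n` equals the partial norm modulo commutators -/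
theorem pow_norm (B : Subgroup G) [B.Normal] (hB : ∀ x ∈ B, ∀ y ∈ B, x * y = y * x)
    (L M : Subgroup G) (a x : G) (hx : x ∈ B) (hxL : ∀ j : ℕ, ⁅x, (a ^ j)⁻¹⁆ ∈ M) (n : ℕ) :
    x ^ n * (((List.range n).map (fun j => cj x (a ^ j))).prod)⁻¹ ∈ M ∧
      ((List.range n).map (fun j => cj x (a ^ j))).prod ∈ B := by
  induction n with
  | zero => simp [one_mem]
  | succ n ih =>
    obtain ⟨h1, h2⟩ := ih
    rw [List.range_succ, List.map_append, List.prod_append, List.map_singleton,
      List.prod_singleton]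
    obtain ⟨P, hP⟩ : ∃ P, P = ((List.range n).map (fun j => cj x (a ^ j))).prod := ⟨_, rfl⟩
    rw [← hP] at h1 h2 ⊢
    have hc : cj x (a ^ n) ∈ B := cj_mem B (a ^ n) hx
    refine ⟨?_, mul_mem h2 hc⟩
    have e : x ^ (n + 1) * (P * cj x (a ^ n))⁻¹ = (x ^ n * P⁻¹) * ⁅x, (a ^ n)⁻¹⁆ := by
      have e1 : ⁅x, (a ^ n)⁻¹⁆ = x * (cj x (a ^ n))⁻¹ := by
        rw [commutatorElement_def]; unfold cj; group
      rw [e1, pow_succ, mul_inv_rev]
      have h5 : x * (cj x (a ^ n))⁻¹ ∈ B := mul_mem hx (inv_mem hc)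
      calc x ^ n * x * ((cj x (a ^ n))⁻¹ * P⁻¹) = x ^ n * ((x * (cj x (a ^ n))⁻¹) * P⁻¹) := by group
        _ = x ^ n * (P⁻¹ * (x * (cj x (a ^ n))⁻¹)) := by rw [hB _ h5 _ (inv_mem h2)]
        _ = _ := by group
    rw [e]
    exact mul_mem h1 (hxL n)

/-- `K = ⟨a^G⟩` is nilpotent, or its nilpotent residual contains a nontrivial divisible abelian
normal subgroup of `G` -/
theorem nilp_or_div {p : ℕ} [hp : Fact p.Prime] (hG : IsPGroup p G) (a : G)
    (ha : orderOf a = p)
    (hlf : ∀ S : Set G, S.Finite → Finite (closure S)) (h2 : (CC a).Finite)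
    (hK : ¬ Group.IsNilpotent (normalClosure ({a} : Set G))) :
    ∃ D : Subgroup G, D.Normal ∧ D ≠ ⊥ ∧ (∀ x ∈ D, ∀ y ∈ D, x * y = y * x) ∧
      (∀ x ∈ D, ∃ y ∈ D, y ^ p = x) ∧
      ∀ n, D ≤ (normalClosure ({a} : Set G)).lowerCentralSeries n := by
  have hap : a ^ p = 1 := by rw [← ha]; exact pow_orderOf_eq_one a
  obtain ⟨B, x, hBn, hB, hBK, hx, hx0, hxp⟩ := nilp_or_chain2 hG a ha hlf h2 hK
  set K := normalClosure ({a} : Set G) with hKd
  have hKn : K.Normal := inferInstance
  have haK : a ∈ K := subset_normalClosure (Set.mem_singleton a)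
  have hxB : ∀ n, x n ∈ B := by
    intro n
    obtain ⟨z, hz, hzx⟩ := hx n
    rw [hzx]
    exact dl_mem B a hz
  have hlow : ∀ n m, x m ∈ K.lowerCentralSeries n := by
    intro n
    induction n with
    | zero => intro m; exact hBK (hxB m)
    | succ n ih =>
      intro m
      rw [← hxp m]
      obtain ⟨z, hz, hzx⟩ := hx (m + 1)
      obtain ⟨h1, _⟩ := pow_norm B hB (K.lowerCentralSeries n) (K.lowerCentralSeries (n + 1)) a
        (x (m + 1)) (hxB _) (fun j => by
          exact Subgroup.commutator_mem_commutator (ih (m + 1)) (inv_mem (pow_mem haK j))) p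
      have h3 : ((List.range p).map (fun j => cj (x (m + 1)) (a ^ j))).prod = 1 := by
        rw [hzx, norm_dl, hap]
        unfold cj; group
      rw [h3, inv_one, mul_one] at h1
      exact h1
  set D : Subgroup G := closure {y | ∃ (n : ℕ) (g : G), y = g * x n * g⁻¹} with hD
  have hDB : D ≤ B := by
    rw [hD, closure_le]
    rintro _ ⟨n, g, rfl⟩
    exact hBn.conj_mem _ (hxB n) g
  refine ⟨D, ⟨?_⟩, ?_, fun x hx y hy => hB x (hDB hx) y (hDB hy), ?_, ?_⟩
  · intro y hy g
    induction hy using closure_induction with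
    | mem y h =>
      obtain ⟨n, h, rfl⟩ := h
      refine subset_closure ⟨n, g * h, ?_⟩
      group
    | one => simp [one_mem]
    | mul y z _ _ ihy ihz =>
      have e : g * (y * z) * g⁻¹ = (g * y * g⁻¹) * (g * z * g⁻¹) := by group
      rw [e]; exact mul_mem ihy ihz
    | inv y _ ih =>
      have e : g * y⁻¹ * g⁻¹ = (g * y * g⁻¹)⁻¹ := by group
      rw [e]; exact inv_mem ih
  · intro h
    have h1 : x 0 ∈ D := subset_closure ⟨0, 1, by group⟩
    rw [h, mem_bot] at h1
    exact hx0 h1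
  · intro y hy
    induction hy using closure_induction with
    | mem y h =>
      obtain ⟨n, g, rfl⟩ := h
      refine ⟨g * x (n + 1) * g⁻¹, subset_closure ⟨n + 1, g, rfl⟩, ?_⟩
      rw [← hxp n, conj_pow]
    | one => exact ⟨1, one_mem _, one_pow p⟩
    | mul y z _ _ ihy ihz =>
      obtain ⟨u, hu, rfl⟩ := ihy
      obtain ⟨v, hv, rfl⟩ := ihz
      refine ⟨u * v, mul_mem hu hv, ?_⟩
      exact (show Commute u v from hB u (hDB hu) v (hDB hv)).mul_pow p
    | inv y _ ih =>
      obtain ⟨u, hu, rfl⟩ := ih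
      exact ⟨u⁻¹, inv_mem hu, inv_pow u p⟩
  · intro n
    rw [hD, closure_le]
    rintro _ ⟨m, g, rfl⟩
    exact (lcs_normal K n).conj_mem _ (hlow n m) g

/-- the locally finite case in which every divisible abelian normal subgroup of `G` inside the
nilpotent residual of `K` has finite rank -/
theorem case_rank {p : ℕ} [hp : Fact p.Prime] (hG : IsPGroup p G) (a : G)
    (ha : orderOf a = p)
    (hlf : ∀ S : Set G, S.Finite → Finite (closure S)) (h2 : (CC a).Finite)
    (hK : ∀ D : Subgroup G, D.Normal → (∀ x ∈ D, ∀ y ∈ D, x * y = y * x) →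
      (∀ x ∈ D, ∃ y ∈ D, y ^ p = x) →
      (∀ n, D ≤ (normalClosure ({a} : Set G)).lowerCentralSeries n) →
      {x : G | x ∈ D ∧ x ^ p = 1}.Finite) : center G ≠ ⊥ := by
  have ha1 : a ≠ 1 := by
    intro h
    rw [h, orderOf_one] at ha
    exact hp.out.one_lt.ne ha
  by_cases hn : Group.IsNilpotent (normalClosure ({a} : Set G))
  · exact case_nilp hG a ha1 h2 hn
  · obtain ⟨D, hDn, hD1, hDc, hDd, hDl⟩ := nilp_or_div hG a ha hlf h2 hn
    have hfin := hK D hDn hDc hDd hDl
    intro hZ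
    obtain ⟨g, hg⟩ := exists_generic hG hZ
      {s | s ∈ {x : G | x ∈ D ∧ x ^ p = 1} ×ˢ {x : G | x ∈ D ∧ x ^ p = 1} ∧ s.1 ≠ 1}
      ((hfin.prod hfin).subset fun s hs => hs.1) (fun s hs => hs.2)
    obtain ⟨y, hy, hy1⟩ : ∃ y ∈ D, y ≠ 1 := by
      by_contra hcon
      push Not at hcon
      exact hD1 ((eq_bot_iff_forall D).2 hcon)
    obtain ⟨k, hk⟩ := hG y
    have hex : ∃ k, y ^ p ^ k = 1 := ⟨k, hk⟩
    classical
    have hk0 := Nat.find_spec hex
    have hkpos : Nat.find hex ≠ 0 := by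
      intro h
      rw [h, pow_zero, pow_one] at hk0
      exact hy1 hk0
    obtain ⟨m, hm⟩ := Nat.exists_eq_succ_of_ne_zero hkpos
    have hm1 : y ^ p ^ m ≠ 1 := Nat.find_min hex (by omega)
    have hm2 : (y ^ p ^ m) ^ p = 1 := by
      rw [← pow_mul, ← pow_succ, ← Nat.succ_eq_add_one, ← hm]; exact hk0
    refine hg (y ^ p ^ m, cj (y ^ p ^ m) g) ⟨⟨⟨pow_mem hy _, hm2⟩, ?_, ?_⟩, hm1⟩ rfl
    · exact cj_mem D g (pow_mem hy _)
    · rw [← cj_pow, hm2, cj_one]

end Pool.Agent.Helper233.Cen
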