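import Pool.Agent.Helper233.Cen.L5

/-!
# Residually finite `K`
-/

set_option autoImplicit false

namespace Pool.Agent.Helper233.Cen

open Subgroup

variable {X : Type*} [Group X] {p : ℕ}

/-- in a residually finite `p`-group, properties 1 and 2 force finitely many conjugates -/
theorem rf_orbit [hp : Fact p.Prime] (hG : IsPGroup p X) (a : X)
    (h1 : ∀ g : X, Finite (closure ({a, cj a g} : Set X)))
    (h2 : (CC a).Finite)
    (hrf : ∀ x : X, x ≠ 1 → ∃ N : Subgroup X, N.Normal ∧ N.FiniteIndex ∧ x ∉ N) :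
    {x : X | ∃ k, x = cj a k}.Finite := by
  have hX : ∀ S : Set X, S.Finite → (∀ x ∈ S, x ≠ 1) →
      ∃ N : Subgroup X, N.Normal ∧ N.FiniteIndex ∧ ∀ x ∈ S, x ∉ N := by
    intro S hS
    induction S, hS using Set.Finite.induction_on with
    | empty =>
      intro _
      exact ⟨⊤, inferInstance, inferInstance, fun x hx => absurd hx (Set.notMem_empty x)⟩
    | @insert x S _ _ ih =>
      intro h
      obtain ⟨N, hN1, hN2, hN3⟩ := ih (fun y hy => h y (Set.mem_insert_of_mem _ hy))
      obtain ⟨M, hM1, hM2, hM3⟩ := hrf x (h x (Set.mem_insert _ _))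
      refine ⟨N ⊓ M, inferInstance, inferInstance, ?_⟩
      intro y hy hyN
      rcases hy with rfl | hy
      · exact hM3 hyN.2
      · exact hN3 y hy hyN.1
  obtain ⟨N, hN1, hN2, hN3⟩ := hX ((fun x => a⁻¹ * x) '' (CC a \ {a})) ((h2.subset Set.sdiff_subset).image _) (by
    rintro _ ⟨x, ⟨_, hx⟩, rfl⟩ h
    apply hx
    have : a⁻¹ * x = 1 := h
    rw [inv_mul_eq_one] at this
    exact this.symm)
  have hkey := key_lemma hG a h1 N (by
    intro x hx hxN
    by_contra hne
    exact hN3 _ ⟨x, ⟨hx, hne⟩, rfl⟩ hxN)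
  have hfin : Finite (X ⧸ N) := inferInstance
  refine (Set.finite_range (fun q : X ⧸ N => cj a ((Quotient.out q)⁻¹))).subset ?_
  rintro _ ⟨k, rfl⟩
  refine ⟨((k⁻¹ : X) : X ⧸ N), ?_⟩
  obtain ⟨n, hn⟩ := QuotientGroup.mk_out_eq_mul N (k⁻¹)
  show cj a ((Quotient.out ((k⁻¹ : X) : X ⧸ N))⁻¹) = cj a k
  rw [hn]
  have h3 : Commute (n : X) a := hkey n n.2
  have e : (k⁻¹ * (n : X))⁻¹ = (n : X)⁻¹ * k := by group
  rw [e, ← cj_cj]
  congr 1
  unfold cj
  rw [inv_inv, h3.eq]
  group

/-- the case of residually finite `K = ⟨a^G⟩` -/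
theorem case_rfK {G : Type*} [Group G] [hp : Fact p.Prime] (hG : IsPGroup p G) (a : G) (ha : a ≠ 1)
    (h1 : ∀ g : G, Finite (closure ({a, cj a g} : Set G)))
    (h2 : (CC a).Finite)
    (hrf : ∀ x : normalClosure ({a} : Set G), x ≠ 1 →
      ∃ N : Subgroup (normalClosure ({a} : Set G)), N.Normal ∧ N.FiniteIndex ∧ x ∉ N) :
    center G ≠ ⊥ := by
  apply case_orbit hG a ha h2
  have haK : a ∈ normalClosure ({a} : Set G) := subset_normalClosure (Set.mem_singleton a)
  set aK : normalClosure ({a} : Set G) := ⟨a, haK⟩ with haKd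
  have h3 : (CC aK).Finite := by
    refine (h2.preimage (f := (Subtype.val : normalClosure ({a} : Set G) → G))
      Subtype.val_injective.injOn).subset ?_
    rintro x ⟨hx1, hx2⟩
    refine ⟨congrArg Subtype.val hx1.eq, ?_⟩
    exact MonoidHom.map_isConj (normalClosure ({a} : Set G)).subtype hx2
  have h4 : ∀ k : normalClosure ({a} : Set G),
      Finite (closure ({aK, cj aK k} : Set (normalClosure ({a} : Set G)))) := by
    intro k
    have hf := h1 (k : G)
    have hle : ∀ y : closure ({aK, cj aK k} : Set (normalClosure ({a} : Set G))),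
        (((y : normalClosure ({a} : Set G))) : G) ∈ closure ({a, cj a (k : G)} : Set G) := by
      rintro ⟨y, hy⟩
      induction hy using closure_induction with
      | mem y h =>
        rcases h with rfl | h
        · exact subset_closure (Set.mem_insert _ _)
        · rw [Set.mem_singleton_iff] at h
          subst h
          exact subset_closure (Set.mem_insert_of_mem _ rfl)
      | one => exact one_mem _
      | mul y z _ _ ihy ihz => exact mul_mem ihy ihz
      | inv y _ ih => exact inv_mem ih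
    refine Finite.of_injective (fun y => (⟨_, hle y⟩ : closure ({a, cj a (k : G)} : Set G))) ?_
    intro y z hyz
    apply Subtype.ext
    apply Subtype.ext
    have h7 := congrArg (fun t : closure ({a, cj a (k : G)} : Set G) => (t : G)) hyz
    exact h7
  refine ((rf_orbit (hG.to_subgroup _) aK h4 h3 hrf).image Subtype.val).subset ?_
  rintro _ ⟨k, hk, rfl⟩
  exact ⟨cj aK ⟨k, hk⟩, ⟨_, rfl⟩, rfl⟩

end Pool.Agent.Helper233.Cen
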