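import Pool.Agent.Helper233.Cen.L6

/-!
# Groups in which `a` has finitely many conjugates under each finitely generated subgroup
-/

set_option autoImplicit false

namespace Pool.Agent.Helper233.Cen

open Subgroup
open scoped Pointwise commutatorElement

variable {G : Type*} [Group G] {p : ℕ}

/-- `a` has finitely many conjugates under each finitely generated subgroup -/
def LocFin (a : G) : Prop := ∀ S : Set G, S.Finite → {x | ∃ f ∈ closure S, x = cj a f}.Finite

theorem exists_goodM [hp : Fact p.Prime] (hG : IsPGroup p G) (a : G) (F : Subgroup G)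
    (hF : {x | ∃ f ∈ F, x = cj a f}.Finite)
    (haF : a ∈ F) (hnc : ∃ f ∈ F, ¬ Commute f a) :
    ∃ c u : G, c ≠ 1 ∧ a * c ∈ CC a ∧ Good a F c u := by
  set A : Set G := {x | ∃ f ∈ F, x = cj a f} with hA
  have hAF : ∀ x ∈ A, ∀ f ∈ F, cj x f ∈ A := by
    rintro _ ⟨g, hg, rfl⟩ f hf
    exact ⟨g * f, F.mul_mem hg hf, cj_cj a g f⟩
  set N : Subgroup F := (centralizer A).subgroupOf F with hN
  have hNm : ∀ f : F, f ∈ N ↔ ∀ x ∈ A, Commute (f : G) x := by
    intro f
    rw [hN, mem_subgroupOf, mem_centralizer_iff]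
    exact ⟨fun h x hx => (h x hx).symm, fun h x hx => (h x hx).symm⟩
  have hNn : N.Normal := by
    refine ⟨fun n hn g => ?_⟩
    rw [hNm] at hn ⊢
    intro x hx
    have h1 := hn _ (hAF x hx g g.2)
    show ((g * n * g⁻¹ : F) : G) * x = x * ((g * n * g⁻¹ : F) : G)
    have h2 : (n : G) * ((g : G)⁻¹ * x * g) = ((g : G)⁻¹ * x * g) * n := h1
    show (g : G) * n * (g : G)⁻¹ * x = x * ((g : G) * n * (g : G)⁻¹)
    calc (g : G) * n * (g : G)⁻¹ * x = g * (n * ((g : G)⁻¹ * x * g)) * (g : G)⁻¹ := by group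
      _ = g * (((g : G)⁻¹ * x * g) * n) * (g : G)⁻¹ := by rw [h2]
      _ = _ := by group
  have hfinA : Finite A := hF.to_subtype
  have hfin : Finite (F ⧸ N) := by
    let φ : F ⧸ N → (A → A) := fun q x => ⟨cj (x : G) ((Quotient.out q : F) : G)⁻¹,
      hAF x x.2 _ (F.inv_mem (Quotient.out q : F).2)⟩
    refine Finite.of_injective φ ?_
    intro q r hqr
    have h1 : ((Quotient.out q : F))⁻¹ * (Quotient.out r : F) ∈ N := by
      rw [hNm]
      intro x hx
      have h2 := congrArg Subtype.val (congrFun hqr ⟨x, hx⟩)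
      obtain ⟨s, hs⟩ : ∃ s, s = ((Quotient.out q : F) : G) := ⟨_, rfl⟩
      obtain ⟨t, ht⟩ : ∃ t, t = ((Quotient.out r : F) : G) := ⟨_, rfl⟩
      have h3 : cj x s⁻¹ = cj x t⁻¹ := by rw [hs, ht]; exact h2
      have h4 : (((Quotient.out q : F)⁻¹ * (Quotient.out r : F) : F) : G) = s⁻¹ * t := by
        rw [hs, ht]; rfl
      rw [h4]
      have h5 : s * x * s⁻¹ = t * x * t⁻¹ := by
        unfold cj at h3
        rw [inv_inv, inv_inv] at h3
        exact h3
      show s⁻¹ * t * x = x * (s⁻¹ * t)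
      calc s⁻¹ * t * x = s⁻¹ * (t * x * t⁻¹) * t := by group
        _ = s⁻¹ * (s * x * s⁻¹) * t := by rw [h5]
        _ = _ := by group
    have h8 := QuotientGroup.eq.2 h1
    rw [QuotientGroup.out_eq', QuotientGroup.out_eq'] at h8
    exact h8
  have hQp : IsPGroup p (F ⧸ N) := (hG.to_subgroup F).to_quotient N
  have hnt : Nontrivial (F ⧸ N) := by
    obtain ⟨f, hf, hfc⟩ := hnc
    refine ⟨⟨((⟨f, hf⟩ : F) : F ⧸ N), 1, ?_⟩⟩
    intro h
    rw [QuotientGroup.eq_one_iff, hNm] at h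
    exact hfc (h a ⟨1, F.one_mem, by unfold cj; group⟩)
  have hcn : Nontrivial (center (F ⧸ N)) := hQp.center_nontrivial
  obtain ⟨⟨ub, hub⟩, hub1⟩ := exists_ne (1 : center (F ⧸ N))
  have hub1' : ub ≠ 1 := fun h => hub1 (Subtype.ext h)
  obtain ⟨u, rfl⟩ := QuotientGroup.mk_surjective ub
  have huN : u ∉ N := fun h => hub1' ((QuotientGroup.eq_one_iff u).2 h)
  have hcomm : ∀ f : F, u⁻¹ * (f⁻¹ * u * f) ∈ N := by
    intro f
    have h1 := (mem_center_iff.1 hub) (f : F ⧸ N)
    have h2 : ((f * u : F) : F ⧸ N) = ((u * f : F) : F ⧸ N) := h1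
    rw [QuotientGroup.eq] at h2
    have e : u⁻¹ * (f⁻¹ * u * f) = (u⁻¹ * f⁻¹) * (u * f) := by group
    have e2 : (f * u)⁻¹ * (u * f) = u⁻¹ * (f⁻¹ * u * f) := by group
    rw [e2] at h2
    exact h2
  have hNA : ∀ n : F, n ∈ N → ∀ f ∈ F, Commute (n : G) (cj a f) := fun n hn f hf =>
    (hNm n).1 hn _ ⟨f, hf, rfl⟩
  have huf : ∀ f ∈ F, ∀ f' ∈ F, Commute ((u : G)⁻¹ * cj (u : G) f) (cj a f') := by
    intro f hf f' hf'
    exact hNA _ (hcomm ⟨f, hf⟩) f' hf'
  have hua : ¬ Commute (u : G) a := by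
    intro h
    apply huN
    rw [hNm]
    rintro _ ⟨f, hf, rfl⟩
    have h1 := huf f hf f hf
    have h2 : Commute (cj (u : G) f) (cj a f) := by
      show cj (u : G) f * cj a f = cj a f * cj (u : G) f
      rw [← cj_mul, ← cj_mul, h.eq]
    have h3 : (u : G) = cj (u : G) f * ((u : G)⁻¹ * cj (u : G) f)⁻¹ := by group
    rw [h3]
    exact h2.mul_left h1.inv_left
  have hcen : ∀ f ∈ F, ∀ f' ∈ F, Commute ((cj a f)⁻¹ * cj (cj a f) (u : G)) (cj a f') := by
    intro f hf f' hf'
    have hb : cj a f ∈ F := F.mul_mem (F.mul_mem (F.inv_mem hf) haF) hf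
    have h1 := (huf _ hb f' hf').inv_left
    have e : ((u : G)⁻¹ * cj (u : G) (cj a f))⁻¹ = (cj a f)⁻¹ * cj (cj a f) (u : G) := by
      unfold cj; group
    rw [e] at h1
    exact h1
  refine ⟨a⁻¹ * cj a (u : G), u, ?_, ?_, ⟨u.2, rfl, huf, hcen⟩⟩
  · intro h
    apply hua
    have h3 : cj a (u : G) = a := by
      rw [inv_mul_eq_one] at h; exact h.symm
    have h4 : (u : G)⁻¹ * a * u = a := h3
    show (u : G) * a = a * u
    calc (u : G) * a = u * ((u : G)⁻¹ * a * u) := by rw [h4]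
      _ = a * u := by group
  · rw [mul_inv_cancel_left]
    refine ⟨?_, isConj_cj a _⟩
    have h5 := hcen 1 F.one_mem 1 F.one_mem
    have h6 : cj a (1 : G) = a := by unfold cj; group
    rw [h6] at h5
    have h7 : cj a (u : G) = a * (a⁻¹ * cj a (u : G)) := by group
    rw [h7]
    exact (Commute.refl a).mul_left h5

theorem exists_cM [hp : Fact p.Prime] (hG : IsPGroup p G) (a : G)
    (hlf : LocFin a) (h2 : (CC a).Finite)
    (hnc : ∃ f, ¬ Commute f a) :
    ∃ c : G, c ≠ 1 ∧ ∀ S : Set G, S.Finite → ∃ F : Subgroup G, S ⊆ F ∧ ∃ u, Good a F c u := by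
  by_contra hcon
  push Not at hcon
  have hX : {c : G | c ≠ 1 ∧ a * c ∈ CC a}.Finite := by
    refine (h2.image (fun x => a⁻¹ * x)).subset ?_
    rintro c ⟨_, hc⟩
    exact ⟨a * c, hc, by group⟩
  have hch : ∀ c : G, ∃ S : Set G, c ≠ 1 → (S.Finite ∧ ∀ F : Subgroup G, S ⊆ F → ∀ u, ¬ Good a F c u) := by
    intro c
    by_cases hc : c = 1
    · exact ⟨∅, fun h => absurd hc h⟩
    · obtain ⟨S, hS, hS'⟩ := hcon c hc
      exact ⟨S, fun _ => ⟨hS, hS'⟩⟩
  choose S hS using hch
  obtain ⟨f, hf⟩ := hnc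
  set T : Set G := (⋃ c ∈ {c : G | c ≠ 1 ∧ a * c ∈ CC a}, S c) ∪ {a, f} with hT
  have hTf : T.Finite := (hX.biUnion fun c hc => (hS c hc.1).1).union (Set.toFinite _)
  obtain ⟨c, u, hc, hcC, hgood⟩ := exists_goodM hG a (closure T) (hlf T hTf)
    (subset_closure (Or.inr (by simp))) ⟨f, subset_closure (Or.inr (by simp)), hf⟩
  refine (hS c hc).2 (closure T) ?_ u hgood
  refine Set.Subset.trans ?_ subset_closure
  refine Set.Subset.trans ?_ Set.subset_union_left
  exact Set.subset_biUnion_of_mem (u := S) (show c ∈ {c : G | c ≠ 1 ∧ a * c ∈ CC a} from ⟨hc, hcC⟩)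

/-- `K/K'` finite -/
theorem case_lfM [hp : Fact p.Prime] (hG : IsPGroup p G) (a : G) (ha : a ≠ 1)
    (hlf : LocFin a) (h2 : (CC a).Finite)
    (hK : (⁅normalClosure ({a} : Set G), normalClosure ({a} : Set G)⁆.subgroupOf
      (normalClosure ({a} : Set G))).FiniteIndex) :
    center G ≠ ⊥ := by
  by_cases hnc : ∃ f, ¬ Commute f a
  · obtain ⟨c, hc1, hc⟩ := exists_cM hG a hlf h2 hnc
    apply center_ne_bot hG c hc1
    set K := normalClosure ({a} : Set G) with hKd
    set K' := ⁅K, K⁆ with hK'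
    have hK'n : K'.Normal := inferInstance
    have haK : a ∈ K := subset_normalClosure (Set.mem_singleton a)
    have hmem : ∀ g : G, cj a g⁻¹ ∈ K := fun g => cj_mem K g⁻¹ haK
    let C := centralizer ({c} : Set G)
    let f : G ⧸ C → K ⧸ (K'.subgroupOf K) := fun q =>
      ((⟨cj a (Quotient.out q)⁻¹, hmem _⟩ : K) : K ⧸ (K'.subgroupOf K))
    have hf : Function.Injective f := by
      intro q r hqr
      have h3 := QuotientGroup.eq.1 hqr
      rw [mem_subgroupOf] at h3
      have h4 : (cj a (Quotient.out q)⁻¹)⁻¹ * cj a (Quotient.out r)⁻¹ ∈ K' := h3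
      have h5 := cj_mem K' (Quotient.out q) h4
      have e : cj ((cj a (Quotient.out q)⁻¹)⁻¹ * cj a (Quotient.out r)⁻¹) (Quotient.out q) =
          a⁻¹ * cj a ((Quotient.out r)⁻¹ * Quotient.out q) := by
        unfold cj; group
      rw [e] at h5
      have h6 := c_fixed a c hc _ h5
      have h7 : (Quotient.out r)⁻¹ * Quotient.out q ∈ C := by
        rw [mem_centralizer_singleton_iff]
        unfold cj at h6
        set w := (Quotient.out r)⁻¹ * Quotient.out q with hw
        calc w * c = w * (w⁻¹ * c * w) := by rw [h6]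
          _ = c * w := by group
      have h8 : ((Quotient.out r : G) : G ⧸ C) = ((Quotient.out q : G) : G ⧸ C) :=
        QuotientGroup.eq.2 h7
      rw [QuotientGroup.out_eq', QuotientGroup.out_eq'] at h8
      exact h8.symm
    have : Finite (K ⧸ (K'.subgroupOf K)) := inferInstance
    have hfin : Finite (G ⧸ C) := Finite.of_injective f hf
    exact finiteIndex_of_finite_quotient
  · push Not at hnc
    intro hZ
    have : a ∈ center G := by
      rw [mem_center_iff]
      intro g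
      exact hnc g
    rw [hZ, mem_bot] at this
    exact ha this

end Pool.Agent.Helper233.Cen
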