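import Pool.Agent.Helper233.Cen.M1

/-!
# `K` nilpotent or a divisible abelian normal subgroup, general local version
-/

set_option autoImplicit false

namespace Pool.Agent.Helper233.Cen

open Subgroup
open scoped Pointwise commutatorElement

theorem exists_VM {Γ : Type*} [Group Γ] (a : Γ)
    (hΓ : ∃ n, ∀ k ∈ normalClosure ({a} : Set Γ), CsP (normalClosure ({a} : Set Γ)) n k) (r : ℕ)
    (hr : ¬ ∀ k ∈ normalClosure ({a} : Set Γ), CsP (normalClosure ({a} : Set Γ)) (2 * r + 2) k) :
    ∃ w u : Γ, w = a⁻¹ * cj a u ∧ w ∈ (normalClosure ({a} : Set Γ)).lowerCentralSeries (r + 1) ∧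
      CsP (normalClosure ({a} : Set Γ)) (r + 2) w ∧
      ¬ CsP (normalClosure ({a} : Set Γ)) (r + 1) w := by
  set H := normalClosure ({a} : Set Γ) with hH
  have haH : a ∈ H := subset_normalClosure (Set.mem_singleton a)
  have hnorm : ∀ n, (H.lowerCentralSeries n).Normal := fun n => lcs_normal H n
  have hu : ∃ u ∈ H.lowerCentralSeries r, ¬ CsP H (r + 1) (a⁻¹ * cj a u) := by
    by_contra hcon
    push Not at hcon
    apply hr
    have hle : H.lowerCentralSeries (r + 1) ≤ Cs H (r + 1) := by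
      rw [Subgroup.lowerCentralSeries_succ, commutator_le]
      intro u hu k hk
      exact comm_normalClosure (Cs H (r + 1)) a u (fun g => hcon _ ((hnorm r).conj_mem u hu g)) k hk
    have hall : ∀ j, j ≤ r + 1 → ∀ x ∈ H.lowerCentralSeries (r + 1 - j), CsP H (j + (r + 1)) x := by
      intro j
      induction j with
      | zero => intro _ x hx; rw [zero_add]; exact hle hx
      | succ j ih =>
        intro hj x hx
        have e : j + 1 + (r + 1) = (j + (r + 1)) + 1 := by ring
        rw [e]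
        intro k hk
        apply ih (by omega)
        have e2 : r + 1 - j = (r + 1 - (j + 1)) + 1 := by omega
        rw [e2, Subgroup.lowerCentralSeries_succ]
        exact commutator_mem_commutator hx hk
    intro k hk
    have := hall (r + 1) le_rfl k (by rw [Nat.sub_self]; exact hk)
    have e : r + 1 + (r + 1) = 2 * r + 2 := by ring
    rwa [e] at this
  obtain ⟨u0, hu0, hu0'⟩ := hu
  obtain ⟨n, hn⟩ := hΓ
  have hlcs : H.lowerCentralSeries r ≤ H := lcs_le H r
  have hex : ∃ n, ∃ u ∈ H.lowerCentralSeries r, CsP H n u ∧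
      ¬ CsP H (r + 1) (a⁻¹ * cj a u) := ⟨n, u0, hu0, hn _ (hlcs hu0), hu0'⟩
  classical
  obtain ⟨u, hur, huZ, huC⟩ := Nat.find_spec hex
  have hne : Nat.find hex ≠ 0 := by
    intro h
    rw [h] at huZ
    have huZ1 : u = 1 := huZ
    apply huC
    rw [huZ1]
    have : a⁻¹ * cj a 1 = 1 := by unfold cj; group
    rw [this]
    exact CsP_one H _
  obtain ⟨m, hm⟩ := Nat.exists_eq_succ_of_ne_zero hne
  have hmin : ∀ u' ∈ H.lowerCentralSeries r, CsP H m u' →
      CsP H (r + 1) (a⁻¹ * cj a u') := by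
    intro u' h1 h2
    have := Nat.find_min hex (m := m) (by omega)
    push Not at this
    exact this u' h1 h2
  rw [hm, Nat.succ_eq_add_one] at huZ
  have e1 : a⁻¹ * cj a u = ⁅u⁻¹, a⁻¹⁆⁻¹ := by
    rw [commutatorElement_def]; unfold cj; group
  have hwZ : CsP H m (a⁻¹ * cj a u) := by
    rw [e1]
    exact CsP_inv H m _ (CsP_inv H (m + 1) _ huZ _ (inv_mem haH))
  have hwL : a⁻¹ * cj a u ∈ H.lowerCentralSeries (r + 1) := by
    rw [e1, Subgroup.lowerCentralSeries_succ]
    exact inv_mem (commutator_mem_commutator (inv_mem hur) (inv_mem haH))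
  refine ⟨a⁻¹ * cj a u, u, rfl, hwL, ?_, huC⟩
  intro k hk
  refine comm_normalClosure (Cs H (r + 1)) a _ (fun g => ?_) k hk
  apply hmin
  · exact (hnorm r).conj_mem _ (Subgroup.lowerCentralSeries_antitone H (Nat.le_succ r) hwL) g
  · exact (Cs_normal H m).conj_mem _ hwZ g


variable {G : Type*} [Group G]

theorem CsP_of_upper (K : Subgroup G) (i : ℕ) :
    ∀ k : K, k ∈ Subgroup.upperCentralSeries K i → CsP K i (k : G) := by
  induction i with
  | zero =>
    intro k hk
    rw [Subgroup.upperCentralSeries_zero, mem_bot] at hk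
    rw [hk]
    exact CsP_one K 0
  | succ i ih =>
    intro k hk y hy
    rw [Subgroup.mem_upperCentralSeries_succ_iff] at hk
    exact ih _ (hk ⟨y, hy⟩)

/-- if `a` has finitely many `F`-conjugates then `⟨a^F⟩` is finite, so nilpotent -/
theorem exists_CsP {p : ℕ} [hp : Fact p.Prime] (hG : IsPGroup p G) (a : G) (F : Subgroup G)
    (hF : {x | ∃ f ∈ F, x = cj a f}.Finite) (haF : a ∈ F) :
    ∃ n, ∀ k ∈ KF a F, CsP (KF a F) n k := by
  set aF : F := ⟨a, haF⟩ with haFd
  have hfi : (centralizer ({aF} : Set F)).FiniteIndex := by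
    have hfinA : Finite {x | ∃ f ∈ F, x = cj a f} := hF.to_subtype
    let φ : F ⧸ centralizer ({aF} : Set F) → {x | ∃ f ∈ F, x = cj a f} := fun q =>
      ⟨cj a ((Quotient.out q : F) : G)⁻¹, ((Quotient.out q : F) : G)⁻¹,
        F.inv_mem (Quotient.out q : F).2, rfl⟩
    have hinj : Function.Injective φ := by
      intro q r hqr
      have h1 : ((Quotient.out q : F))⁻¹ * (Quotient.out r : F) ∈ centralizer ({aF} : Set F) := by
        rw [mem_centralizer_singleton_iff]
        apply Subtype.ext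
        have h2 := congrArg Subtype.val hqr
        obtain ⟨s, hs⟩ : ∃ s, s = ((Quotient.out q : F) : G) := ⟨_, rfl⟩
        obtain ⟨t, ht⟩ : ∃ t, t = ((Quotient.out r : F) : G) := ⟨_, rfl⟩
        have h3 : cj a s⁻¹ = cj a t⁻¹ := by rw [hs, ht]; exact h2
        have h5 : s * a * s⁻¹ = t * a * t⁻¹ := by
          unfold cj at h3
          rw [inv_inv, inv_inv] at h3
          exact h3
        show (((Quotient.out q : F) : G))⁻¹ * ((Quotient.out r : F) : G) * a =
          a * ((((Quotient.out q : F) : G))⁻¹ * ((Quotient.out r : F) : G))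
        rw [← hs, ← ht]
        calc s⁻¹ * t * a = s⁻¹ * (t * a * t⁻¹) * t := by group
          _ = s⁻¹ * (s * a * s⁻¹) * t := by rw [h5]
          _ = _ := by group
      have h8 := QuotientGroup.eq.2 h1
      rw [QuotientGroup.out_eq', QuotientGroup.out_eq'] at h8
      exact h8
    have hfin := Finite.of_injective φ hinj
    exact finiteIndex_of_finite_quotient
  have hfin := finite_normalClosure (hG.to_subgroup F) aF hfi
  have hK := KF_eq a F haF
  have hfinK : Finite (KF a F) := by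
    have h1 : ((normalClosure ({aF} : Set F) : Subgroup F) : Set F).Finite := Set.toFinite _
    have h2 := h1.image (Subtype.val : F → G)
    have h3 : ((KF a F : Subgroup G) : Set G).Finite := by
      rw [← hK]
      exact h2
    exact h3.to_subtype
  have hnil : Group.IsNilpotent (KF a F) := (hG.to_subgroup (KF a F)).isNilpotent
  obtain ⟨n, hn⟩ := hnil.nilpotent'
  refine ⟨n, fun k hk => ?_⟩
  exact CsP_of_upper (KF a F) n ⟨k, hk⟩ (by rw [hn]; exact mem_top _)

theorem exists_VpM {p : ℕ} [hp : Fact p.Prime] (hG : IsPGroup p G) (a : G) (F : Subgroup G)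
    (hF : {x | ∃ f ∈ F, x = cj a f}.Finite) (haF : a ∈ F) (r : ℕ) (hr : ¬ ∀ k ∈ KF a F, CsP (KF a F) (2 * r + 2) k) :
    ∃ w, Vp a r F w := by
  have hK := KF_eq a F haF
  have hnilK : ∃ n, ∀ k ∈ KF a F, CsP (KF a F) n k := exists_CsP hG a F hF haF
  obtain ⟨w, u, hw, hw1, hw2, hw3⟩ := exists_VM (⟨a, haF⟩ : F) (by
    obtain ⟨n, hn⟩ := hnilK
    refine ⟨n, fun k hk => ?_⟩
    rw [CsP_map, hK]
    apply hn
    rw [← hK]
    exact ⟨k, hk, rfl⟩) r (by
    intro h
    apply hr
    intro k hk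
    rw [← hK] at hk ⊢
    obtain ⟨k', hk', rfl⟩ := hk
    exact (CsP_map F _ _ k').1 (h k' hk'))
  refine ⟨w, ?_, ?_, ?_, ?_⟩
  · rw [← hK, ← Subgroup.map_lowerCentralSeries]
    exact ⟨w, hw1, rfl⟩
  · rw [← hK]; exact (CsP_map F _ _ w).1 hw2
  · rw [← hK]; intro h; exact hw3 ((CsP_map F _ _ w).2 h)
  · have : a * (w : G) = cj a (u : G) := by
      rw [hw]
      show a * (a⁻¹ * cj a (u : G)) = _
      group
    rw [this]
    exact isConj_cj a _

/-- if `K` is not nilpotent then `Vp` elements exist for all large finite subgroups -/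
theorem exists_VpM' {p : ℕ} [hp : Fact p.Prime] (hG : IsPGroup p G) (a : G)
    (hlf : LocFin a)
    (hK : ¬ Group.IsNilpotent (normalClosure ({a} : Set G))) (r : ℕ) :
    ∀ S : Set G, S.Finite → ∃ T : Set G, T.Finite ∧ S ⊆ T ∧ a ∈ T ∧ ∃ w, Vp a r (closure T) w := by
  by_contra hcon
  push Not at hcon
  obtain ⟨S, hS, hS'⟩ := hcon
  apply hK
  apply nilpotent_of_CsP _ (2 * r + 2)
  intro k hk
  apply CsP_local
  intro T hT
  obtain ⟨W, hW, hW'⟩ := mem_KF_of_mem a k hk
  have hfin : (S ∪ T ∪ W ∪ {a}).Finite := ((hS.union hT).union hW).union (Set.finite_singleton a)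
  set F := closure (S ∪ T ∪ W ∪ {a}) with hF
  have hsub : S ∪ T ∪ W ∪ {a} ⊆ (F : Set G) := subset_closure
  have haF : a ∈ F := hsub (Or.inr rfl)
  have hFf := hlf _ hfin
  refine ⟨F, fun x hx => hsub (Or.inl (Or.inl (Or.inr hx))), ?_⟩
  by_contra hnot
  have hkF : k ∈ KF a F := hW' F fun x hx => hsub (Or.inl (Or.inr hx))
  obtain ⟨w, hw⟩ := exists_VpM hG a F hFf haF r (fun h => hnot (h k hkF))
  exact hS' _ hfin (fun x hx => Or.inl (Or.inl (Or.inl hx))) (Or.inr rfl) w hw

/-- there is one element `w` which works for a cofinal family of finite subgroups -/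
theorem exists_wM {p : ℕ} [hp : Fact p.Prime] (hG : IsPGroup p G) (a : G)
    (hlf : LocFin a) (h2 : (CC a).Finite)
    (hK : ¬ Group.IsNilpotent (normalClosure ({a} : Set G))) (r : ℕ) :
    ∃ w, ∀ S : Set G, S.Finite → ∃ F : Subgroup G, S ⊆ F ∧ a ∈ F ∧ Vp a r F w := by
  by_contra hcon
  push Not at hcon
  choose S hS hS' using hcon
  have hex := exists_VpM' hG a hlf hK r
  let St := {q : Set G × G // q.1.Finite ∧ a ∈ q.1 ∧ Vp a r (closure q.1) q.2}
  have hnext : ∀ q : St, ∃ q' : St, q.1.1 ⊆ q'.1.1 ∧ S q.1.2 ⊆ q'.1.1 := by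
    rintro ⟨⟨F, w⟩, hF, haF, hV⟩
    obtain ⟨F', hF', hsub, haF', w', hw'⟩ := hex (F ∪ S w) (hF.union (hS w))
    exact ⟨⟨(F', w'), hF', haF', hw'⟩, fun x hx => hsub (Or.inl hx), fun x hx => hsub (Or.inr hx)⟩
  choose next hn1 hn2 using hnext
  obtain ⟨F0, hF0, _, haF0, w0, hw0⟩ := hex ∅ Set.finite_empty
  let q : ℕ → St := fun n => next^[n] ⟨(F0, w0), hF0, haF0, hw0⟩
  have hq : ∀ n, q (n + 1) = next (q n) := fun n => Function.iterate_succ_apply' next n _
  have hmono : Monotone (fun n => (q n).1.1) := by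
    apply monotone_nat_of_le_succ
    intro n
    show (q n).1.1 ≤ (q (n + 1)).1.1
    rw [hq]
    exact hn1 (q n)
  have hinj : Function.Injective (fun n => (q n).1.2) := by
    have hlt : ∀ n k, n < k → (q n).1.2 ≠ (q k).1.2 := by
      intro n k hnk h
      have h1 : S (q n).1.2 ⊆ ((closure (q k).1.1 : Subgroup G) : Set G) := by
        refine Set.Subset.trans (hn2 (q n)) ?_
        rw [← hq]
        exact Set.Subset.trans (hmono hnk) subset_closure
      rw [h] at h1
      exact hS' _ _ h1 (subset_closure (q k).2.2.1) (q k).2.2.2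
    intro n k h
    rcases lt_trichotomy n k with h' | h' | h'
    · exact absurd h (hlt n k h')
    · exact h'
    · exact absurd h.symm (hlt k n h')
  have hfin := range_finite a h2 (fun n => closure (q n).1.1)
    (fun i j hij => Subgroup.closure_mono (hmono hij)) (fun n => subset_closure (q n).2.2.1) (r + 2)
    (fun n => (q n).1.2) (fun n => (q n).2.2.2.tp)
  exact Set.infinite_range_of_injective hinj hfin

/-- in a locally finite `p`-group, `K = ⟨a^G⟩` is nilpotent or contains a quasicyclic subgroup -/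
theorem nilp_or_chainM {p : ℕ} [hp : Fact p.Prime] (hG : IsPGroup p G) (a : G)
    (ha : orderOf a = p)
    (hlf : LocFin a) (h2 : (CC a).Finite)
    (hK : ¬ Group.IsNilpotent (normalClosure ({a} : Set G))) :
    ∃ (B : Subgroup G) (x : ℕ → G), B.Normal ∧ (∀ x ∈ B, ∀ y ∈ B, x * y = y * x) ∧
      B ≤ normalClosure ({a} : Set G) ∧ (∀ n, ∃ z ∈ B, x n = dl a z) ∧ x 0 ≠ 1 ∧
      ∀ n, x (n + 1) ^ p = x n := by
  have hap : a ^ p = 1 := by rw [← ha]; exact pow_orderOf_eq_one a
  have hw := exists_wM hG a hlf h2 hK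
  set K := normalClosure ({a} : Set G) with hKd
  have hKn : K.Normal := inferInstance
  have haK : a ∈ K := subset_normalClosure (Set.mem_singleton a)
  -- global elements
  have hglob : ∀ r, ∃ w, w ∈ K.lowerCentralSeries (r + 1) ∧ CsP K (r + 2) w ∧
      ¬ CsP K (r + 1) w := by
    intro r
    obtain ⟨w, hw⟩ := hw r
    obtain ⟨F, _, _, hV⟩ := hw ∅ Set.finite_empty
    refine ⟨w, lcs_mono (KF_le a F) _ hV.low, ?_, fun h => hV.new (CsP_anti (KF_le a F) _ w h)⟩
    apply CsP_local
    intro S hS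
    obtain ⟨F', hF', _, hV'⟩ := hw S hS
    exact ⟨F', hF', hV'.up⟩
  -- the abelian normal subgroup
  set U : Set G := {w | ∃ m, w ∈ K.lowerCentralSeries m ∧ CsP K (m + 1) w} with hU
  have hUconj : ∀ w ∈ U, ∀ g : G, g * w * g⁻¹ ∈ U := by
    rintro w ⟨m, h1, h3⟩ g
    exact ⟨m, (lcs_normal K m).conj_mem w h1 g, (Cs_normal K (m + 1)).conj_mem w h3 g⟩
  have hUcomm : ∀ w ∈ U, ∀ v ∈ U, Commute w v := by
    have hle : ∀ m n, m ≤ n → ∀ w v, CsP K (m + 1) w → v ∈ K.lowerCentralSeries n →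
        Commute w v := by
      intro m n hmn w v h1 h3
      exact alpha_comm K m h1 (Subgroup.lowerCentralSeries_antitone K hmn h3)
    rintro w ⟨m, h1, h3⟩ v ⟨n, h4, h5⟩
    rcases le_total m n with h | h
    · exact hle m n h w v h3 h4
    · exact (hle n m h v w h5 h1).symm
  set B := normalClosure U with hB
  have hBn : B.Normal := inferInstance
  have hBcl : B = closure U := by
    apply le_antisymm
    · rw [hB]
      unfold normalClosure
      rw [closure_le]
      intro x hx
      rw [Group.mem_conjugatesOfSet_iff] at hx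
      obtain ⟨z, hz, hzx⟩ := hx
      rw [isConj_iff] at hzx
      obtain ⟨g, rfl⟩ := hzx
      exact subset_closure (hUconj z hz g)
    · rw [closure_le]; exact subset_normalClosure
  have hUB : U ⊆ B := subset_normalClosure
  have hBab : ∀ x ∈ B, ∀ y ∈ B, x * y = y * x := by
    have h1 : B ≤ centralizer U := by
      rw [hBcl, closure_le]
      intro w hw
      rw [SetLike.mem_coe, mem_centralizer_iff]
      intro v hv
      exact (hUcomm v hv w hw).eq
    have h3 : B ≤ centralizer (B : Set G) := by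
      conv_lhs => rw [hBcl]
      rw [closure_le]
      intro w hw
      rw [SetLike.mem_coe, mem_centralizer_iff]
      intro v hv
      have := h1 hv
      rw [mem_centralizer_iff] at this
      exact (this w hw).symm
    intro x hx y hy
    have := h3 hx
    rw [mem_centralizer_iff] at this
    exact (this y hy).symm
  -- `R = [B, a]`
  let R : Subgroup G :=
    { carrier := {y | ∃ x ∈ B, y = dl a x}
      mul_mem' := by
        rintro _ _ ⟨x, hx, rfl⟩ ⟨y, hy, rfl⟩
        exact ⟨x * y, mul_mem hx hy, (dl_mul B hBab a hx hy).symm⟩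
      one_mem' := ⟨1, one_mem _, (dl_one a).symm⟩
      inv_mem' := by
        rintro _ ⟨x, hx, rfl⟩
        exact ⟨x⁻¹, inv_mem hx, (dl_inv B hBab a hx).symm⟩ }
  have hRB : ∀ y ∈ R, y ∈ B := by
    rintro _ ⟨x, hx, rfl⟩
    exact dl_mem B a hx
  have hBK : B ≤ K := by
    rw [hBcl, closure_le]
    rintro w ⟨m, h1, _⟩
    exact lcs_le K m h1
  have hRinf : (R : Set G).Infinite := by
    have hy : ∀ r, ∃ y ∈ R, CsP K (r + 1) y ∧ ¬ CsP K r y := by
      intro r
      obtain ⟨w, h1, h3, h4⟩ := hglob r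
      have hg : ∃ g : G, ¬ CsP K r (a⁻¹ * cj a (g * w * g⁻¹)) := by
        by_contra hcon
        push Not at hcon
        exact h4 fun k hk => comm_normalClosure (Cs K r) a w hcon k hk
      obtain ⟨g, hg⟩ := hg
      have hxU : g * w * g⁻¹ ∈ U :=
        hUconj w ⟨r + 1, h1, h3⟩ g
      have hx3 : CsP K (r + 2) (g * w * g⁻¹) := (Cs_normal K (r + 2)).conj_mem w h3 g
      obtain ⟨x, hx⟩ : ∃ x, x = g * w * g⁻¹ := ⟨_, rfl⟩
      rw [← hx] at hg hxU hx3
      have e1 : dl a x = ⁅x⁻¹, a⁻¹⁆ := by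
        rw [commutatorElement_def]; unfold dl cj; group
      have e2 : a⁻¹ * cj a x = (dl a x)⁻¹⁻¹⁻¹ := by
        unfold dl cj; group
      refine ⟨dl a x, ⟨x, hUB hxU, rfl⟩, ?_, ?_⟩
      · rw [e1]
        exact CsP_inv K _ _ hx3 _ (inv_mem haK)
      · intro h
        apply hg
        rw [e2, inv_inv]
        exact CsP_inv K _ _ h
    choose y hyR hy1 hy2 using hy
    refine Set.infinite_of_injective_forall_mem (f := y) ?_ hyR
    have hlt : ∀ n k, n < k → y n ≠ y k := by
      intro n k hnk h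
      apply hy2 k
      rw [← h]
      exact Cs_mono K (show n + 1 ≤ k from hnk) (hy1 n)
    intro n k h
    rcases lt_trichotomy n k with h' | h' | h'
    · exact absurd h (hlt n k h')
    · exact h'
    · exact absurd h.symm (hlt k n h')
  have hS : {y : G | y ∈ R ∧ y ^ p = 1}.Finite := by
    refine (finite_S1 B hBab a hp.out hap h2).subset ?_
    rintro y ⟨h1, h3⟩
    exact ⟨h3, h1⟩
  obtain ⟨x, hx1, hx2, hx3⟩ := exists_chain hG R
    (fun x hx y hy => hBab x (hRB x hx) y (hRB y hy)) hRinf hS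
  exact ⟨B, x, hBn, hBab, hBK, hx1, hx2, hx3⟩


/-- `K = ⟨a^G⟩` is nilpotent, or its nilpotent residual contains a nontrivial divisible abelian
normal subgroup of `G` -/
theorem nilp_or_divM {p : ℕ} [hp : Fact p.Prime] (hG : IsPGroup p G) (a : G)
    (ha : orderOf a = p)
    (hlf : LocFin a) (h2 : (CC a).Finite)
    (hK : ¬ Group.IsNilpotent (normalClosure ({a} : Set G))) :
    ∃ D : Subgroup G, D.Normal ∧ D ≠ ⊥ ∧ (∀ x ∈ D, ∀ y ∈ D, x * y = y * x) ∧
      (∀ x ∈ D, ∃ y ∈ D, y ^ p = x) ∧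
      ∀ n, D ≤ (normalClosure ({a} : Set G)).lowerCentralSeries n := by
  have hap : a ^ p = 1 := by rw [← ha]; exact pow_orderOf_eq_one a
  obtain ⟨B, x, hBn, hB, hBK, hx, hx0, hxp⟩ := nilp_or_chainM hG a ha hlf h2 hK
  set K := normalClosure ({a} : Set G) with hKd
  have hKn : K.Normal := inferInstance
  have haK : a ∈ K := subset_normalClosure (Set.mem_singleton a)
  have hxB : ∀ n, x n ∈ B := by
    intro n
    obtain ⟨z, hz, hzx⟩ := hx n
    rw [hzx]
    exact dl_mem B a hz
  have hlow : ∀ n m, x m ∈ K.lowerCentralSeries n := by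
    intro n
    induction n with
    | zero => intro m; exact hBK (hxB m)
    | succ n ih =>
      intro m
      rw [← hxp m]
      obtain ⟨z, hz, hzx⟩ := hx (m + 1)
      obtain ⟨h1, _⟩ := pow_norm B hB (K.lowerCentralSeries n) (K.lowerCentralSeries (n + 1)) a
        (x (m + 1)) (hxB _) (fun j => by
          exact Subgroup.commutator_mem_commutator (ih (m + 1)) (inv_mem (pow_mem haK j))) p
      have h3 : ((List.range p).map (fun j => cj (x (m + 1)) (a ^ j))).prod = 1 := by
        rw [hzx, norm_dl, hap]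
        unfold cj; group
      rw [h3, inv_one, mul_one] at h1
      exact h1
  set D : Subgroup G := closure {y | ∃ (n : ℕ) (g : G), y = g * x n * g⁻¹} with hD
  have hDB : D ≤ B := by
    rw [hD, closure_le]
    rintro _ ⟨n, g, rfl⟩
    exact hBn.conj_mem _ (hxB n) g
  refine ⟨D, ⟨?_⟩, ?_, fun x hx y hy => hB x (hDB hx) y (hDB hy), ?_, ?_⟩
  · intro y hy g
    induction hy using closure_induction with
    | mem y h =>
      obtain ⟨n, h, rfl⟩ := h
      refine subset_closure ⟨n, g * h, ?_⟩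
      group
    | one => simp [one_mem]
    | mul y z _ _ ihy ihz =>
      have e : g * (y * z) * g⁻¹ = (g * y * g⁻¹) * (g * z * g⁻¹) := by group
      rw [e]; exact mul_mem ihy ihz
    | inv y _ ih =>
      have e : g * y⁻¹ * g⁻¹ = (g * y * g⁻¹)⁻¹ := by group
      rw [e]; exact inv_mem ih
  · intro h
    have h1 : x 0 ∈ D := subset_closure ⟨0, 1, by group⟩
    rw [h, mem_bot] at h1
    exact hx0 h1
  · intro y hy
    induction hy using closure_induction with
    | mem y h =>
      obtain ⟨n, g, rfl⟩ := h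
      refine ⟨g * x (n + 1) * g⁻¹, subset_closure ⟨n + 1, g, rfl⟩, ?_⟩
      rw [← hxp n, conj_pow]
    | one => exact ⟨1, one_mem _, one_pow p⟩
    | mul y z _ _ ihy ihz =>
      obtain ⟨u, hu, rfl⟩ := ihy
      obtain ⟨v, hv, rfl⟩ := ihz
      refine ⟨u * v, mul_mem hu hv, ?_⟩
      exact (show Commute u v from hB u (hDB hu) v (hDB hv)).mul_pow p
    | inv y _ ih =>
      obtain ⟨u, hu, rfl⟩ := ih
      exact ⟨u⁻¹, inv_mem hu, inv_pow u p⟩
  · intro n
    rw [hD, closure_le]
    rintro _ ⟨m, g, rfl⟩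
    exact (lcs_normal K n).conj_mem _ (hlow n m) g

/-- the locally finite case in which every divisible abelian normal subgroup of `G` inside the
nilpotent residual of `K` has finite rank -/
theorem case_rankM {p : ℕ} [hp : Fact p.Prime] (hG : IsPGroup p G) (a : G)
    (ha : orderOf a = p)
    (hlf : LocFin a) (h2 : (CC a).Finite)
    (hK : ∀ D : Subgroup G, D.Normal → (∀ x ∈ D, ∀ y ∈ D, x * y = y * x) →
      (∀ x ∈ D, ∃ y ∈ D, y ^ p = x) →
      (∀ n, D ≤ (normalClosure ({a} : Set G)).lowerCentralSeries n) →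
      {x : G | x ∈ D ∧ x ^ p = 1}.Finite) : center G ≠ ⊥ := by
  have ha1 : a ≠ 1 := by
    intro h
    rw [h, orderOf_one] at ha
    exact hp.out.one_lt.ne ha
  by_cases hn : Group.IsNilpotent (normalClosure ({a} : Set G))
  · exact case_nilp hG a ha1 h2 hn
  · obtain ⟨D, hDn, hD1, hDc, hDd, hDl⟩ := nilp_or_divM hG a ha hlf h2 hn
    have hfin := hK D hDn hDc hDd hDl
    intro hZ
    obtain ⟨g, hg⟩ := exists_generic hG hZ
      {s | s ∈ {x : G | x ∈ D ∧ x ^ p = 1} ×ˢ {x : G | x ∈ D ∧ x ^ p = 1} ∧ s.1 ≠ 1}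
      ((hfin.prod hfin).subset fun s hs => hs.1) (fun s hs => hs.2)
    obtain ⟨y, hy, hy1⟩ : ∃ y ∈ D, y ≠ 1 := by
      by_contra hcon
      push Not at hcon
      exact hD1 ((eq_bot_iff_forall D).2 hcon)
    obtain ⟨k, hk⟩ := hG y
    have hex : ∃ k, y ^ p ^ k = 1 := ⟨k, hk⟩
    classical
    have hk0 := Nat.find_spec hex
    have hkpos : Nat.find hex ≠ 0 := by
      intro h
      rw [h, pow_zero, pow_one] at hk0
      exact hy1 hk0
    obtain ⟨m, hm⟩ := Nat.exists_eq_succ_of_ne_zero hkpos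
    have hm1 : y ^ p ^ m ≠ 1 := Nat.find_min hex (by omega)
    have hm2 : (y ^ p ^ m) ^ p = 1 := by
      rw [← pow_mul, ← pow_succ, ← Nat.succ_eq_add_one, ← hm]; exact hk0
    refine hg (y ^ p ^ m, cj (y ^ p ^ m) g) ⟨⟨⟨pow_mem hy _, hm2⟩, ?_, ?_⟩, hm1⟩ rfl
    · exact cj_mem D g (pow_mem hy _)
    · rw [← cj_pow, hm2, cj_one]

end Pool.Agent.Helper233.Cen
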