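import Pool.Agent.Helper233.Cen.M2

/-!
# Locally residually finite groups
-/

set_option autoImplicit false

namespace Pool.Agent.Helper233.Cen

open Subgroup

variable {G : Type*} [Group G] {p : ℕ}

theorem CC_sub (H : Subgroup G) (a : G) (haH : a ∈ H) (h2 : (CC a).Finite) :
    (CC (⟨a, haH⟩ : H)).Finite := by
  refine (h2.preimage (f := (Subtype.val : H → G)) Subtype.val_injective.injOn).subset ?_
  rintro x ⟨hx1, hx2⟩
  refine ⟨congrArg Subtype.val hx1.eq, ?_⟩
  exact MonoidHom.map_isConj H.subtype hx2

theorem h1_sub (H : Subgroup G) (a : G) (haH : a ∈ H)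
    (h1 : ∀ g : G, Finite (closure ({a, cj a g} : Set G))) (k : H) :
    Finite (closure ({(⟨a, haH⟩ : H), cj (⟨a, haH⟩ : H) k} : Set H)) := by
  have hf := h1 (k : G)
  have hle : ∀ y : closure ({(⟨a, haH⟩ : H), cj (⟨a, haH⟩ : H) k} : Set H),
      ((y : H) : G) ∈ closure ({a, cj a (k : G)} : Set G) := by
    rintro ⟨y, hy⟩
    induction hy using closure_induction with
    | mem y h =>
      rcases h with rfl | h
      · exact subset_closure (Set.mem_insert _ _)
      · rw [Set.mem_singleton_iff] at h
        subst h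
        exact subset_closure (Set.mem_insert_of_mem _ rfl)
    | one => exact one_mem _
    | mul y z _ _ ihy ihz => exact mul_mem ihy ihz
    | inv y _ ih => exact inv_mem ih
  refine Finite.of_injective (fun y => (⟨_, hle y⟩ : closure ({a, cj a (k : G)} : Set G))) ?_
  intro y z hyz
  apply Subtype.ext
  apply Subtype.ext
  have h7 := congrArg (fun t : closure ({a, cj a (k : G)} : Set G) => (t : G)) hyz
  exact h7

/-- in a locally residually finite `p`-group, properties 1 and 2 imply that `a` has finitely many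
conjugates under each finitely generated subgroup -/
theorem locFin_of_locRF [hp : Fact p.Prime] (hG : IsPGroup p G) (a : G)
    (h1 : ∀ g : G, Finite (closure ({a, cj a g} : Set G)))
    (h2 : (CC a).Finite)
    (hrf : ∀ S : Set G, S.Finite → ∀ x : closure S, x ≠ 1 →
      ∃ N : Subgroup (closure S), N.Normal ∧ N.FiniteIndex ∧ x ∉ N) : LocFin a := by
  intro S hS
  have haF : a ∈ closure (S ∪ {a}) := subset_closure (Or.inr rfl)
  have h3 := rf_orbit (hG.to_subgroup (closure (S ∪ {a}))) (⟨a, haF⟩ : closure (S ∪ {a}))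
    (h1_sub _ a haF h1) (CC_sub _ a haF h2) (hrf _ (hS.union (Set.finite_singleton a)))
  refine (h3.image Subtype.val).subset ?_
  rintro _ ⟨f, hf, rfl⟩
  exact ⟨cj (⟨a, haF⟩ : closure (S ∪ {a})) ⟨f, Subgroup.closure_mono Set.subset_union_left hf⟩,
    ⟨_, rfl⟩, rfl⟩

/-- the subgroup `K = ⟨a^G⟩` has nontrivial centre -/
theorem center_K [hp : Fact p.Prime] (hG : IsPGroup p G) (a : G) (ha : a ≠ 1)
    (hlf : LocFin a) (h2 : (CC a).Finite) :
    ∃ c ∈ normalClosure ({a} : Set G), c ≠ 1 ∧
      (∀ k ∈ normalClosure ({a} : Set G), k * c = c * k) ∧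
      ∀ g : G, a⁻¹ * cj a g ∈ ⁅normalClosure ({a} : Set G), normalClosure ({a} : Set G)⁆ →
        g * c = c * g := by
  have haK : a ∈ normalClosure ({a} : Set G) := subset_normalClosure (Set.mem_singleton a)
  by_cases hnc : ∃ f, ¬ Commute f a
  · obtain ⟨c, hc1, hc⟩ := exists_cM hG a hlf h2 hnc
    refine ⟨c, ?_, hc1, ?_, ?_⟩
    · obtain ⟨F, _, u, hu⟩ := hc ∅ Set.finite_empty
      rw [← hu.com]
      exact mul_mem (inv_mem haK) (cj_mem _ u haK)
    · have hle : normalClosure ({a} : Set G) ≤ centralizer ({c} : Set G) := by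
        unfold normalClosure
        rw [closure_le]
        intro x hx
        rw [Group.mem_conjugatesOfSet_iff] at hx
        obtain ⟨z, hz, hzx⟩ := hx
        rw [Set.mem_singleton_iff] at hz
        subst hz
        obtain ⟨g, rfl⟩ := exists_cj_of_isConj hzx
        rw [SetLike.mem_coe, mem_centralizer_singleton_iff]
        exact (c_central z c hc g).eq.symm
      intro k hk
      have h := hle hk
      rw [mem_centralizer_singleton_iff] at h
      exact h
    · intro g hg
      have h := c_fixed a c hc g hg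
      have h' : g⁻¹ * c * g = c := h
      calc g * c = g * (g⁻¹ * c * g) := by rw [h']
        _ = c * g := by group
  · push Not at hnc
    exact ⟨a, haK, ha, fun k _ => (hnc k).eq, fun g _ => (hnc g).eq⟩

end Pool.Agent.Helper233.Cen
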