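import Mathlib
import Pool.Agent.Helper233.Cen.M3

/-!
# The chain argument modulo a finiteness axiom
-/

set_option autoImplicit false

namespace Pool.Agent.Helper233.Cen

open Subgroup
open scoped Pointwise commutatorElement

/-- the finiteness axiom -/
def AX {G : Type*} [Group G] (a : G) (M : Subgroup G) : Prop :=
  ∀ u : ℕ → G, (∀ n, u n ∈ M) →
    (∀ n, cj a (a⁻¹ * cj a (u n)) = cj a (a⁻¹ * cj a (u 0))) →
    (∀ n k, n < k → Commute (a⁻¹ * cj a (u k)) ((u k)⁻¹ * u n)) →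
    (Set.range fun n => a⁻¹ * cj a (u n)).Finite

theorem exists_VQ {Γ : Type*} [Group Γ] (a : Γ)
    (hΓ : ∃ n, ∀ k ∈ normalClosure ({a} : Set Γ), CsP (normalClosure ({a} : Set Γ)) n k)
    (q r : ℕ)
    (hr : ¬ ∀ k ∈ normalClosure ({a} : Set Γ),
      CsP (normalClosure ({a} : Set Γ)) (q + 1 + (r + 1)) k) :
    ∃ w u : Γ, w = a⁻¹ * cj a u ∧ u ∈ (normalClosure ({a} : Set Γ)).lowerCentralSeries q ∧
      CsP (normalClosure ({a} : Set Γ)) (r + 2) w ∧
      ¬ CsP (normalClosure ({a} : Set Γ)) (r + 1) w := by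
  set H := normalClosure ({a} : Set Γ) with hH
  have haH : a ∈ H := subset_normalClosure (Set.mem_singleton a)
  have hnorm : ∀ n, (H.lowerCentralSeries n).Normal := fun n => lcs_normal H n
  have hu : ∃ u ∈ H.lowerCentralSeries q, ¬ CsP H (r + 1) (a⁻¹ * cj a u) := by
    by_contra hcon
    push Not at hcon
    apply hr
    have hle : H.lowerCentralSeries (q + 1) ≤ Cs H (r + 1) := by
      rw [Subgroup.lowerCentralSeries_succ, commutator_le]
      intro u hu k hk
      exact comm_normalClosure (Cs H (r + 1)) a u (fun g => hcon _ ((hnorm q).conj_mem u hu g)) k hk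
    have hall : ∀ j, j ≤ q + 1 → ∀ x ∈ H.lowerCentralSeries (q + 1 - j), CsP H (j + (r + 1)) x := by
      intro j
      induction j with
      | zero => intro _ x hx; rw [zero_add]; exact hle hx
      | succ j ih =>
        intro hj x hx
        have e : j + 1 + (r + 1) = (j + (r + 1)) + 1 := by ring
        rw [e]
        intro k hk
        apply ih (by omega)
        have e2 : q + 1 - j = (q + 1 - (j + 1)) + 1 := by omega
        rw [e2, Subgroup.lowerCentralSeries_succ]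
        exact commutator_mem_commutator hx hk
    intro k hk
    exact hall (q + 1) le_rfl k (by rw [Nat.sub_self]; exact hk)
  obtain ⟨u0, hu0, hu0'⟩ := hu
  obtain ⟨n, hn⟩ := hΓ
  have hlcs : H.lowerCentralSeries q ≤ H := lcs_le H q
  have hex : ∃ n, ∃ u ∈ H.lowerCentralSeries q, CsP H n u ∧
      ¬ CsP H (r + 1) (a⁻¹ * cj a u) := ⟨n, u0, hu0, hn _ (hlcs hu0), hu0'⟩
  classical
  obtain ⟨u, hur, huZ, huC⟩ := Nat.find_spec hex
  have hne : Nat.find hex ≠ 0 := by
    intro h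
    rw [h] at huZ
    have huZ1 : u = 1 := huZ
    apply huC
    rw [huZ1]
    have : a⁻¹ * cj a 1 = 1 := by unfold cj; group
    rw [this]
    exact CsP_one H _
  obtain ⟨m, hm⟩ := Nat.exists_eq_succ_of_ne_zero hne
  have hmin : ∀ u' ∈ H.lowerCentralSeries q, CsP H m u' →
      CsP H (r + 1) (a⁻¹ * cj a u') := by
    intro u' h1 h2
    have := Nat.find_min hex (m := m) (by omega)
    push Not at this
    exact this u' h1 h2
  rw [hm, Nat.succ_eq_add_one] at huZ
  have e1 : a⁻¹ * cj a u = ⁅u⁻¹, a⁻¹⁆⁻¹ := by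
    rw [commutatorElement_def]; unfold cj; group
  have hwZ : CsP H m (a⁻¹ * cj a u) := by
    rw [e1]
    exact CsP_inv H m _ (CsP_inv H (m + 1) _ huZ _ (inv_mem haH))
  have hwL : a⁻¹ * cj a u ∈ H.lowerCentralSeries (q + 1) := by
    rw [e1, Subgroup.lowerCentralSeries_succ]
    exact inv_mem (commutator_mem_commutator (inv_mem hur) (inv_mem haH))
  refine ⟨a⁻¹ * cj a u, u, rfl, hur, ?_, huC⟩
  intro k hk
  refine comm_normalClosure (Cs H (r + 1)) a _ (fun g => ?_) k hk
  apply hmin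
  · exact (hnorm q).conj_mem _ (Subgroup.lowerCentralSeries_antitone H (Nat.le_succ q) hwL) g
  · exact (Cs_normal H m).conj_mem _ hwZ g

variable {G : Type*} [Group G]

/-- the property of the element `u` relative to the subgroup `F` -/
structure Vq (a : G) (q r : ℕ) (F : Subgroup G) (u : G) : Prop where
  low : u ∈ (KF a F).lowerCentralSeries q
  up : CsP (KF a F) (r + 2) (a⁻¹ * cj a u)
  new : ¬ CsP (KF a F) (r + 1) (a⁻¹ * cj a u)

theorem exists_Vq {p : ℕ} [hp : Fact p.Prime] (hG : IsPGroup p G) (a : G) (F : Subgroup G)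
    (hF : {x | ∃ f ∈ F, x = cj a f}.Finite) (haF : a ∈ F) (q r : ℕ)
    (hr : ¬ ∀ k ∈ KF a F, CsP (KF a F) (q + 1 + (r + 1)) k) :
    ∃ u, Vq a q r F u := by
  have hK := KF_eq a F haF
  have hnilK : ∃ n, ∀ k ∈ KF a F, CsP (KF a F) n k := exists_CsP hG a F hF haF
  obtain ⟨w, u, hw, hw1, hw2, hw3⟩ := exists_VQ (⟨a, haF⟩ : F) (by
    obtain ⟨n, hn⟩ := hnilK
    refine ⟨n, fun k hk => ?_⟩
    rw [CsP_map, hK]
    apply hn
    rw [← hK]
    exact ⟨k, hk, rfl⟩) q r (by
    intro h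
    apply hr
    intro k hk
    rw [← hK] at hk ⊢
    obtain ⟨k', hk', rfl⟩ := hk
    exact (CsP_map F _ _ k').1 (h k' hk'))
  have e : (w : G) = a⁻¹ * cj a (u : G) := by
    rw [hw]; rfl
  refine ⟨u, ?_, ?_, ?_⟩
  · rw [← hK, ← Subgroup.map_lowerCentralSeries]
    exact ⟨u, hw1, rfl⟩
  · rw [← hK, ← e]; exact (CsP_map F _ _ w).1 hw2
  · rw [← hK, ← e]; intro h; exact hw3 ((CsP_map F _ _ w).2 h)

theorem exists_Vq' {p : ℕ} [hp : Fact p.Prime] (hG : IsPGroup p G) (a : G)
    (hlf : LocFin a)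
    (hK : ¬ Group.IsNilpotent (normalClosure ({a} : Set G))) (q r : ℕ) :
    ∀ S : Set G, S.Finite → ∃ T : Set G, T.Finite ∧ S ⊆ T ∧ a ∈ T ∧
      ∃ u, Vq a q r (closure T) u := by
  by_contra hcon
  push Not at hcon
  obtain ⟨S, hS, hS'⟩ := hcon
  apply hK
  apply nilpotent_of_CsP _ (q + 1 + (r + 1))
  intro k hk
  apply CsP_local
  intro T hT
  obtain ⟨W, hW, hW'⟩ := mem_KF_of_mem a k hk
  have hfin : (S ∪ T ∪ W ∪ {a}).Finite := ((hS.union hT).union hW).union (Set.finite_singleton a)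
  set F := closure (S ∪ T ∪ W ∪ {a}) with hF
  have hsub : S ∪ T ∪ W ∪ {a} ⊆ (F : Set G) := subset_closure
  have haF : a ∈ F := hsub (Or.inr rfl)
  have hFf := hlf _ hfin
  refine ⟨F, fun x hx => hsub (Or.inl (Or.inl (Or.inr hx))), ?_⟩
  by_contra hnot
  have hkF : k ∈ KF a F := hW' F fun x hx => hsub (Or.inl (Or.inr hx))
  obtain ⟨u, hu⟩ := exists_Vq hG a F hFf haF q r (fun h => hnot (h k hkF))
  exact hS' _ hfin (fun x hx => Or.inl (Or.inl (Or.inl hx))) (Or.inr rfl) u hu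

/-- the property used in the finiteness argument -/
def Tq (a : G) (M F : Subgroup G) : ℕ → G → Prop
  | 0, u => a⁻¹ * cj a u = 1
  | m + 1, u => u ∈ M ∧ u ∈ (KF a F).lowerCentralSeries m ∧
      CsP (KF a F) (m + 1) (a⁻¹ * cj a u)

theorem Tq_step (a : G) (M F : Subgroup G) [hM : M.Normal] (haF : a ∈ F) (m : ℕ) (u : G)
    (h : Tq a M F (m + 1) u) : Tq a M F m (a⁻¹ * cj a u) := by
  obtain ⟨hM', h1, h2⟩ := h
  have haK : a ∈ KF a F := subset_closure ⟨1, F.one_mem, by unfold cj; group⟩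
  have e0 : a⁻¹ * cj a u = ⁅u⁻¹, a⁻¹⁆⁻¹ := by
    rw [commutatorElement_def]; unfold cj; group
  have hwL : a⁻¹ * cj a u ∈ (KF a F).lowerCentralSeries (m + 1) := by
    rw [e0, Subgroup.lowerCentralSeries_succ]
    exact inv_mem (commutator_mem_commutator (inv_mem h1) (inv_mem haK))
  have hwM : a⁻¹ * cj a u ∈ M := by
    have e : a⁻¹ * cj a u = (a⁻¹ * u⁻¹ * a⁻¹⁻¹) * u := by unfold cj; group
    rw [e]
    exact mul_mem (hM.conj_mem _ (inv_mem hM') _) hM'
  obtain ⟨w, hw⟩ : ∃ w, w = a⁻¹ * cj a u := ⟨_, rfl⟩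
  rw [← hw] at h2 hwL hwM ⊢
  have hwK : w ∈ KF a F := lcs_le _ (m + 1) hwL
  have e2 : a⁻¹ * cj a w = w⁻¹ * ⁅w, a⁻¹⁆ * w := by
    rw [commutatorElement_def]; unfold cj; group
  have h3 : CsP (KF a F) m (a⁻¹ * cj a w) := by
    rw [e2]
    exact CsP_conj (fun k hk => mul_mem (mul_mem hwK hk) (inv_mem hwK)) m _ (h2 _ (inv_mem haK))
  cases m with
  | zero => exact h3
  | succ m =>
    exact ⟨hwM, Subgroup.lowerCentralSeries_antitone (KF a F) (show m ≤ m + 1 + 1 by omega) hwL, h3⟩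

theorem range_finiteQ (a : G) (M : Subgroup G) [hM : M.Normal] (hAX : AX a M)
    (F : ℕ → Subgroup G) (hF : Monotone F)
    (haF : ∀ n, a ∈ F n) (i : ℕ) : ∀ u : ℕ → G, (∀ n, Tq a M (F n) i (u n)) →
      (Set.range fun n => a⁻¹ * cj a (u n)).Finite := by
  induction i with
  | zero =>
    intro u hu
    refine (Set.finite_singleton (1 : G)).subset ?_
    rintro _ ⟨n, rfl⟩
    exact hu n
  | succ m ih =>
    intro u hu
    have hv := ih (fun n => a⁻¹ * cj a (u n)) (fun n => Tq_step a M (F n) (haF n) m _ (hu n))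
    have hsub : (Set.range fun n => a⁻¹ * cj a (u n)) ⊆
        ⋃ v ∈ Set.range (fun n => a⁻¹ * cj a (a⁻¹ * cj a (u n))),
        (fun n => a⁻¹ * cj a (u n)) '' {n | a⁻¹ * cj a (a⁻¹ * cj a (u n)) = v} := by
      rintro _ ⟨n, rfl⟩
      rw [Set.mem_iUnion₂]
      exact ⟨_, ⟨n, rfl⟩, n, rfl, rfl⟩
    refine (hv.biUnion ?_).subset hsub
    intro v _
    rcases Set.finite_or_infinite {n | a⁻¹ * cj a (a⁻¹ * cj a (u n)) = v} with hN | hN
    · exact hN.image _
    · have hcomm : ∀ n k, n < k → Commute (a⁻¹ * cj a (u k)) ((u k)⁻¹ * u n) := by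
        intro n k hnk
        have h1 : u n ∈ (KF a (F k)).lowerCentralSeries m :=
          lcs_mono (KF_mono a (hF hnk.le)) m (hu n).2.1
        have h2 := (hu k).2.1
        have haK : a ∈ KF a (F k) := subset_closure ⟨1, (F k).one_mem, by unfold cj; group⟩
        have hwF : a⁻¹ * cj a (u k) ∈ F k := by
          apply KF_le_F a _ (haF k)
          have huK := lcs_le _ m h2
          unfold cj
          exact mul_mem (inv_mem haK) (mul_mem (mul_mem (inv_mem huK) haK) huK)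
        exact alpha_F a (F k) (haF k) m hwF (hu k).2.2 (mul_mem (inv_mem h2) h1)
      have : Infinite {n | a⁻¹ * cj a (a⁻¹ * cj a (u n)) = v} := hN.to_subtype
      classical
      set φ := Nat.orderEmbeddingOfSet {n | a⁻¹ * cj a (a⁻¹ * cj a (u n)) = v} with hφ
      have hφm : ∀ n, a⁻¹ * cj a (a⁻¹ * cj a (u (φ n))) = v := by
        intro n
        have h0 : φ n ∈ Set.range φ := Set.mem_range_self n
        rw [hφ, Nat.orderEmbeddingOfSet_range] at h0
        exact h0
      have hfin := hAX (fun n => u (φ n)) (fun n => (hu _).1) (fun n => by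
        have := (hφm n).trans (hφm 0).symm
        exact mul_left_cancel this) (fun n k hnk => hcomm _ _ (φ.lt_iff_lt.2 hnk))
      refine hfin.subset ?_
      rintro _ ⟨n, hn, rfl⟩
      have hr : n ∈ Set.range φ := by
        rw [hφ, Nat.orderEmbeddingOfSet_range]
        exact hn
      obtain ⟨k, rfl⟩ := hr
      exact ⟨k, rfl⟩

/-- there is one element `w` which works for a cofinal family of finite subgroups -/
theorem exists_wQ {p : ℕ} [hp : Fact p.Prime] (hG : IsPGroup p G) (a : G)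
    (hlf : LocFin a) (M : Subgroup G) [hM : M.Normal] (hAX : AX a M)
    (hK : ¬ Group.IsNilpotent (normalClosure ({a} : Set G))) (s : ℕ)
    (hs : (normalClosure ({a} : Set G)).lowerCentralSeries s ≤ M) (r : ℕ) :
    ∃ w, ∀ S : Set G, S.Finite → ∃ F : Subgroup G, S ⊆ F ∧ a ∈ F ∧
      ∃ u, Vq a (r + 1 + s) r F u ∧ w = a⁻¹ * cj a u := by
  by_contra hcon
  push Not at hcon
  choose S hS hS' using hcon
  have hex := exists_Vq' hG a hlf hK (r + 1 + s) r
  let St := {q : Set G × G // q.1.Finite ∧ a ∈ q.1 ∧ Vq a (r + 1 + s) r (closure q.1) q.2}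
  have hnext : ∀ q : St, ∃ q' : St, q.1.1 ⊆ q'.1.1 ∧ S (a⁻¹ * cj a q.1.2) ⊆ q'.1.1 := by
    rintro ⟨⟨F, u⟩, hF, haF, hV⟩
    obtain ⟨F', hF', hsub, haF', u', hu'⟩ :=
      hex (F ∪ S (a⁻¹ * cj a u)) (hF.union (hS (a⁻¹ * cj a u)))
    exact ⟨⟨(F', u'), hF', haF', hu'⟩, fun x hx => hsub (Or.inl hx), fun x hx => hsub (Or.inr hx)⟩
  choose next hn1 hn2 using hnext
  obtain ⟨F0, hF0, _, haF0, u0, hu0⟩ := hex ∅ Set.finite_empty
  let q : ℕ → St := fun n => next^[n] ⟨(F0, u0), hF0, haF0, hu0⟩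
  have hq : ∀ n, q (n + 1) = next (q n) := fun n => Function.iterate_succ_apply' next n _
  have hmono : Monotone (fun n => (q n).1.1) := by
    apply monotone_nat_of_le_succ
    intro n
    show (q n).1.1 ≤ (q (n + 1)).1.1
    rw [hq]
    exact hn1 (q n)
  have hinj : Function.Injective (fun n => a⁻¹ * cj a (q n).1.2) := by
    have hlt : ∀ n k, n < k → a⁻¹ * cj a (q n).1.2 ≠ a⁻¹ * cj a (q k).1.2 := by
      intro n k hnk h
      have h1 : S (a⁻¹ * cj a (q n).1.2) ⊆ ((closure (q k).1.1 : Subgroup G) : Set G) := by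
        refine Set.Subset.trans (hn2 (q n)) ?_
        rw [← hq]
        exact Set.Subset.trans (hmono hnk) subset_closure
      rw [h] at h1
      exact hS' _ _ h1 (subset_closure (q k).2.2.1) (q k).1.2 (q k).2.2.2 rfl
    intro n k h
    rcases lt_trichotomy n k with h' | h' | h'
    · exact absurd h (hlt n k h')
    · exact h'
    · exact absurd h.symm (hlt k n h')
  have hfin := range_finiteQ a M hAX (fun n => closure (q n).1.1)
    (fun i j hij => Subgroup.closure_mono (hmono hij)) (fun n => subset_closure (q n).2.2.1) (r + 2)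
    (fun n => (q n).1.2) (fun n => by
      have hV := (q n).2.2.2
      refine ⟨hs (lcs_mono (KF_le a _) s
        (Subgroup.lowerCentralSeries_antitone _ (by omega) hV.low)),
        Subgroup.lowerCentralSeries_antitone _ (by omega) hV.low, hV.up⟩)
  exact Set.infinite_range_of_injective hinj hfin

end Pool.Agent.Helper233.Cen
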