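import Mathlib
import Pool.Agent.Helper233.Cen.M4

set_option autoImplicit false

namespace Pool.Agent.Helper233.Cen

open Subgroup
open scoped Pointwise commutatorElement

variable {G : Type*} [Group G]

theorem finite_EE' (A : Subgroup G) [A.Normal] (hA : ∀ x ∈ A, ∀ y ∈ A, x * y = y * x) (a : G)
    (p : ℕ) (hfix : {y : G | (∃ x ∈ A, y = dl a x) ∧ dl a y = 1}.Finite) (j : ℕ) :
    (EE A a p j).Finite := by
  induction j with
  | zero =>
    refine (Set.finite_singleton (1 : G)).subset ?_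
    rintro y ⟨_, _, h⟩
    exact h
  | succ j ih =>
    have hsub : EE A a p (j + 1) ⊆ ⋃ z ∈ EE A a p j, {y | y ∈ EE A a p (j + 1) ∧ dl a y = z} := by
      intro y hy
      rw [Set.mem_iUnion₂]
      obtain ⟨h1, ⟨x, hx, hxy⟩, h3⟩ := hy
      have hyA : y ∈ A := by rw [hxy]; exact dl_mem A a hx
      refine ⟨dl a y, ⟨?_, ⟨y, hyA, rfl⟩, ?_⟩, ⟨h1, ⟨x, hx, hxy⟩, h3⟩, rfl⟩
      · rw [← dl_pow A hA a hyA, h1, dl_one]
      · rw [← Function.iterate_succ_apply]; exact h3
    refine (ih.biUnion fun z _ => ?_).subset hsub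
    rcases Set.eq_empty_or_nonempty {y | y ∈ EE A a p (j + 1) ∧ dl a y = z} with he | ⟨y0, hy0, hy0z⟩
    · rw [he]; exact Set.finite_empty
    · refine (hfix.image (fun y => y0 * y)).subset ?_
      rintro y ⟨hy, hyz⟩
      obtain ⟨h1, ⟨x, hx, hxy⟩, h3⟩ := hy
      obtain ⟨k1, ⟨x0, hx0, hxy0⟩, k3⟩ := hy0
      have hyA : y ∈ A := by rw [hxy]; exact dl_mem A a hx
      have hyA0 : y0 ∈ A := by rw [hxy0]; exact dl_mem A a hx0
      refine ⟨y0⁻¹ * y, ⟨⟨x0⁻¹ * x, A.mul_mem (A.inv_mem hx0) hx, ?_⟩, ?_⟩, by group⟩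
      · rw [dl_mul A hA a (A.inv_mem hx0) hx, dl_inv A hA a hx0, ← hxy0, ← hxy]
      · rw [dl_mul A hA a (A.inv_mem hyA0) hyA, dl_inv A hA a hyA0, hyz, hy0z, inv_mul_cancel]

theorem finite_S1' (A : Subgroup G) [A.Normal] (hA : ∀ x ∈ A, ∀ y ∈ A, x * y = y * x) (a : G)
    {p : ℕ} (hp : p.Prime) (hap : a ^ p = 1)
    (hfix : {y : G | (∃ x ∈ A, y = dl a x) ∧ dl a y = 1}.Finite) :
    {y : G | y ^ p = 1 ∧ ∃ x ∈ A, y = dl a x}.Finite := by
  refine (finite_EE' A hA a p hfix p).subset ?_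
  rintro y ⟨h1, x, hx, hxy⟩
  refine ⟨h1, ⟨x, hx, hxy⟩, ?_⟩
  exact dl_iter A hA a hp hap (by rw [hxy]; exact dl_mem A a hx) h1

theorem chainQ {p : ℕ} [hp : Fact p.Prime] (hG : IsPGroup p G) (a : G)
    (hap : a ^ p = 1) (hlf : LocFin a) (M : Subgroup G) [hM : M.Normal] (hAX : AX a M)
    (hK : ¬ Group.IsNilpotent (normalClosure ({a} : Set G))) (s : ℕ)
    (hs : (normalClosure ({a} : Set G)).lowerCentralSeries s ≤ M) :
    ∃ (B : Subgroup G) (x : ℕ → G), B.Normal ∧ (∀ x ∈ B, ∀ y ∈ B, x * y = y * x) ∧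
      B ≤ normalClosure ({a} : Set G) ∧ B ≤ M ∧ (∀ n, ∃ z ∈ B, x n = dl a z) ∧ x 0 ≠ 1 ∧
      ∀ n, x (n + 1) ^ p = x n := by
  have hw := exists_wQ hG a hlf M hAX hK s hs
  set K := normalClosure ({a} : Set G) with hKd
  have hKn : K.Normal := inferInstance
  have haK : a ∈ K := subset_normalClosure (Set.mem_singleton a)
  -- global elements
  have hglob : ∀ r, ∃ w, w ∈ K.lowerCentralSeries (r + 1 + s) ∧ CsP K (r + 2) w ∧
      ¬ CsP K (r + 1) w := by
    intro r
    obtain ⟨w, hw⟩ := hw r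
    obtain ⟨F, _, haF, u, hV, hwu⟩ := hw ∅ Set.finite_empty
    have hwL : w ∈ (KF a F).lowerCentralSeries (r + 1 + s) := by
      have haKF : a ∈ KF a F := subset_closure ⟨1, F.one_mem, by unfold cj; group⟩
      have e0 : a⁻¹ * cj a u = ⁅u⁻¹, a⁻¹⁆⁻¹ := by
        rw [commutatorElement_def]; unfold cj; group
      have h1 : w ∈ (KF a F).lowerCentralSeries (r + 1 + s + 1) := by
        rw [hwu, e0, Subgroup.lowerCentralSeries_succ]
        exact inv_mem (commutator_mem_commutator (inv_mem hV.low) (inv_mem haKF))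
      exact Subgroup.lowerCentralSeries_antitone _ (by omega) h1
    refine ⟨w, lcs_mono (KF_le a F) _ hwL, ?_, fun h => hV.new (by
      rw [← hwu]; exact CsP_anti (KF_le a F) _ w h)⟩
    apply CsP_local
    intro S hS
    obtain ⟨F', hF', _, u', hV', hwu'⟩ := hw S hS
    exact ⟨F', hF', by rw [hwu']; exact hV'.up⟩
  -- the abelian normal subgroup
  set U : Set G := {w | ∃ m, s ≤ m ∧ w ∈ K.lowerCentralSeries m ∧ CsP K (m + 1) w} with hU
  have hUconj : ∀ w ∈ U, ∀ g : G, g * w * g⁻¹ ∈ U := by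
    rintro w ⟨m, hm, h1, h3⟩ g
    exact ⟨m, hm, (lcs_normal K m).conj_mem w h1 g, (Cs_normal K (m + 1)).conj_mem w h3 g⟩
  have hUcomm : ∀ w ∈ U, ∀ v ∈ U, Commute w v := by
    have hle : ∀ m n, m ≤ n → ∀ w v, CsP K (m + 1) w → v ∈ K.lowerCentralSeries n →
        Commute w v := by
      intro m n hmn w v h1 h3
      exact alpha_comm K m h1 (Subgroup.lowerCentralSeries_antitone K hmn h3)
    rintro w ⟨m, _, h1, h3⟩ v ⟨n, _, h4, h5⟩
    rcases le_total m n with h | h
    · exact hle m n h w v h3 h4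
    · exact (hle n m h v w h5 h1).symm
  set B := normalClosure U with hB
  have hBn : B.Normal := inferInstance
  have hBcl : B = closure U := by
    apply le_antisymm
    · rw [hB]
      unfold normalClosure
      rw [closure_le]
      intro x hx
      rw [Group.mem_conjugatesOfSet_iff] at hx
      obtain ⟨z, hz, hzx⟩ := hx
      rw [isConj_iff] at hzx
      obtain ⟨g, rfl⟩ := hzx
      exact subset_closure (hUconj z hz g)
    · rw [closure_le]; exact subset_normalClosure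
  have hUB : U ⊆ B := subset_normalClosure
  have hBab : ∀ x ∈ B, ∀ y ∈ B, x * y = y * x := by
    have h1 : B ≤ centralizer U := by
      rw [hBcl, closure_le]
      intro w hw
      rw [SetLike.mem_coe, mem_centralizer_iff]
      intro v hv
      exact (hUcomm v hv w hw).eq
    have h3 : B ≤ centralizer (B : Set G) := by
      conv_lhs => rw [hBcl]
      rw [closure_le]
      intro w hw
      rw [SetLike.mem_coe, mem_centralizer_iff]
      intro v hv
      have := h1 hv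
      rw [mem_centralizer_iff] at this
      exact (this w hw).symm
    intro x hx y hy
    have := h3 hx
    rw [mem_centralizer_iff] at this
    exact (this y hy).symm
  -- `R = [B, a]`
  let R : Subgroup G :=
    { carrier := {y | ∃ x ∈ B, y = dl a x}
      mul_mem' := by
        rintro _ _ ⟨x, hx, rfl⟩ ⟨y, hy, rfl⟩
        exact ⟨x * y, mul_mem hx hy, (dl_mul B hBab a hx hy).symm⟩
      one_mem' := ⟨1, one_mem _, (dl_one a).symm⟩
      inv_mem' := by
        rintro _ ⟨x, hx, rfl⟩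
        exact ⟨x⁻¹, inv_mem hx, (dl_inv B hBab a hx).symm⟩ }
  have hRB : ∀ y ∈ R, y ∈ B := by
    rintro _ ⟨x, hx, rfl⟩
    exact dl_mem B a hx
  have hBK : B ≤ K := by
    rw [hBcl, closure_le]
    rintro w ⟨m, _, h1, _⟩
    exact lcs_le K m h1
  have hBM : B ≤ M := by
    rw [hBcl, closure_le]
    rintro w ⟨m, hm, h1, _⟩
    exact hs (Subgroup.lowerCentralSeries_antitone K hm h1)
  have hRinf : (R : Set G).Infinite := by
    have hy : ∀ r, s ≤ r + 1 → ∃ y ∈ R, CsP K (r + 1) y ∧ ¬ CsP K r y := by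
      intro r hsr
      obtain ⟨w, h1, h3, h4⟩ := hglob r
      have hg : ∃ g : G, ¬ CsP K r (a⁻¹ * cj a (g * w * g⁻¹)) := by
        by_contra hcon
        push Not at hcon
        exact h4 fun k hk => comm_normalClosure (Cs K r) a w hcon k hk
      obtain ⟨g, hg⟩ := hg
      have hxU : g * w * g⁻¹ ∈ U :=
        hUconj w ⟨r + 1, hsr, Subgroup.lowerCentralSeries_antitone K (by omega) h1, h3⟩ g
      have hx3 : CsP K (r + 2) (g * w * g⁻¹) := (Cs_normal K (r + 2)).conj_mem w h3 g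
      obtain ⟨x, hx⟩ : ∃ x, x = g * w * g⁻¹ := ⟨_, rfl⟩
      rw [← hx] at hg hxU hx3
      have e1 : dl a x = ⁅x⁻¹, a⁻¹⁆ := by
        rw [commutatorElement_def]; unfold dl cj; group
      have e2 : a⁻¹ * cj a x = (dl a x)⁻¹⁻¹⁻¹ := by
        unfold dl cj; group
      refine ⟨dl a x, ⟨x, hUB hxU, rfl⟩, ?_, ?_⟩
      · rw [e1]
        exact CsP_inv K _ _ hx3 _ (inv_mem haK)
      · intro h
        apply hg
        rw [e2, inv_inv]
        exact CsP_inv K _ _ h
    have hy' : ∀ r, ∃ y ∈ R, CsP K (r + s + 1) y ∧ ¬ CsP K (r + s) y := fun r =>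
      hy (r + s) (by omega)
    choose y hyR hy1 hy2 using hy'
    refine Set.infinite_of_injective_forall_mem (f := y) ?_ hyR
    have hlt : ∀ n k, n < k → y n ≠ y k := by
      intro n k hnk h
      apply hy2 k
      rw [← h]
      exact Cs_mono K (show n + s + 1 ≤ k + s by omega) (hy1 n)
    intro n k h
    rcases lt_trichotomy n k with h' | h' | h'
    · exact absurd h (hlt n k h')
    · exact h'
    · exact absurd h.symm (hlt k n h')
  have hfix : {y : G | (∃ x ∈ B, y = dl a x) ∧ dl a y = 1}.Finite := by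
    by_contra hinf
    have hinf' : Set.Infinite {y : G | (∃ x ∈ B, y = dl a x) ∧ dl a y = 1} := hinf
    obtain ⟨y, hy⟩ : ∃ y : ℕ → G, Function.Injective y ∧
        ∀ n, y n ∈ {y : G | (∃ x ∈ B, y = dl a x) ∧ dl a y = 1} := by
      have e := hinf'.natEmbedding
      exact ⟨fun n => (e n : G), fun i j h => e.injective (Subtype.ext h), fun n => (e n).2⟩
    obtain ⟨hyi, hyS⟩ := hy
    choose u hu hyu using fun n => (hyS n).1
    have hwy : ∀ n, a⁻¹ * cj a (u n) = (y n)⁻¹ := by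
      intro n
      rw [hyu n]
      unfold dl cj; group
    have hca : ∀ n, cj a (a⁻¹ * cj a (u n)) = a := by
      intro n
      rw [hwy n]
      have h1 : dl a (y n) = 1 := (hyS n).2
      have h3 : a⁻¹ * y n * a = y n := by
        have h4 : (y n)⁻¹ * (a⁻¹ * y n * a) = 1 := h1
        exact (inv_mul_eq_one.1 h4).symm
      unfold cj
      calc (y n)⁻¹⁻¹ * a * (y n)⁻¹ = a * (a⁻¹ * y n * a) * (y n)⁻¹ := by group
        _ = a := by rw [h3]; group
    have hfin := hAX u (fun n => hBM (hu n)) (fun n => by rw [hca, hca]) (fun n k _ => by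
      rw [hwy k]
      have hyB : (y k)⁻¹ ∈ B := by
        rw [hyu k]; exact inv_mem (dl_mem B a (hu k))
      exact hBab _ hyB _ (mul_mem (inv_mem (hu k)) (hu n)))
    refine Set.infinite_range_of_injective (f := fun n => a⁻¹ * cj a (u n)) ?_ hfin
    intro i j h
    have h' : a⁻¹ * cj a (u i) = a⁻¹ * cj a (u j) := h
    rw [hwy, hwy] at h'
    exact hyi (inv_injective h')
  have hS : {y : G | y ∈ R ∧ y ^ p = 1}.Finite := by
    refine (finite_S1' B hBab a hp.out hap hfix).subset ?_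
    rintro y ⟨h1, h3⟩
    exact ⟨h3, h1⟩
  obtain ⟨x, hx1, hx2, hx3⟩ := exists_chain hG R
    (fun x hx y hy => hBab x (hRB x hx) y (hRB y hy)) hRinf hS
  exact ⟨B, x, hBn, hBab, hBK, hBM, hx1, hx2, hx3⟩

/-- `K` is nilpotent, or there is a nontrivial divisible abelian normal subgroup in `K ⊓ M` -/
theorem nilp_or_divQ {p : ℕ} [hp : Fact p.Prime] (hG : IsPGroup p G) (a : G)
    (hap : a ^ p = 1) (hlf : LocFin a) (M : Subgroup G) [hM : M.Normal] (hAX : AX a M)
    (hK : ¬ Group.IsNilpotent (normalClosure ({a} : Set G))) (s : ℕ)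
    (hs : (normalClosure ({a} : Set G)).lowerCentralSeries s ≤ M) :
    ∃ D : Subgroup G, D.Normal ∧ D ≠ ⊥ ∧ (∀ x ∈ D, ∀ y ∈ D, x * y = y * x) ∧
      (∀ x ∈ D, ∃ y ∈ D, y ^ p = x) ∧ D ≤ normalClosure ({a} : Set G) ∧ D ≤ M := by
  obtain ⟨B, x, hBn, hB, hBK, hBM, hx, hx0, hxp⟩ := chainQ hG a hap hlf M hAX hK s hs
  have hxB : ∀ n, x n ∈ B := by
    intro n
    obtain ⟨z, hz, hzx⟩ := hx n
    rw [hzx]
    exact dl_mem B a hz
  set D : Subgroup G := closure {y | ∃ (n : ℕ) (g : G), y = g * x n * g⁻¹} with hD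
  have hDB : D ≤ B := by
    rw [hD, closure_le]
    rintro _ ⟨n, g, rfl⟩
    exact hBn.conj_mem _ (hxB n) g
  refine ⟨D, ⟨?_⟩, ?_, fun x hx y hy => hB x (hDB hx) y (hDB hy), ?_, hDB.trans hBK,
    hDB.trans hBM⟩
  · intro y hy g
    induction hy using closure_induction with
    | mem y h =>
      obtain ⟨n, h, rfl⟩ := h
      refine subset_closure ⟨n, g * h, ?_⟩
      group
    | one => simp [one_mem]
    | mul y z _ _ ihy ihz =>
      have e : g * (y * z) * g⁻¹ = (g * y * g⁻¹) * (g * z * g⁻¹) := by group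
      rw [e]; exact mul_mem ihy ihz
    | inv y _ ih =>
      have e : g * y⁻¹ * g⁻¹ = (g * y * g⁻¹)⁻¹ := by group
      rw [e]; exact inv_mem ih
  · intro h
    have h1 : x 0 ∈ D := subset_closure ⟨0, 1, by group⟩
    rw [h, mem_bot] at h1
    exact hx0 h1
  · intro y hy
    induction hy using closure_induction with
    | mem y h =>
      obtain ⟨n, g, rfl⟩ := h
      refine ⟨g * x (n + 1) * g⁻¹, subset_closure ⟨n + 1, g, rfl⟩, ?_⟩
      rw [← hxp n, conj_pow]
    | one => exact ⟨1, one_mem _, one_pow p⟩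
    | mul y z _ _ ihy ihz =>
      obtain ⟨u, hu, rfl⟩ := ihy
      obtain ⟨v, hv, rfl⟩ := ihz
      refine ⟨u * v, mul_mem hu hv, ?_⟩
      exact (show Commute u v from hB u (hDB hu) v (hDB hv)).mul_pow p
    | inv y _ ih =>
      obtain ⟨u, hu, rfl⟩ := ih
      exact ⟨u⁻¹, inv_mem hu, inv_pow u p⟩

end Pool.Agent.Helper233.Cen
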