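import Mathlib
import Pool.Agent.Helper233.Cen.M5
import Pool.Agent.Helper233.Cen.Z.A5
import Pool.Agent.Helper233.Cen.Z.B2
import Pool.Agent.Helper233.Cen.Z.JW
import Pool.Agent.Helper233.Cen.Z.JAX
import Pool.Agent.Helper233.Cen.Z.P2
import Pool.Agent.Helper233.Cen.Z.MGB
import Pool.Agent.Helper233.Cen.Z.TT
import Pool.Agent.Helper233.Cen.Z.LIFT

set_option autoImplicit false

namespace Pool.Agent.Helper233.Cen

open Subgroup
open scoped Pointwise commutatorElement

variable {G : Type*} [Group G]

/-- if `a` has finitely many `F`-conjugates then `⟨a^F⟩` is finite, so nilpotent -/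
theorem finite_KF {p : ℕ} [hp : Fact p.Prime] (hG : IsPGroup p G) (a : G) (F : Subgroup G)
    (hF : {x | ∃ f ∈ F, x = cj a f}.Finite) (haF : a ∈ F) :
    Finite (KF a F) := by
  set aF : F := ⟨a, haF⟩ with haFd
  have hfi : (centralizer ({aF} : Set F)).FiniteIndex := by
    have hfinA : Finite {x | ∃ f ∈ F, x = cj a f} := hF.to_subtype
    let φ : F ⧸ centralizer ({aF} : Set F) → {x | ∃ f ∈ F, x = cj a f} := fun q =>
      ⟨cj a ((Quotient.out q : F) : G)⁻¹, ((Quotient.out q : F) : G)⁻¹,
        F.inv_mem (Quotient.out q : F).2, rfl⟩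
    have hinj : Function.Injective φ := by
      intro q r hqr
      have h1 : ((Quotient.out q : F))⁻¹ * (Quotient.out r : F) ∈ centralizer ({aF} : Set F) := by
        rw [mem_centralizer_singleton_iff]
        apply Subtype.ext
        have h2 := congrArg Subtype.val hqr
        obtain ⟨s, hs⟩ : ∃ s, s = ((Quotient.out q : F) : G) := ⟨_, rfl⟩
        obtain ⟨t, ht⟩ : ∃ t, t = ((Quotient.out r : F) : G) := ⟨_, rfl⟩
        have h3 : cj a s⁻¹ = cj a t⁻¹ := by rw [hs, ht]; exact h2
        have h5 : s * a * s⁻¹ = t * a * t⁻¹ := by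
          unfold cj at h3
          rw [inv_inv, inv_inv] at h3
          exact h3
        show (((Quotient.out q : F) : G))⁻¹ * ((Quotient.out r : F) : G) * a =
          a * ((((Quotient.out q : F) : G))⁻¹ * ((Quotient.out r : F) : G))
        rw [← hs, ← ht]
        calc s⁻¹ * t * a = s⁻¹ * (t * a * t⁻¹) * t := by group
          _ = s⁻¹ * (s * a * s⁻¹) * t := by rw [h5]
          _ = _ := by group
      have h8 := QuotientGroup.eq.2 h1
      rw [QuotientGroup.out_eq', QuotientGroup.out_eq'] at h8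
      exact h8
    have hfin := Finite.of_injective φ hinj
    exact finiteIndex_of_finite_quotient
  have hfin := finite_normalClosure (hG.to_subgroup F) aF hfi
  have hK := KF_eq a F haF
  have hfinK : Finite (KF a F) := by
    have h1 : ((normalClosure ({aF} : Set F) : Subgroup F) : Set F).Finite := Set.toFinite _
    have h2 := h1.image (Subtype.val : F → G)
    have h3 : ((KF a F : Subgroup G) : Set G).Finite := by
      rw [← hK]
      exact h2
    exact h3.to_subtype
  exact hfinK

/-- `K` is locally finite -/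
theorem locFin_K {p : ℕ} [hp : Fact p.Prime] (hG : IsPGroup p G) (a : G) (hlf : LocFin a) :
    ∀ T : Set G, T.Finite → T ⊆ (normalClosure ({a} : Set G) : Set G) → Finite (closure T) := by
  intro T hT hTK
  have hex : ∀ t : G, ∃ S : Set G, S.Finite ∧ (t ∈ T → ∀ F : Subgroup G, S ⊆ F → t ∈ KF a F) := by
    intro t
    by_cases ht : t ∈ T
    · obtain ⟨S, hS, hS'⟩ := mem_KF_of_mem a t (hTK ht)
      exact ⟨S, hS, fun _ => hS'⟩
    · exact ⟨∅, Set.finite_empty, fun h => absurd h ht⟩
  choose S hS hS' using hex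
  set F := closure ((⋃ t ∈ T, S t) ∪ {a}) with hF
  have hfin : ((⋃ t ∈ T, S t) ∪ {a}).Finite := (hT.biUnion fun t _ => hS t).union
    (Set.finite_singleton a)
  have haF : a ∈ F := subset_closure (Or.inr rfl)
  have hsub : closure T ≤ KF a F := by
    rw [closure_le]
    intro t ht
    refine hS' t ht F ?_
    intro x hx
    refine subset_closure (Or.inl ?_)
    rw [Set.mem_iUnion₂]
    exact ⟨t, ht, hx⟩
  have hFf := hlf _ hfin
  have hfinK : Finite (KF a F) := finite_KF hG a F hFf haF
  exact Finite.of_injective (Subgroup.inclusion hsub) (Subgroup.inclusion_injective hsub)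

/-- `LocFin` passes to quotients -/
theorem locFin_quot (D : Subgroup G) [D.Normal] (a : G) (hlf : LocFin a) :
    LocFin (QuotientGroup.mk' D a) := by
  intro S hS
  obtain ⟨S', hS'f, hS'⟩ : ∃ S' : Set G, S'.Finite ∧ (QuotientGroup.mk' D) '' S' = S := by
    refine ⟨(fun q : G ⧸ D => Quotient.out q) '' S, hS.image _, ?_⟩
    rw [← Set.image_comp]
    ext x
    constructor
    · rintro ⟨y, hy, rfl⟩
      have : QuotientGroup.mk' D (Quotient.out y) = y := QuotientGroup.out_eq' y
      show QuotientGroup.mk' D (Quotient.out y) ∈ S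
      rw [this]; exact hy
    · intro hx
      exact ⟨x, hx, QuotientGroup.out_eq' x⟩
  have h1 := (hlf S' hS'f).image (QuotientGroup.mk' D)
  refine h1.subset ?_
  rintro _ ⟨f, hf, rfl⟩
  rw [← hS', ← MonoidHom.map_closure] at hf
  obtain ⟨f', hf', rfl⟩ := hf
  refine ⟨cj a f', ⟨f', hf', rfl⟩, ?_⟩
  unfold cj
  rw [map_mul, map_mul, map_inv]

/-- `K / D` is nilpotent for the largest divisible abelian normal subgroup `D` inside `K` -/
theorem nilp_mod {p : ℕ} [hp : Fact p.Prime] (hG : IsPGroup p G) (a : G)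
    (hap : a ^ p = 1) (hlf : LocFin a) (h2 : (CC a).Finite)
    (D : Subgroup G) [hDn : D.Normal] (hDK : D ≤ normalClosure ({a} : Set G))
    (hD : ∀ x ∈ D, ∀ y ∈ D, x * y = y * x)
    (hDd : ∀ x ∈ D, ∃ y ∈ D, y ^ p = x)
    (hmax : ∀ E : Subgroup G, E.Normal → E ≤ normalClosure ({a} : Set G) →
      (∀ x ∈ E, ∀ y ∈ E, x * y = y * x) → (∀ x ∈ E, ∃ y ∈ E, y ^ p = x) → E ≤ D)
    (s : ℕ) (hs : ∀ k ∈ (normalClosure ({a} : Set G)).lowerCentralSeries s,
      ∀ x ∈ D, k * x = x * k) :
    ∃ c, (normalClosure ({a} : Set G)).lowerCentralSeries c ≤ D := by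
  set π := QuotientGroup.mk' D with hπ
  have hπs : Function.Surjective π := QuotientGroup.mk'_surjective D
  set K := normalClosure ({a} : Set G) with hKd
  have hKmap : K.map π = normalClosure ({π a} : Set (G ⧸ D)) := by
    rw [hKd, Subgroup.map_normalClosure _ _ hπs, Set.image_singleton]
  have hlcs : ∀ n, (K.lowerCentralSeries n).map π =
      (normalClosure ({π a} : Set (G ⧸ D))).lowerCentralSeries n := by
    intro n
    rw [← hKmap, Subgroup.map_lowerCentralSeries]
  have hker : ∀ H : Subgroup G, H.map π = ⊥ → H ≤ D := by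
    intro H hH x hx
    have h1 : π x ∈ H.map π := ⟨x, hx, rfl⟩
    rw [hH, mem_bot] at h1
    exact (QuotientGroup.eq_one_iff x).1 h1
  by_cases hnil : Group.IsNilpotent (normalClosure ({π a} : Set (G ⧸ D)))
  · obtain ⟨c, hc⟩ : ∃ c, (normalClosure ({π a} : Set (G ⧸ D))).lowerCentralSeries c = ⊥ :=
      (Subgroup.isNilpotent_iff_lowerCentralSeries _).1 hnil
    exact ⟨c, hker _ (by rw [hlcs, hc])⟩
  · exfalso
    have hMn : ((centralizer (D : Set G)).map π).Normal :=
      (inferInstance : (centralizer (D : Set G)).Normal).map π hπs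
    obtain ⟨E, hEn, hE1, hEc, hEd, hEK, hEM⟩ := nilp_or_divQ (p := p) (hG.to_quotient D) (π a)
      (by rw [← map_pow, hap, map_one]) (locFin_quot D a hlf)
      ((centralizer (D : Set G)).map π) (ZJAX.AX_quot hG D hD hDd a hap h2) hnil s (by
        rw [← hlcs]
        apply Subgroup.map_mono
        intro k hk
        rw [mem_centralizer_iff]
        intro x hx
        exact (hs k hk x hx).symm)
    have hEM' : ∀ x : G, (x : G ⧸ D) ∈ E → ∀ y ∈ D, x * y = y * x := by
      intro x hx y hy
      obtain ⟨z, hz, hzx⟩ := hEM hx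
      have h1 : z⁻¹ * x ∈ D := QuotientGroup.eq.1 hzx
      rw [SetLike.mem_coe, mem_centralizer_iff] at hz
      have h3 : y * z = z * y := hz y hy
      have h4 : (z⁻¹ * x) * y = y * (z⁻¹ * x) := hD _ h1 _ hy
      calc x * y = z * ((z⁻¹ * x) * y) := by group
        _ = z * y * (z⁻¹ * x) := by rw [h4]; group
        _ = y * z * (z⁻¹ * x) := by rw [h3]
        _ = y * x := by group
    obtain ⟨h5, h6⟩ := ZLIFT.lift_div hG D hD hDd E hEc hEd hEM'
    have h7 : E.comap π ≤ D := by
      apply hmax
      · exact hEn.comap π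
      · intro x hx
        have h8 : π x ∈ K.map π := by rw [hKmap]; exact hEK hx
        obtain ⟨k, hk, hkx⟩ := h8
        have h9 : k⁻¹ * x ∈ D := QuotientGroup.eq.1 hkx
        have : x = k * (k⁻¹ * x) := by group
        rw [this]
        exact mul_mem hk (hDK h9)
      · intro x hx y hy
        exact h5 x y hx hy
      · intro x hx
        exact h6 x hx
    apply hE1
    rw [eq_bot_iff]
    intro y hy
    obtain ⟨x, rfl⟩ := hπs y
    rw [mem_bot]
    exact (QuotientGroup.eq_one_iff x).2 (h7 hy)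

end Pool.Agent.Helper233.Cen
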