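import Mathlib
import Pool.Agent.Helper233.Cen.M6
import Pool.Agent.Helper233.Cen.Z.JX2

set_option autoImplicit false

namespace Pool.Agent.Helper233.Cen

open Subgroup
open scoped Pointwise commutatorElement

variable {G : Type*} [Group G]

/-- the main theorem for groups in which `a` has finitely many conjugates under each finitely
generated subgroup -/
theorem main_locFin {p : ℕ} [hp : Fact p.Prime] (hG : IsPGroup p G) (a : G) (ha : orderOf a = p)
    (hlf : LocFin a) (h2 : (CC a).Finite) : center G ≠ ⊥ := by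
  intro hZ
  have hap : a ^ p = 1 := by rw [← ha]; exact pow_orderOf_eq_one a
  have haK : a ∈ normalClosure ({a} : Set G) := subset_normalClosure (Set.mem_singleton a)
  obtain ⟨D, hDn, hDK, hD, hDd, hmax⟩ := ZB2.exists_maxD hG (normalClosure ({a} : Set G))
  have hfin : {y : G | (∃ x ∈ D, y = dl a x) ∧ y ^ p = 1}.Finite := by
    refine (finite_S1 D hD a hp.out hap h2).subset ?_
    rintro y ⟨h1, h3⟩
    exact ⟨h3, h1⟩
  have hpath := ZP2.path_CsP hG a (locFin_K hG a hlf) D hDK hD hfin
  obtain ⟨s, hs⟩ : ∃ s, ∀ k ∈ (normalClosure ({a} : Set G)).lowerCentralSeries s,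
      ∀ x ∈ D, k * x = x * k := by
    obtain ⟨m, hm⟩ := hpath 2
    refine ⟨m, fun k hk x hx => ?_⟩
    have h3 : ∀ x ∈ D, x ^ p ^ 2 = 1 → cj x k = x := by
      intro x hx hxp
      have h4 : Commute x k := alpha_comm _ m (Cs_mono_succ _ m (hm x hx hxp)) hk
      unfold cj
      calc k⁻¹ * x * k = k⁻¹ * (x * k) := by group
        _ = k⁻¹ * (k * x) := by rw [h4.eq]
        _ = x := by group
    have h5 := ZTT.triv_of_socle hG D hD hDd k (fun x hx => cj_mem D k hx) h3 x hx
    unfold cj at h5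
    calc k * x = k * (k⁻¹ * x * k) := by rw [h5]
      _ = x * k := by group
  have hc := nilp_mod hG a hap hlf h2 D hDK hD hDd hmax s hs
  obtain ⟨S, hS, hSa⟩ := ZJX2.class_X hG D hD hDd a hap h2 hDK hpath hc
  obtain ⟨W, hWD, hWK, _, hWf, hRW⟩ := ZJW.exists_W hG D (normalClosure ({a} : Set G)) hD hDd a haK
    s hs hfin
  refine ZMGB.final_generic hG hZ a ha h2 D hD W hWD hWK hWf hRW S hS ?_
  rintro b ⟨g, rfl⟩ hb
  refine hSa _ ?_ hb
  have h6 := (inferInstance : (normalClosure ({a} : Set G)).Normal).conj_mem a haK g⁻¹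
  rw [inv_inv] at h6
  exact h6

end Pool.Agent.Helper233.Cen
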