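import Pool.Agent.Helper233.Cen.P

/-!
# Idempotent ultrafilters avoiding the cosets of a subgroup of infinite index
-/

set_option autoImplicit false

namespace Pool.Agent.Helper233.Cen

open Subgroup
open scoped Pointwise

variable {X : Type*} [Group X]

/-- the double translate `s C t` -/
def sct (C : Subgroup X) (s t : X) : Set X := {x | ∃ c ∈ C, x = s * c * t}

theorem exists_ultra (C : Subgroup X) (hC : ¬ C.FiniteIndex) :
    ∃ U : Ultrafilter X, ∀ s t, sct C s t ∉ U := by
  classical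
  obtain ⟨U, hU⟩ := Ultrafilter.exists_ultrafilter_of_finite_inter_nonempty
    {A : Set X | ∃ s t, A = (sct C s t)ᶜ} (by
    intro T hT
    by_contra hne
    rw [Set.not_nonempty_iff_eq_empty] at hne
    have hch : ∀ A : Set X, ∃ q : X × X, A ∈ T → A = (sct C q.1 q.2)ᶜ := by
      intro A
      by_cases hA : A ∈ T
      · obtain ⟨s, t, hst⟩ := hT hA
        exact ⟨(s, t), fun _ => hst⟩
      · exact ⟨(1, 1), fun h => absurd h hA⟩
    choose q hq using hch
    have hcov : ⋃ A ∈ T, ((q A).1 * (q A).2) • ((C.map (MulAut.conj ((q A).2)⁻¹).toMonoidHom :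
        Subgroup X) : Set X) = Set.univ := by
      rw [Set.eq_univ_iff_forall]
      intro x
      have hx : x ∉ ⋂₀ (T : Set (Set X)) := by rw [hne]; exact Set.notMem_empty x
      rw [Set.mem_sInter] at hx
      push Not at hx
      obtain ⟨A, hA, hxA⟩ := hx
      rw [hq A hA, Set.notMem_compl_iff] at hxA
      obtain ⟨c, hc, rfl⟩ := hxA
      rw [Set.mem_iUnion₂]
      refine ⟨A, hA, ?_⟩
      rw [Set.mem_smul_set_iff_inv_smul_mem]
      refine ⟨c, hc, ?_⟩
      simp only [MulEquiv.toMonoidHom_eq_coe, MonoidHom.coe_coe, MulAut.conj_apply, smul_eq_mul]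
      group
    obtain ⟨A, hA, hfi⟩ := exists_finiteIndex_of_leftCoset_cover hcov
    apply hC
    have h1 : (C.map (MulAut.conj ((q A).2)⁻¹).toMonoidHom).index ≠ 0 := hfi.index_ne_zero
    have h2 : (C.map (MulAut.conj ((q A).2)⁻¹).toMonoidHom).index = C.index :=
      index_map_equiv C (MulAut.conj ((q A).2)⁻¹)
    rw [h2] at h1
    exact ⟨h1⟩)
  refine ⟨U, fun s t hst => ?_⟩
  have : (sct C s t)ᶜ ∈ U := hU ⟨s, t, rfl⟩
  exact (Ultrafilter.compl_mem_iff_notMem.1 this) hst

attribute [local instance] Ultrafilter.semigroup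

theorem exists_idem (C : Subgroup X) (hC : ¬ C.FiniteIndex) :
    ∃ U : Ultrafilter X, (∀ s t, sct C s t ∉ U) ∧ U * U = U := by
  obtain ⟨U₀, hU₀⟩ := exists_ultra C hC
  obtain ⟨U, hU, hid⟩ := exists_idempotent_in_compact_subsemigroup
    (M := Ultrafilter X) (fun r => Ultrafilter.continuous_mul_left r)
    {U : Ultrafilter X | ∀ s t, sct C s t ∉ U} ⟨U₀, hU₀⟩ (by
      apply IsClosed.isCompact
      have : {U : Ultrafilter X | ∀ s t, sct C s t ∉ U} =
          ⋂ s, ⋂ t, {U : Ultrafilter X | (sct C s t)ᶜ ∈ U} := by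
        ext U
        simp only [Set.mem_ofPred_eq, Set.mem_iInter, Ultrafilter.compl_mem_iff_notMem]
      rw [this]
      exact isClosed_iInter fun s => isClosed_iInter fun t => ultrafilter_isClosed_basic _) (by
      intro V hV W hW s t hst
      have h1 : ∀ᶠ m in (V * W : Ultrafilter X), m ∈ sct C s t := hst
      rw [Ultrafilter.eventually_mul] at h1
      obtain ⟨m, hm⟩ := h1.exists
      apply hW (m⁻¹ * s) t
      filter_upwards [hm] with m' hm'
      obtain ⟨c, hc, hcc⟩ := hm'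
      exact ⟨c, hc, by rw [mul_assoc, mul_assoc, ← mul_assoc s, ← hcc]; group⟩)
  exact ⟨U, hU, hid⟩

/-- a function with finitely many values, which is `1` only on finitely many right cosets of a
subgroup of infinite index, is constant `≠ 1` on an `IP`-set -/
theorem exists_FP (C : Subgroup X) (hC : ¬ C.FiniteIndex) {Y : Type*} [One Y] (f : X → Y)
    (hf : (Set.range f).Finite) (T : Set X) (hT : T.Finite)
    (h1 : ∀ x, f x = 1 → ∃ t ∈ T, x * t⁻¹ ∈ C) :
    ∃ v : Y, v ≠ 1 ∧ ∃ a : Stream' X, ∀ x ∈ Hindman.FP a, f x = v := by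
  obtain ⟨U, hU, hid⟩ := exists_idem C hC
  have hcov : (⋃ v ∈ Set.range f, f ⁻¹' {v}) ∈ U := by
    have : (⋃ v ∈ Set.range f, f ⁻¹' {v}) = Set.univ := by
      rw [Set.eq_univ_iff_forall]
      intro x
      rw [Set.mem_iUnion₂]
      exact ⟨f x, ⟨x, rfl⟩, rfl⟩
    rw [this]
    exact Filter.univ_mem
  rw [Ultrafilter.finite_biUnion_mem_iff hf] at hcov
  obtain ⟨v, _, hv⟩ := hcov
  refine ⟨v, ?_, ?_⟩
  · rintro rfl
    have h2 : (⋃ t ∈ T, sct C 1 t) ∈ U := by
      refine Filter.mem_of_superset hv ?_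
      intro x hx
      obtain ⟨t, ht, htC⟩ := h1 x hx
      rw [Set.mem_iUnion₂]
      exact ⟨t, ht, x * t⁻¹, htC, by group⟩
    rw [Ultrafilter.finite_biUnion_mem_iff hT] at h2
    obtain ⟨t, _, ht⟩ := h2
    exact hU 1 t ht
  · obtain ⟨a, ha⟩ := Hindman.exists_FP_of_large U hid _ hv
    exact ⟨a, fun x hx => ha hx⟩

end Pool.Agent.Helper233.Cen
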