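import Pool.Agent.Helper233.Cen.F
import Pool.Agent.Helper233.Cen.U

/-!
# Nilpotent groups: finitely many commuting conjugates implies finitely many conjugates
-/

set_option autoImplicit false

namespace Pool.Agent.Helper233.Cen

open Subgroup
open scoped Pointwise commutatorElement

variable {X : Type*} [Group X]

theorem mem_comap_cent (N : Subgroup X) [N.Normal] (a y : X) :
    y ∈ (centralizer ({(QuotientGroup.mk' N) a} : Set (X ⧸ N))).comap (QuotientGroup.mk' N) ↔
      a⁻¹ * cj a y ∈ N := by
  rw [mem_comap, mem_centralizer_singleton_iff, ← map_mul, ← map_mul]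
  rw [QuotientGroup.mk'_apply, QuotientGroup.mk'_apply, QuotientGroup.eq]
  have e : (y * a)⁻¹ * (a * y) = a⁻¹ * cj a y := by unfold cj; group
  rw [e]

theorem pol_f (a : X) (n : ℕ) : Pol n 0 (fun y : X => a⁻¹ * cj a (cj a y)) := by
  obtain ⟨im, ii, ic⟩ := pol_closed (X := X) n
  have hA : Pol n 0 (fun _ : X => a) := pol_const n 0 a (mem_top a)
  have hI := pol_id (X := X) n
  have h1 : Pol n 0 ((fun y : X => y)⁻¹ * (fun _ : X => a) * (fun y : X => y)) :=
    im _ _ _ (im _ _ _ (ii _ _ hI) hA) hI
  have h2 := im _ _ _ (ii _ _ hA) (im _ _ _ (im _ _ _ (ii _ _ h1) hA) h1)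
  exact h2

/-- in a nilpotent group an element with finitely many commuting conjugates has finitely many
conjugates -/
theorem nilp [hX : Group.IsNilpotent X] (a : X) (h2 : (CC a).Finite) :
    {x : X | IsConj a x}.Finite := by
  have hD : ∀ j, {w : X | w ∈ Subgroup.upperCentralSeries X j ∧ ∃ x, w = a⁻¹ * cj a x}.Finite := by
    intro j
    induction j with
    | zero =>
      refine (Set.finite_singleton (1 : X)).subset ?_
      rintro w ⟨hw, _⟩
      rw [Subgroup.upperCentralSeries_zero, mem_bot] at hw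
      exact hw
    | succ j ih =>
      set Z := Subgroup.upperCentralSeries X (j + 1) with hZ
      set Y := (centralizer ({(QuotientGroup.mk' Z) a} : Set (X ⧸ Z))).comap
        (QuotientGroup.mk' Z) with hY
      have hYm : ∀ y, y ∈ Y ↔ a⁻¹ * cj a y ∈ Z := mem_comap_cent Z a
      have haY : a ∈ Y := by
        rw [hYm]
        have : a⁻¹ * cj a a = 1 := by unfold cj; group
        rw [this]; exact one_mem _
      set C := (centralizer ({a} : Set X)).subgroupOf Y with hC
      by_cases hfi : C.FiniteIndex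
      · have hfin : Finite (Y ⧸ C) := inferInstance
        refine (Set.finite_range (fun q : Y ⧸ C => a⁻¹ * cj a (((Quotient.out q : Y) : X)⁻¹))).subset ?_
        rintro w ⟨hw, x, hx⟩
        have hxY : x ∈ Y := by rw [hYm, ← hx]; exact hw
        refine ⟨((⟨x, hxY⟩ : Y)⁻¹ : Y), ?_⟩
        obtain ⟨c, hc⟩ := QuotientGroup.mk_out_eq_mul C ((⟨x, hxY⟩ : Y)⁻¹)
        have hcC : ((c : Y) : X) * a = a * c := by
          have h : ((c : Y) : X) ∈ centralizer ({a} : Set X) :=
            mem_subgroupOf.1 (show (c : Y) ∈ (centralizer ({a} : Set X)).subgroupOf Y from c.2)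
          rw [mem_centralizer_singleton_iff] at h
          exact h
        show a⁻¹ * cj a (((Quotient.out ((((⟨x, hxY⟩ : Y)⁻¹ : Y)) : Y ⧸ C) : Y) : X)⁻¹) = w
        rw [hc, hx]
        congr 1
        have e : ((((⟨x, hxY⟩ : Y)⁻¹ * (c : Y) : Y) : X))⁻¹ = ((c : Y) : X)⁻¹ * x := by
          show (x⁻¹ * ((c : Y) : X))⁻¹ = _
          group
        rw [e, ← cj_cj]
        congr 1
        unfold cj
        rw [inv_inv, hcC]
        group
      · exfalso
        set aY : Y := ⟨a, haY⟩ with haYd
        set f : Y → Y := fun y => aY⁻¹ * cj aY (cj aY y) with hf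
        have hval : ∀ y : Y, ((f y : Y) : X) = a⁻¹ * cj a (cj a (y : X)) := fun y => rfl
        have hfr : (Set.range f).Finite := by
          refine (ih.preimage (f := (Subtype.val : Y → X)) Subtype.val_injective.injOn).subset ?_
          rintro _ ⟨y, rfl⟩
          rw [Set.mem_preimage, hval]
          have hw : a⁻¹ * cj a (y : X) ∈ Z := (hYm _).1 y.2
          obtain ⟨w, hwd⟩ : ∃ w, w = a⁻¹ * cj a (y : X) := ⟨_, rfl⟩
          rw [← hwd] at hw
          have e1 : cj a (y : X) = a * w := by rw [hwd]; group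
          have e2 : cj a (cj a (y : X)) = cj a w := by rw [e1]; unfold cj; group
          refine ⟨?_, w, by rw [e2]⟩
          rw [e2]
          have h3 := Subgroup.mem_upperCentralSeries_succ_iff.1 (inv_mem hw) a⁻¹
          have e3 : a⁻¹ * cj a w = ⁅w⁻¹, a⁻¹⁆⁻¹ := by
            rw [commutatorElement_def]; unfold cj; group
          rw [e3]
          exact inv_mem h3
        have hch : ∀ c : X, ∃ t : Y, (∃ y : Y, cj a (y : X) = c) → cj a (t : X) = c := by
          intro c
          by_cases h : ∃ y : Y, cj a (y : X) = c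
          · obtain ⟨y, hy⟩ := h
            exact ⟨y, fun _ => hy⟩
          · exact ⟨1, fun h' => absurd h' h⟩
        choose t ht using hch
        obtain ⟨v, hv1, s, hs⟩ := exists_FP C hfi f hfr (t '' (CC a)) (h2.image _) (by
          intro y hy
          have h4 : a⁻¹ * cj a (cj a (y : X)) = 1 := by rw [← hval, hy]; rfl
          have h5 : cj a (cj a (y : X)) = a := by
            rw [inv_mul_eq_one] at h4; exact h4.symm
          have h6 : (cj a (y : X))⁻¹ * a * cj a (y : X) = a := h5
          have h7 : Commute (cj a (y : X)) a := by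
            show cj a (y : X) * a = a * cj a (y : X)
            calc cj a (y : X) * a
                = cj a (y : X) * ((cj a (y : X))⁻¹ * a * cj a (y : X)) := by rw [h6]
              _ = a * cj a (y : X) := by group
          refine ⟨t (cj a (y : X)), ⟨_, ⟨h7, isConj_cj a _⟩, rfl⟩, ?_⟩
          have h8 := ht (cj a (y : X)) ⟨y, rfl⟩
          rw [hC, mem_subgroupOf, mem_centralizer_singleton_iff]
          obtain ⟨t0, ht0⟩ : ∃ t0, t0 = t (cj a (y : X)) := ⟨_, rfl⟩
          rw [← ht0] at h8 ⊢
          have h9 : cj a ((y : X) * (t0 : X)⁻¹) = a := by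
            rw [← cj_cj, ← h8]; unfold cj; group
          show (y : X) * (t0 : X)⁻¹ * a = a * ((y : X) * (t0 : X)⁻¹)
          obtain ⟨z, hz⟩ : ∃ z, z = (y : X) * (t0 : X)⁻¹ := ⟨_, rfl⟩
          rw [← hz] at h9 ⊢
          have h10 : z⁻¹ * a * z = a := h9
          calc z * a = z * (z⁻¹ * a * z) := by rw [h10]
            _ = a * z := by group)
        apply hv1
        refine fp_trivial f (pol_f aY) ?_ v s hs
        show aY⁻¹ * cj aY (cj aY 1) = 1
        unfold cj; group
  obtain ⟨n, hn⟩ := hX.nilpotent'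
  have := hD n
  rw [hn] at this
  refine (this.image (fun w => a * w)).subset ?_
  intro x hx
  obtain ⟨g, rfl⟩ := exists_cj_of_isConj hx
  exact ⟨a⁻¹ * cj a g, ⟨mem_top _, g, rfl⟩, by group⟩

/-- the case of nilpotent `K = ⟨a^G⟩` -/
theorem case_nilp {G : Type*} [Group G] {p : ℕ} [hp : Fact p.Prime] (hG : IsPGroup p G) (a : G)
    (ha : a ≠ 1) (h2 : (CC a).Finite)
    (hK : Group.IsNilpotent (normalClosure ({a} : Set G))) : center G ≠ ⊥ := by
  apply case_orbit hG a ha h2
  have haK : a ∈ normalClosure ({a} : Set G) := subset_normalClosure (Set.mem_singleton a)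
  set aK : normalClosure ({a} : Set G) := ⟨a, haK⟩ with haKd
  have h3 : (CC aK).Finite := by
    refine (h2.preimage (f := (Subtype.val : normalClosure ({a} : Set G) → G))
      Subtype.val_injective.injOn).subset ?_
    rintro x ⟨hx1, hx2⟩
    refine ⟨congrArg Subtype.val hx1.eq, ?_⟩
    exact MonoidHom.map_isConj (normalClosure ({a} : Set G)).subtype hx2
  refine ((nilp aK h3).image Subtype.val).subset ?_
  rintro _ ⟨k, hk, rfl⟩
  exact ⟨cj aK ⟨k, hk⟩, isConj_cj _ _, rfl⟩

end Pool.Agent.Helper233.Cen
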