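import Mathlib

/-!
# Polynomial maps on a nilpotent group
-/

set_option autoImplicit false

namespace Pool.Agent.Helper233.Cen

open Subgroup
open scoped Pointwise commutatorElement

variable {X : Type*} [Group X]

theorem three_sub (N : Subgroup X) [N.Normal] (H₁ H₂ H₃ : Subgroup X)
    (h1 : ⁅⁅H₂, H₃⁆, H₁⁆ ≤ N) (h2 : ⁅⁅H₃, H₁⁆, H₂⁆ ≤ N) : ⁅⁅H₁, H₂⁆, H₃⁆ ≤ N := by
  have key : ∀ H : Subgroup X, H ≤ N ↔ H.map (QuotientGroup.mk' N) = ⊥ := by
    intro H
    rw [Subgroup.map_eq_bot_iff, QuotientGroup.ker_mk']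
  rw [key, map_commutator, map_commutator] at h1 h2 ⊢
  exact commutator_commutator_eq_bot_of_rotate h1 h2

theorem lcs_comm (i j : ℕ) :
    ⁅(⊤ : Subgroup X).lowerCentralSeries i, (⊤ : Subgroup X).lowerCentralSeries j⁆ ≤
      (⊤ : Subgroup X).lowerCentralSeries (i + j + 1) := by
  induction j generalizing i with
  | zero => exact le_rfl
  | succ j ih =>
    have hN : ((⊤ : Subgroup X).lowerCentralSeries (i + (j + 1) + 1)).Normal := inferInstance
    rw [commutator_comm, Subgroup.lowerCentralSeries_succ]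
    apply three_sub
    · rw [commutator_comm ⊤, ← Subgroup.lowerCentralSeries_succ]
      have := ih (i + 1)
      have e : i + 1 + j + 1 = i + (j + 1) + 1 := by ring
      rwa [e] at this
    · have h1 : ⁅⁅(⊤ : Subgroup X).lowerCentralSeries i, (⊤ : Subgroup X).lowerCentralSeries j⁆,
          (⊤ : Subgroup X)⁆ ≤ ⁅(⊤ : Subgroup X).lowerCentralSeries (i + j + 1), ⊤⁆ :=
        commutator_mono (ih i) le_rfl
      rw [← Subgroup.lowerCentralSeries_succ] at h1
      exact h1

/-- the filtration `X, X, γ₂, γ₃, …` -/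
def FF (X : Type*) [Group X] : ℕ → Subgroup X
  | 0 => ⊤
  | i + 1 => (⊤ : Subgroup X).lowerCentralSeries i

theorem FF_anti (i : ℕ) : FF X (i + 1) ≤ FF X i := by
  cases i with
  | zero => exact le_top
  | succ i => exact Subgroup.lowerCentralSeries_antitone _ (Nat.le_succ i)

instance FF_normal (i : ℕ) : (FF X i).Normal := by
  cases i with
  | zero => exact (inferInstance : (⊤ : Subgroup X).Normal)
  | succ i => exact (inferInstance : ((⊤ : Subgroup X).lowerCentralSeries i).Normal)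

theorem FF_comm (i j : ℕ) {x y : X} (hx : x ∈ FF X i) (hy : y ∈ FF X j) :
    ⁅x, y⁆ ∈ FF X (i + j) := by
  cases i with
  | zero =>
    rw [zero_add, commutatorElement_def]
    exact mul_mem ((FF_normal j).conj_mem y hy x) (inv_mem hy)
  | succ i =>
    cases j with
    | zero =>
      rw [add_zero, commutatorElement_def]
      have : x * y * x⁻¹ * y⁻¹ = x * (y * x⁻¹ * y⁻¹) := by group
      rw [this]
      exact mul_mem hx ((FF_normal (i + 1)).conj_mem _ (inv_mem hx) y)
    | succ j =>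
      have h := lcs_comm (X := X) i j (commutator_mem_commutator hx hy)
      have e : i + 1 + (j + 1) = i + j + 1 + 1 := by ring
      rw [e]
      exact h

/-- derivative -/
def Dv (y : X) (f : X → X) : X → X := fun x => (f x)⁻¹ * f (y * x)

/-- `f` is polynomial to level `n` with shift `s` -/
def Pol : ℕ → ℕ → (X → X) → Prop
  | 0, s, f => ∀ x, f x ∈ FF X s
  | n + 1, s, f => (∀ x, f x ∈ FF X s) ∧ ∀ y, Pol n (s + 1) (Dv y f)

theorem Pol.val {n s : ℕ} {f : X → X} (h : Pol n s f) (x : X) : f x ∈ FF X s := by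
  cases n with
  | zero => exact h x
  | succ n => exact h.1 x

theorem pol_anti (n : ℕ) : ∀ (s : ℕ) (f : X → X), Pol n (s + 1) f → Pol n s f := by
  induction n with
  | zero => intro s f h x; exact FF_anti s (h x)
  | succ n ih => intro s f h; exact ⟨fun x => FF_anti s (h.1 x), fun y => ih _ _ (h.2 y)⟩

theorem pol_le {n s t : ℕ} {f : X → X} (hst : s ≤ t) (h : Pol n t f) : Pol n s f := by
  induction t, hst using Nat.le_induction with
  | base => exact h
  | succ t _ ih => exact ih (pol_anti n t f h)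

theorem pol_drop (n : ℕ) : ∀ (s : ℕ) (f : X → X), Pol (n + 1) s f → Pol n s f := by
  induction n with
  | zero => intro s f h; exact h.1
  | succ n ih => intro s f h; exact ⟨h.1, fun y => ih _ _ (h.2 y)⟩

theorem pol_closed (n : ℕ) :
    (∀ (s : ℕ) (f g : X → X), Pol n s f → Pol n s g → Pol n s (f * g)) ∧
    (∀ (s : ℕ) (f : X → X), Pol n s f → Pol n s f⁻¹) ∧
    (∀ (s t : ℕ) (f g : X → X), Pol n s f → Pol n t g → Pol n (s + t) ⁅f, g⁆) := by
  induction n with
  | zero =>
    exact ⟨fun s f g hf hg x => mul_mem (hf x) (hg x), fun s f hf x => inv_mem (hf x),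
      fun s t f g hf hg x => FF_comm s t (hf x) (hg x)⟩
  | succ n ih =>
    obtain ⟨im, ii, ic⟩ := ih
    have iconj : ∀ (s : ℕ) (k E : X → X), Pol n 0 k → Pol n s E → Pol n s (k * E * k⁻¹) := by
      intro s k E hk hE
      have h1 := ic 0 s k E hk hE
      rw [zero_add] at h1
      have h2 := im s _ _ h1 hE
      have e : ⁅k, E⁆ * E = k * E * k⁻¹ := by rw [commutatorElement_def]; group
      rwa [e] at h2
    refine ⟨?_, ?_, ?_⟩
    · intro s f g hf hg
      refine ⟨fun x => mul_mem (hf.1 x) (hg.1 x), fun y => ?_⟩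
      have e : Dv y (f * g) = Dv y f * ⁅(Dv y f)⁻¹, g⁻¹⁆ * Dv y g := by
        funext x
        simp only [Dv, Pi.mul_apply, commutatorElement_def, Pi.inv_apply]
        group
      rw [e]
      have h1 : Pol n (s + 1) ⁅(Dv y f)⁻¹, g⁻¹⁆ := by
        have := ic (s + 1) s _ _ (ii _ _ (hf.2 y)) (ii _ _ (pol_drop n s g hg))
        exact pol_le (by omega) this
      exact im _ _ _ (im _ _ _ (hf.2 y) h1) (hg.2 y)
    · intro s f hf
      refine ⟨fun x => inv_mem (hf.1 x), fun y => ?_⟩
      have e : Dv y f⁻¹ = (Dv y f)⁻¹ * ⁅Dv y f, f⁆ := by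
        funext x
        simp only [Dv, Pi.mul_apply, commutatorElement_def, Pi.inv_apply]
        group
      rw [e]
      have h1 : Pol n (s + 1) ⁅Dv y f, f⁆ :=
        pol_le (by omega) (ic (s + 1) s _ _ (hf.2 y) (pol_drop n s f hf))
      exact im _ _ _ (ii _ _ (hf.2 y)) h1
    · intro s t f g hf hg
      refine ⟨fun x => FF_comm s t (hf.1 x) (hg.1 x), fun y => ?_⟩
      obtain ⟨F, hF⟩ : ∃ F, F = Dv y f := ⟨_, rfl⟩
      obtain ⟨G, hG⟩ : ∃ G, G = Dv y g := ⟨_, rfl⟩
      have hf' := pol_drop n s f hf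
      have hg' := pol_drop n t g hg
      have hf0 := pol_le (Nat.zero_le s) hf'
      have hg0 := pol_le (Nat.zero_le t) hg'
      have hFp : Pol n (s + 1) F := hF ▸ hf.2 y
      have hGp : Pol n (t + 1) G := hG ▸ hg.2 y
      have e : Dv y ⁅f, g⁆ = (⁅f, g⁆⁻¹ * f) * (⁅F, g⁆ * (g * ⁅F, G⁆ * g⁻¹)) * (⁅f, g⁆⁻¹ * f)⁻¹ *
          (g * ⁅f, G⁆ * g⁻¹) := by
        rw [hF, hG]
        funext x
        simp only [Dv, Pi.mul_apply, commutatorElement_def, Pi.inv_apply]
        group
      rw [e]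
      have c0 : Pol n 0 ⁅f, g⁆ := by
        have := ic 0 0 f g hf0 hg0
        exact this
      have k0 : Pol n 0 (⁅f, g⁆⁻¹ * f) := im _ _ _ (ii _ _ c0) hf0
      have h1 : Pol n (s + t + 1) ⁅F, g⁆ := pol_le (by omega) (ic _ _ _ _ hFp hg')
      have h2 : Pol n (s + t + 1) ⁅F, G⁆ := pol_le (by omega) (ic _ _ _ _ hFp hGp)
      have h3 : Pol n (s + t + 1) ⁅f, G⁆ := pol_le (by omega) (ic _ _ _ _ hf' hGp)
      exact im _ _ _ (iconj _ _ _ k0 (im _ _ _ h1 (iconj _ _ _ hg0 h2))) (iconj _ _ _ hg0 h3)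

theorem pol_const (n : ℕ) : ∀ (s : ℕ) (c : X), c ∈ FF X s → Pol n s (fun _ => c) := by
  induction n with
  | zero => intro s c hc x; exact hc
  | succ n ih =>
    intro s c hc
    refine ⟨fun x => hc, fun y => ?_⟩
    have e : Dv y (fun _ : X => c) = fun _ => 1 := by
      funext x; simp [Dv]
    rw [e]
    exact ih _ _ (one_mem _)

theorem pol_id (n : ℕ) : Pol n 0 (fun x : X => x) := by
  induction n with
  | zero => intro x; exact mem_top x
  | succ n ih =>
    refine ⟨fun x => mem_top x, fun y => ?_⟩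
    obtain ⟨im, ii, ic⟩ := pol_closed (X := X) n
    have e : Dv y (fun x : X => x) = ⁅(fun x : X => x)⁻¹, fun _ => y⁆ * (fun _ => y) := by
      funext x
      simp only [Dv, Pi.mul_apply, commutatorElement_def, Pi.inv_apply]
      group
    rw [e]
    have hy : Pol n 1 (fun _ : X => y) := pol_const n 1 y (by
      show y ∈ (⊤ : Subgroup X).lowerCentralSeries 0
      exact mem_top y)
    have h1 := ic 0 1 _ _ (ii _ _ ih) hy
    rw [zero_add] at h1
    exact im _ _ _ h1 hy

/-- iterated derivative -/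
def DvL : List X → (X → X) → (X → X)
  | [], f => f
  | y :: ys, f => DvL ys (Dv y f)

theorem DvL_mem (ys : List X) : ∀ (s : ℕ) (f : X → X), Pol ys.length s f → ∀ x,
    DvL ys f x ∈ FF X (s + ys.length) := by
  induction ys with
  | nil => intro s f h x; exact h x
  | cons y ys ih =>
    intro s f h x
    have := ih (s + 1) (Dv y f) (h.2 y) x
    have e : s + (y :: ys).length = s + 1 + ys.length := by
      rw [List.length_cons]; omega
    rw [e]
    exact this

/-- nonempty subproducts -/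
def PS : List X → Set X
  | [] => ∅
  | y :: ys => {y} ∪ PS ys ∪ (fun m => y * m) '' PS ys

theorem evalC (ys : List X) : ∀ (g : X → X) (v : X), g 1 = v → (∀ m ∈ PS ys, g m = 1) →
    DvL ys g 1 = v ∨ DvL ys g 1 = v⁻¹ := by
  induction ys with
  | nil => intro g v h _; exact Or.inl h
  | cons y ys ih =>
    intro g v h hm
    have h1 : Dv y g 1 = v⁻¹ := by
      unfold Dv
      rw [h, mul_one, hm y (Or.inl (Or.inl rfl)), mul_one]
    have h2 : ∀ m ∈ PS ys, Dv y g m = 1 := by
      intro m hmm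
      unfold Dv
      rw [hm m (Or.inl (Or.inr hmm)), hm (y * m) (Or.inr ⟨m, hmm, rfl⟩)]
      simp
    rcases ih _ _ h1 h2 with h3 | h3
    · exact Or.inr h3
    · rw [inv_inv] at h3; exact Or.inl h3

theorem evalB (y : X) (ys : List X) (f : X → X) (v : X) (h : f 1 = 1)
    (hm : ∀ m ∈ PS (y :: ys), f m = v) :
    DvL (y :: ys) f 1 = v ∨ DvL (y :: ys) f 1 = v⁻¹ := by
  show DvL ys (Dv y f) 1 = v ∨ DvL ys (Dv y f) 1 = v⁻¹
  apply evalC ys (Dv y f) v
  · unfold Dv
    rw [h, mul_one, hm y (Or.inl (Or.inl rfl))]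
    simp
  · intro m hmm
    unfold Dv
    rw [hm m (Or.inl (Or.inr hmm)), hm (y * m) (Or.inr ⟨m, hmm, rfl⟩)]
    simp

theorem PS_take (n : ℕ) : ∀ (a : Stream' X), PS (a.take n) ⊆ Hindman.FP a := by
  induction n with
  | zero => intro a m hm; exact absurd hm (Set.notMem_empty m)
  | succ n ih =>
    intro a m hm
    rw [Stream'.take_succ] at hm
    rcases hm with (hm | hm) | ⟨k, hk, rfl⟩
    · rw [Set.mem_singleton_iff] at hm
      subst hm
      exact Hindman.FP.head a
    · exact Hindman.FP.tail a m (ih a.tail hm)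
    · exact Hindman.FP.cons a k (ih a.tail hk)

/-- a polynomial map of a nilpotent group, vanishing at `1`, cannot be constant `≠ 1` on an
`IP`-set -/
theorem fp_trivial [hX : Group.IsNilpotent X] (f : X → X) (hf : ∀ n, Pol n 0 f) (h1 : f 1 = 1)
    (v : X) (a : Stream' X) (ha : ∀ x ∈ Hindman.FP a, f x = v) : v = 1 := by
  obtain ⟨n, hn⟩ := Subgroup.nilpotent_iff_lowerCentralSeries.1 hX
  have h2 := DvL_mem (a.take (n + 1)) 0 f (hf _) 1
  rw [zero_add, Stream'.length_take] at h2
  have h3 : DvL (a.take (n + 1)) f 1 = 1 := by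
    have : FF X (n + 1) = ⊥ := hn
    rw [this, mem_bot] at h2
    exact h2
  have h4 : DvL (a.take (n + 1)) f 1 = v ∨ DvL (a.take (n + 1)) f 1 = v⁻¹ := by
    have hPS := PS_take (n + 1) a
    rw [Stream'.take_succ] at hPS ⊢
    exact evalB _ _ f v h1 fun m hm => ha m (hPS hm)
  rcases h4 with h4 | h4
  · rw [← h4, h3]
  · rw [h3] at h4
    exact (inv_eq_one.1 h4.symm)

end Pool.Agent.Helper233.Cen
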